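import Pool.Agent.Q120.HL.H5

/-!
# The singular series against its part below `z`
-/

set_option autoImplicit false

namespace Pool.Agent.Q120.HL

open Finset Filter Topology MeasureTheory Pool.Agent.Q120.GM Pool.Agent.Q120.CL Pool.Agent.Q120.MG

theorem loc_ne {D : Finset ℕ} (h : SS D ≠ 0) {p : ℕ} (hp : p.Prime) : loc D p ≠ 0 := by
  intro h0
  apply h
  refine tendsto_nhds_unique (Sz_tendsto D) ?_
  refine tendsto_const_nhds.congr' ?_
  filter_upwards [eventually_ge_atTop (p + 1)] with w hw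
  unfold Sz
  exact (prod_eq_zero (mem_filter.2 ⟨mem_range.2 (by omega), hp⟩) h0).symm

theorem loc_ge {D : Finset ℕ} {p : ℕ} (hp : p.Prime) (h : loc D p ≠ 0) : 1 / (p : ℝ) ≤ loc D p := by
  obtain ⟨t0, t1⟩ := inv_prime hp
  have hp0 : (0 : ℝ) < p := by exact_mod_cast hp.pos
  have h1 : nu D p < p := by
    refine lt_of_le_of_ne (nu_le D hp.pos) (fun h2 => h ?_)
    unfold loc
    rw [h2, div_self hp0.ne', sub_self, zero_div]
  have h3 : (nu D p : ℝ) + 1 ≤ p := by exact_mod_cast h1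
  have h4 : 0 < (1 - 1 / (p : ℝ)) ^ D.card := pow_pos (by linarith) _
  have h5 : (1 - 1 / (p : ℝ)) ^ D.card ≤ 1 := pow_le_one₀ (by linarith) (by linarith)
  unfold loc
  rw [le_div_iff₀ h4]
  have h6 : 1 / (p : ℝ) ≤ 1 - nu D p / p := by
    rw [le_sub_iff_add_le, ← add_div, div_le_one hp0]
    linarith
  calc 1 / (p : ℝ) * (1 - 1 / (p : ℝ)) ^ D.card ≤ 1 / (p : ℝ) * 1 := mul_le_mul_of_nonneg_left h5 t0.le
    _ ≤ 1 - nu D p / p := by linarith

/-- The nonzero values of the singular series are bounded from below. -/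
theorem cr_pos (r : ℕ) : ∃ c : ℝ, 0 < c ∧ ∀ D : Finset ℕ, D.card = r → SS D ≠ 0 → c ≤ SS D := by
  obtain ⟨M, hM⟩ : ∃ M : ℕ, M = 4 * r ^ 2 + 2 * r + 1 := ⟨_, rfl⟩
  have hP : (0 : ℝ) < PQ M := by exact_mod_cast PQ_pos M
  refine ⟨1 / 2 * (1 / PQ M), by positivity, fun D hD hS => ?_⟩
  have hM0 : (0 : ℝ) < M := by
    have : 0 < M := by omega
    exact_mod_cast this
  have h1 := SS_lower (D := D) (z := M) (by rw [hD]; omega) (by omega)
  have h2 : 1 / 2 ≤ 1 - 2 * (D.card : ℝ) ^ 2 / M := by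
    rw [hD]
    have : 2 * (r : ℝ) ^ 2 / M ≤ 1 / 2 := by
      rw [div_le_iff₀ hM0, hM]
      push_cast
      nlinarith [show (0 : ℝ) ≤ r from Nat.cast_nonneg r]
    linarith
  have h3 : 1 / (PQ M : ℝ) ≤ Sz D M := by
    unfold PQ Sz
    push_cast
    rw [one_div, ← prod_inv_distrib]
    refine prod_le_prod (fun p _ => by positivity) (fun p hp => ?_)
    rw [← one_div]
    exact loc_ge (mem_filter.1 hp).2 (loc_ne hS (mem_filter.1 hp).2)
  calc 1 / 2 * (1 / (PQ M : ℝ)) ≤ (1 - 2 * (D.card : ℝ) ^ 2 / M) * Sz D M := mul_le_mul h2 h3 (by positivity) (by linarith)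
    _ ≤ SS D := h1

theorem loglog_tendsto : Tendsto (fun k : ℕ => Real.log (Real.log k)) atTop atTop :=
  Real.tendsto_log_atTop.comp (Real.tendsto_log_atTop.comp hcast)

theorem log_tend : Tendsto (fun k : ℕ => Real.log (k : ℝ)) atTop atTop := Real.tendsto_log_atTop.comp hcast

theorem near_top {a : ℝ} (ha : 0 < a) {u : ℕ → ℕ} (hu : ∀ᶠ k : ℕ in atTop, Real.log k ^ a / 2 ≤ u k ∧ (u k : ℝ) ≤ 2 * Real.log k ^ a) :
    Tendsto u atTop atTop := by
  have h1 : Tendsto (fun k : ℕ => Real.log (k : ℝ) ^ a / 2) atTop atTop :=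
    Tendsto.atTop_div_const (by norm_num) ((tendsto_rpow_atTop ha).comp log_tend)
  have h2 : Tendsto (fun k : ℕ => (u k : ℝ)) atTop atTop := tendsto_atTop_mono' _ (hu.mono (fun k hk => hk.1)) h1
  exact tendsto_natCast_atTop_iff.1 h2

theorem log_near {a : ℝ} {u : ℕ → ℕ} (hu : ∀ᶠ k : ℕ in atTop, Real.log k ^ a / 2 ≤ u k ∧ (u k : ℝ) ≤ 2 * Real.log k ^ a) :
    Tendsto (fun k : ℕ => Real.log (u k) / Real.log (Real.log k)) atTop (𝓝 a) := by
  have h1 : Tendsto (fun k : ℕ => a - Real.log 2 / Real.log (Real.log k)) atTop (𝓝 a) := by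
    have := (tendsto_const_nhds (x := Real.log 2)).div_atTop loglog_tendsto
    simpa using (tendsto_const_nhds (x := a)).sub this
  have h2 : Tendsto (fun k : ℕ => a + Real.log 2 / Real.log (Real.log k)) atTop (𝓝 a) := by
    have := (tendsto_const_nhds (x := Real.log 2)).div_atTop loglog_tendsto
    simpa using (tendsto_const_nhds (x := a)).add this
  refine tendsto_of_tendsto_of_tendsto_of_le_of_le' h1 h2 ?_ ?_
  · filter_upwards [hu, loglog_tendsto.eventually_gt_atTop 0, log_tend.eventually_gt_atTop 0] with k h3 h4 h5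
    rw [le_div_iff₀ h4, sub_mul, div_mul_cancel₀ _ h4.ne', ← Real.log_rpow h5, ← Real.log_div (by positivity) (by norm_num)]
    exact Real.log_le_log (by positivity) h3.1
  · filter_upwards [hu, loglog_tendsto.eventually_gt_atTop 0, log_tend.eventually_gt_atTop 0] with k h3 h4 h5
    rw [div_le_iff₀ h4, add_mul, div_mul_cancel₀ _ h4.ne', ← Real.log_rpow h5, ← Real.log_mul (by positivity) (by norm_num)]
    have h6 : (0 : ℝ) < u k := lt_of_lt_of_le (by positivity) h3.1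
    exact Real.log_le_log h6 (by linarith [h3.2])

/-- The ratio of two products. -/
theorem Vratio {a b : ℝ} (ha : 0 < a) (hb : 0 < b) {u v : ℕ → ℕ}
    (hu : ∀ᶠ k : ℕ in atTop, Real.log k ^ a / 2 ≤ u k ∧ (u k : ℝ) ≤ 2 * Real.log k ^ a)
    (hv : ∀ᶠ k : ℕ in atTop, Real.log k ^ b / 2 ≤ v k ∧ (v k : ℝ) ≤ 2 * Real.log k ^ b) :
    Tendsto (fun k : ℕ => Vf (u k) / Vf (v k)) atTop (𝓝 (b / a)) := by
  obtain ⟨c, hc⟩ : ∃ c, c = Real.exp (-Real.eulerMascheroniConstant) := ⟨_, rfl⟩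
  have hc0 : 0 < c := by rw [hc]; exact Real.exp_pos _
  have h1 := Vf_lim
  rw [← hc] at h1
  have h2 : Tendsto (fun k : ℕ => Vf (u k) * Real.log (u k)) atTop (𝓝 c) := h1.comp (near_top ha hu)
  have h3 : Tendsto (fun k : ℕ => Vf (v k) * Real.log (v k)) atTop (𝓝 c) := h1.comp (near_top hb hv)
  have h4 := h2.div h3 hc0.ne'
  rw [div_self hc0.ne'] at h4
  have h5 := (log_near hv).div (log_near hu) ha.ne'
  have h6 := h4.mul h5
  rw [one_mul] at h6
  refine h6.congr' ?_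
  have hu2 := (near_top ha hu).eventually_ge_atTop 2
  have hv2 := (near_top hb hv).eventually_ge_atTop 2
  filter_upwards [hu2, hv2, loglog_tendsto.eventually_gt_atTop 0] with k h7 h8 h9
  have e1 : 0 < Real.log (u k : ℝ) := Real.log_pos (by
    have : (2 : ℝ) ≤ u k := by exact_mod_cast h7
    linarith)
  have e2 : 0 < Real.log (v k : ℝ) := Real.log_pos (by
    have : (2 : ℝ) ≤ v k := by exact_mod_cast h8
    linarith)
  have e3 := Vf_pos (v k)
  simp only [Pi.div_apply]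
  field_simp

theorem ceil_near {a : ℝ} (ha : 0 < a) : ∀ᶠ k : ℕ in atTop, Real.log k ^ a / 2 ≤ (⌈Real.log k ^ a⌉₊ : ℕ) ∧
    ((⌈Real.log k ^ a⌉₊ : ℕ) : ℝ) ≤ 2 * Real.log k ^ a := by
  have h1 : Tendsto (fun k : ℕ => Real.log (k : ℝ) ^ a) atTop atTop := (tendsto_rpow_atTop ha).comp log_tend
  filter_upwards [h1.eventually_ge_atTop 2] with k h2
  have h3 := Nat.le_ceil (Real.log k ^ a)
  have h4 := Nat.ceil_lt_add_one (show 0 ≤ Real.log (k : ℝ) ^ a by linarith)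
  exact ⟨by linarith, by linarith⟩

theorem floor_near {a : ℝ} (ha : 0 < a) : ∀ᶠ k : ℕ in atTop, Real.log k ^ a / 2 ≤ (⌊Real.log k ^ a⌋₊ : ℕ) ∧
    ((⌊Real.log k ^ a⌋₊ : ℕ) : ℝ) ≤ 2 * Real.log k ^ a := by
  have h1 : Tendsto (fun k : ℕ => Real.log (k : ℝ) ^ a) atTop atTop := (tendsto_rpow_atTop ha).comp log_tend
  filter_upwards [h1.eventually_ge_atTop 2] with k h2
  have h3 := Nat.floor_le (show 0 ≤ Real.log (k : ℝ) ^ a by linarith)
  have h4 := Nat.lt_floor_add_one (Real.log (k : ℝ) ^ a)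
  exact ⟨by linarith, by linarith⟩

theorem back_half (r : ℕ) : ∀ᶠ k : ℕ in atTop, ∀ j, k - mm r k ≤ j → k ≤ 2 * j := by
  filter_upwards [mm_small r (show (0 : ℝ) < 1 by norm_num) (show (0 : ℝ) < 1 / 2 by norm_num)] with k h1 j hj
  rw [Real.rpow_one] at h1
  have h2 : 2 * mm r k + 2 ≤ k := by
    have : ((2 * mm r k + 2 : ℕ) : ℝ) ≤ k := by push_cast; linarith
    exact_mod_cast this
  omega

/-- Lower bounds for the level in the blocks that matter. -/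
theorem low_back (r : ℕ) {z : ℕ → ℕ} {θ δ : ℝ} (hθ : 0 < θ) (hθ1 : θ ≤ 1) (hδ : 0 < δ) (hδ1 : δ < θ)
    (hlow : ∀ δ : ℝ, 0 < δ → ∀ᶠ k : ℕ in atTop, Real.log k ^ (θ - δ) ≤ z k) :
    ∀ᶠ k : ℕ in atTop, ∀ j, k - mm r k ≤ j → Real.log k ^ (θ - δ) ≤ z j := by
  obtain ⟨K, hK⟩ := eventually_atTop.1 (hlow (δ / 2) (by linarith))
  have h1 : Tendsto (fun k : ℕ => Real.log (k : ℝ) ^ (δ / 2)) atTop atTop := (tendsto_rpow_atTop (by linarith)).comp log_tend
  filter_upwards [back_half r, eventually_ge_atTop (2 * K + 4), h1.eventually_ge_atTop 2, log_tend.eventually_ge_atTop 2]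
    with k h2 h3 h4 h5 j hj
  have h6 := h2 j hj
  refine le_trans ?_ (hK j (by omega))
  have h7 : (k : ℝ) ≤ 2 * j := by exact_mod_cast h6
  have hk0 : (0 : ℝ) < k := by
    have : 0 < k := by omega
    exact_mod_cast this
  have hj0 : (0 : ℝ) < j := by linarith
  have h8 : Real.log k / 2 ≤ Real.log j := by
    have e1 : Real.log k ≤ Real.log (2 * j) := Real.log_le_log hk0 h7
    rw [Real.log_mul (by norm_num) hj0.ne'] at e1
    have e2 := Real.log_two_lt_d9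
    linarith
  have hL : 0 < Real.log (k : ℝ) := by linarith
  calc Real.log k ^ (θ - δ) ≤ (Real.log k / 2) ^ (θ - δ / 2) := by
        rw [Real.div_rpow hL.le (by norm_num)]
        have e1 : (2 : ℝ) ^ (θ - δ / 2) ≤ 2 := by
          calc (2 : ℝ) ^ (θ - δ / 2) ≤ 2 ^ (1 : ℝ) := Real.rpow_le_rpow_of_exponent_le (by norm_num) (by linarith)
            _ = 2 := Real.rpow_one 2
        have e2 : (0 : ℝ) < 2 ^ (θ - δ / 2) := by positivity
        rw [le_div_iff₀ e2]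
        have e3 : θ - δ / 2 = (θ - δ) + δ / 2 := by ring
        calc Real.log k ^ (θ - δ) * 2 ^ (θ - δ / 2) ≤ Real.log k ^ (θ - δ) * Real.log k ^ (δ / 2) :=
              mul_le_mul_of_nonneg_left (e1.trans h4) (by positivity)
          _ = Real.log k ^ (θ - δ / 2) := by rw [← Real.rpow_add hL, e3]
    _ ≤ Real.log j ^ (θ - δ / 2) := Real.rpow_le_rpow (by positivity) h8 (by linarith)

/-- The partial singular series is at least nearly `θ ^ r` times the whole one. -/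
theorem low_ratio (r B : ℕ) {z : ℕ → ℕ} {θ κ : ℝ} (hθ : 0 < θ) (hθ1 : θ ≤ 1) (hκ : κ < θ ^ r)
    (hlow : ∀ δ : ℝ, 0 < δ → ∀ᶠ k : ℕ in atTop, Real.log k ^ (θ - δ) ≤ z k) :
    ∀ᶠ k : ℕ in atTop, ∀ D : Finset ℕ, D ⊆ range (k ^ B + 1) → D.card = r + 1 →
      ∀ j, k - mm (r + 1) k ≤ j → κ * SS D ≤ Sz D (z j) := by
  obtain ⟨δ, ⟨hδ1, hδ2⟩, hδ0⟩ : ∃ δ : ℝ, (κ < ((θ - δ) / (1 + δ)) ^ r ∧ δ < θ) ∧ 0 < δ := by
    have h1 : Tendsto (fun δ : ℝ => ((θ - δ) / (1 + δ)) ^ r) (𝓝 0) (𝓝 (((θ - 0) / (1 + 0)) ^ r)) := by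
      refine Tendsto.pow ?_ r
      refine Tendsto.div ?_ ?_ (by norm_num)
      · exact tendsto_const_nhds.sub tendsto_id
      · exact tendsto_const_nhds.add tendsto_id
    rw [sub_zero, add_zero, div_one] at h1
    have h2 := (h1.eventually (lt_mem_nhds hκ)).and (gt_mem_nhds hθ)
    have h3 : ∀ᶠ δ : ℝ in 𝓝[>] 0, (κ < ((θ - δ) / (1 + δ)) ^ r ∧ δ < θ) ∧ 0 < δ := by
      filter_upwards [h2.filter_mono nhdsWithin_le_nhds, self_mem_nhdsWithin] with δ h4 h5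
      exact ⟨h4, h5⟩
    exact h3.exists
  have ha : 0 < θ - δ := by linarith
  have hb : 0 < 1 + δ := by linarith
  have hV := Vratio ha hb (ceil_near ha) (ceil_near hb)
  have hE : Tendsto (fun k : ℕ => Real.exp (4 * (((r : ℝ) + 1) ^ 2 * Real.log ((k ^ B : ℕ) : ℝ)) / (⌈Real.log k ^ (1 + δ)⌉₊ : ℕ)))
      atTop (𝓝 1) := by
    suffices hg : Tendsto (fun k : ℕ => 4 * (((r : ℝ) + 1) ^ 2 * Real.log ((k ^ B : ℕ) : ℝ)) / (⌈Real.log k ^ (1 + δ)⌉₊ : ℕ))
        atTop (𝓝 0) by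
      have h0 := (Real.continuous_exp.tendsto 0).comp hg
      rw [Real.exp_zero] at h0
      exact h0
    have h1 : Tendsto (fun k : ℕ => 4 * ((r : ℝ) + 1) ^ 2 * B * Real.log (k : ℝ) ^ (-δ)) atTop (𝓝 0) := by
      have := ((tendsto_rpow_neg_atTop hδ0).comp log_tend).const_mul (4 * ((r : ℝ) + 1) ^ 2 * B)
      rw [mul_zero] at this
      exact this
    refine tendsto_of_tendsto_of_tendsto_of_le_of_le' tendsto_const_nhds h1 ?_ ?_
    · filter_upwards [eventually_ge_atTop 1] with k hk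
      have : 0 ≤ Real.log ((k ^ B : ℕ) : ℝ) := Real.log_natCast_nonneg _
      positivity
    · filter_upwards [log_tend.eventually_ge_atTop 1] with k hk
      have hL : 0 < Real.log (k : ℝ) := by linarith
      have e1 := Nat.le_ceil (Real.log k ^ (1 + δ))
      have e2 : 0 < Real.log (k : ℝ) ^ (1 + δ) := by positivity
      rw [div_le_iff₀ (by linarith)]
      have e3 : Real.log ((k ^ B : ℕ) : ℝ) = B * Real.log k := by
        push_cast
        rw [Real.log_pow]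
      have e4 : Real.log (k : ℝ) ^ (-δ) * Real.log k ^ (1 + δ) = Real.log k := by
        rw [← Real.rpow_add hL]
        have : -δ + (1 + δ) = 1 := by ring
        rw [this, Real.rpow_one]
      rw [e3]
      calc 4 * (((r : ℝ) + 1) ^ 2 * (B * Real.log k)) = 4 * ((r : ℝ) + 1) ^ 2 * B * (Real.log (k : ℝ) ^ (-δ) * Real.log k ^ (1 + δ)) := by
            rw [e4]
            ring
        _ = 4 * ((r : ℝ) + 1) ^ 2 * B * Real.log (k : ℝ) ^ (-δ) * Real.log k ^ (1 + δ) := by ring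
        _ ≤ 4 * ((r : ℝ) + 1) ^ 2 * B * Real.log (k : ℝ) ^ (-δ) * (⌈Real.log k ^ (1 + δ)⌉₊ : ℕ) :=
            mul_le_mul_of_nonneg_left e1 (by positivity)
  have hR := ((hV.mul hE).pow r).const_mul κ
  have hlt : κ * ((1 + δ) / (θ - δ) * 1) ^ r < 1 := by
    rw [mul_one]
    have e1 : ((1 + δ) / (θ - δ)) ^ r * ((θ - δ) / (1 + δ)) ^ r = 1 := by
      rw [← mul_pow, div_mul_div_comm, mul_comm (1 + δ), div_self (by positivity), one_pow]
    have e2 : 0 < ((1 + δ) / (θ - δ)) ^ r := by positivity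
    calc κ * ((1 + δ) / (θ - δ)) ^ r < ((θ - δ) / (1 + δ)) ^ r * ((1 + δ) / (θ - δ)) ^ r := mul_lt_mul_of_pos_right hδ1 e2
      _ = 1 := by rw [mul_comm, e1]
  filter_upwards [hR.eventually (gt_mem_nhds hlt), low_back (r + 1) hθ hθ1 hδ0 hδ2 hlow, eventually_ge_atTop 1,
    (near_top hb (ceil_near hb)).eventually_ge_atTop 2, log_tend.eventually_ge_atTop 1] with k h1 h2 h3 h4 h5 D hD hDr j hj
  rcases le_or_gt κ 0 with h6 | h6
  · exact le_trans (mul_nonpos_of_nonpos_of_nonneg h6 (SS_nonneg D)) (Sz_nonneg D _)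
  have h7 := SS_upper (D := D) (r := r) (H := k ^ B) (z := ⌈Real.log k ^ (θ - δ)⌉₊) (z₁ := z j) (y := ⌈Real.log k ^ (1 + δ)⌉₊)
    hDr (Nat.one_le_pow _ _ h3) (fun d hd => by
      have := mem_range.1 (hD hd)
      omega) h4 (Nat.ceil_le_ceil (Real.rpow_le_rpow_of_exponent_le h5 (by linarith))) (Nat.ceil_le.2 (h2 j hj))
  rw [hDr] at h7
  push_cast at h7 h1
  calc κ * SS D ≤ κ * (Sz D (z j) * (Vf ⌈Real.log k ^ (θ - δ)⌉₊ / Vf ⌈Real.log k ^ (1 + δ)⌉₊ *
        Real.exp (4 * (((r : ℝ) + 1) ^ 2 * Real.log ((k : ℝ) ^ B)) / (⌈Real.log k ^ (1 + δ)⌉₊ : ℝ))) ^ r) := mul_le_mul_of_nonneg_left h7 h6.le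
    _ = Sz D (z j) * (κ * (Vf ⌈Real.log k ^ (θ - δ)⌉₊ / Vf ⌈Real.log k ^ (1 + δ)⌉₊ *
        Real.exp (4 * (((r : ℝ) + 1) ^ 2 * Real.log ((k : ℝ) ^ B)) / (⌈Real.log k ^ (1 + δ)⌉₊ : ℝ))) ^ r) := by ring
    _ ≤ Sz D (z j) * 1 := mul_le_mul_of_nonneg_left h1.le (Sz_nonneg D _)
    _ = Sz D (z j) := mul_one _

/-- The partial singular series is at most nearly the whole one. -/
theorem upp_ratio (r : ℕ) {z : ℕ → ℕ} {e : ℝ} (he : 0 < e) (he1 : e ≤ 1) (hz : Tendsto z atTop atTop) :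
    ∀ᶠ k : ℕ in atTop, ∀ D : Finset ℕ, D.card = r → ∀ j, k - mm r k ≤ j → Sz D (z j) ≤ (1 + e) * SS D := by
  obtain ⟨N, hN⟩ : ∃ N : ℕ, N = ⌈4 * (r : ℝ) ^ 2 / e⌉₊ + 2 * r + 1 := ⟨_, rfl⟩
  obtain ⟨K, hK⟩ := eventually_atTop.1 (hz.eventually_ge_atTop N)
  filter_upwards [back_half r, eventually_ge_atTop (2 * K)] with k h1 h2 D hDr j hj
  have h3 := hK j (by have := h1 j hj; omega)
  have h4 := SS_lower (D := D) (z := z j) (by rw [hDr]; omega) (by omega)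
  rw [hDr] at h4
  have hzj : (0 : ℝ) < z j := by
    have : 0 < z j := by omega
    exact_mod_cast this
  have h5 : 2 * (r : ℝ) ^ 2 / z j ≤ e / 2 := by
    rw [div_le_iff₀ hzj]
    have e1 := Nat.le_ceil (4 * (r : ℝ) ^ 2 / e)
    have e2 : ((⌈4 * (r : ℝ) ^ 2 / e⌉₊ : ℕ) : ℝ) ≤ z j := by
      have : ⌈4 * (r : ℝ) ^ 2 / e⌉₊ ≤ z j := by omega
      exact_mod_cast this
    have e3 : 4 * (r : ℝ) ^ 2 ≤ z j * e := by
      rw [div_le_iff₀ he] at e1
      nlinarith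
    linarith
  have hs := Sz_nonneg D (z j)
  have h6 : (1 - e / 2) * Sz D (z j) ≤ SS D := le_trans (mul_le_mul_of_nonneg_right (by linarith) hs) h4
  nlinarith [mul_nonneg hs (mul_nonneg he.le (sub_nonneg.2 he1))]

end Pool.Agent.Q120.HL
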