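import Pool.Agent.Q120.CL.U1

/-!
# Concentration for the number of tuples
-/

set_option autoImplicit false

namespace Pool.Agent.Q120.HL

open Finset Filter Topology MeasureTheory Pool.Agent.Q120.GM Pool.Agent.Q112.LE Pool.Agent.Q120.CL

open Classical in
/-- The number of `n ≤ x` such that `n - d` is an element of `S` for all `d ∈ D`. -/
noncomputable def tup (S : Set ℕ) (D : Finset ℕ) (x : ℕ) : ℕ := ((range (x + 1)).filter (fun n => ∀ d ∈ D, d ≤ n ∧ n - d ∈ S)).card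

open Classical in
/-- The probability that all `n - d`, `d ∈ D`, are elements. -/
noncomputable def pt (p : ℕ → ℝ) (D : Finset ℕ) (n : ℕ) : ℝ := if ∀ d ∈ D, d ≤ n then ∏ d ∈ D, p (n - d) else 0

/-- The expected number of tuples. -/
noncomputable def ED (p : ℕ → ℝ) (D : Finset ℕ) (x : ℕ) : ℝ := ∑ n ∈ range (x + 1), pt p D n

variable {Ω : Type*} [MeasurableSpace Ω] {μ : Measure Ω} [IsProbabilityMeasure μ] {A : Ω → Set ℕ} {p : ℕ → ℝ}

/-- The event that all `n - d`, `d ∈ D`, are elements. -/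
def G (A : Ω → Set ℕ) (D : Finset ℕ) (n : ℕ) : Set Ω := {ω | ∀ d ∈ D, d ≤ n ∧ n - d ∈ A ω}

omit [MeasurableSpace Ω] in
theorem G_all {D : Finset ℕ} {n : ℕ} (h : ∀ d ∈ D, d ≤ n) : G A D n = all A (D.image (fun d => n - d)) := by
  ext ω
  constructor
  · intro hω m hm
    rw [mem_image] at hm
    obtain ⟨d, hd, rfl⟩ := hm
    exact (hω d hd).2
  · intro hω d hd
    exact ⟨h d hd, hω _ (mem_image_of_mem _ hd)⟩

omit [MeasurableSpace Ω] in
theorem G_empty {D : Finset ℕ} {n : ℕ} (h : ¬ ∀ d ∈ D, d ≤ n) : G A D n = ∅ := by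
  ext ω
  simp only [Set.mem_empty_iff_false, iff_false]
  intro hω
  exact h (fun d hd => (hω d hd).1)

theorem real_G (hA : IsModel μ p A) (D : Finset ℕ) (n : ℕ) : μ.real (G A D n) = pt p D n := by
  classical
  by_cases h : ∀ d ∈ D, d ≤ n
  · rw [G_all h, real_all hA, pt, if_pos h, prod_image]
    intro a ha b hb hab
    have h1 := h a ha
    have h2 := h b hb
    simp only [] at hab
    omega
  · rw [G_empty h, measureReal_empty, pt, if_neg h]

theorem meas_G (hA : IsModel μ p A) (D : Finset ℕ) (n : ℕ) : MeasurableSet (G A D n) := by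
  classical
  by_cases h : ∀ d ∈ D, d ≤ n
  · rw [G_all h]
    exact meas_all hA _
  · rw [G_empty h]
    exact MeasurableSet.empty

omit [MeasurableSpace Ω] in
theorem F_G {D : Finset ℕ} {M n : ℕ} (hM : ∀ d ∈ D, d < M) : MeasurableSet[F A {m | m ≤ n ∧ n < m + M}] (G A D n) := by
  classical
  by_cases h : ∀ d ∈ D, d ≤ n
  · rw [G_all h]
    refine F_all (fun m hm => ?_)
    rw [mem_image] at hm
    obtain ⟨d, hd, rfl⟩ := hm
    have h1 := h d hd
    have h2 := hM d hd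
    rw [Set.mem_setOf_eq]
    omega
  · rw [G_empty h]
    exact @MeasurableSet.empty _ (F A {m | m ≤ n ∧ n < m + M})

theorem mutual_G (hA : IsModel μ p A) {D : Finset ℕ} {M : ℕ} (hM : ∀ d ∈ D, d < M) (c x : ℕ) :
    Mutual μ ((range (x + 1)).filter (fun n => n % M = c)) (G A D) := by
  intro T hT
  refine indep_many hA T (fun n => {m | m ≤ n ∧ n < m + M}) ?_ (G A D) (fun n _ => F_G hM)
  intro i hi j hj hij
  have h1 := (mem_filter.1 (hT hi)).2
  have h2 := (mem_filter.1 (hT hj)).2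
  rw [Set.disjoint_left]
  intro m hm hm'
  rw [Set.mem_setOf_eq] at hm hm'
  have h3 : i ≡ j [MOD M] := by
    unfold Nat.ModEq
    rw [h1, h2]
  rcases Nat.lt_or_gt_of_ne hij with h | h
  · have h4 := (Nat.modEq_iff_dvd' h.le).1 h3
    have h5 := Nat.le_of_dvd (by omega) h4
    omega
  · have h4 := (Nat.modEq_iff_dvd' h.le).1 h3.symm
    have h5 := Nat.le_of_dvd (by omega) h4
    omega

omit [MeasurableSpace Ω] in
theorem tup_num (A : Ω → Set ℕ) (D : Finset ℕ) (x : ℕ) (ω : Ω) : (tup (A ω) D x : ℝ) = num (range (x + 1)) (G A D) ω := by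
  classical
  unfold num tup
  rw [card_filter]
  push_cast
  refine sum_congr rfl (fun n _ => ?_)
  by_cases h : ω ∈ G A D n
  · rw [Set.indicator_of_mem h, if_pos (show ∀ d ∈ D, d ≤ n ∧ n - d ∈ A ω from h)]
  · rw [Set.indicator_of_notMem h, if_neg (show ¬ ∀ d ∈ D, d ≤ n ∧ n - d ∈ A ω from h)]

/-- Deviation of the number of tuples. -/
theorem dev (hA : IsModel μ p A) {D : Finset ℕ} {M x : ℕ} (hM0 : 0 < M) (hM : ∀ d ∈ D, d < M) (hx : 2 * M ≤ x) {ε : ℝ}
    (hε : 0 ≤ ε) (hε1 : ε ≤ 1) : μ.real {ω | ε * (x + 1) ≤ |(tup (A ω) D x : ℝ) - ED p D x|} ≤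
      M * (2 * Real.exp (-(ε ^ 2 / 4 * ((x : ℝ) / (2 * M))))) := by
  classical
  obtain ⟨J, hJ⟩ : ∃ J : ℕ → Finset ℕ, J = fun c => (range (x + 1)).filter (fun n => n % M = c) := ⟨_, rfl⟩
  have hmaps : ∀ n ∈ range (x + 1), n % M ∈ range M := fun n _ => mem_range.2 (Nat.mod_lt _ hM0)
  have hcard : ∀ c ∈ range M, (x : ℝ) / (2 * M) ≤ (J c).card := by
    intro c hc
    rw [mem_range] at hc
    have h1 : (J c).card = Nat.count (fun n => n ≡ c [MOD M]) (x + 1) := by
      rw [Nat.count_eq_card_filter_range, hJ]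
      congr 1
      refine filter_congr (fun n _ => ?_)
      unfold Nat.ModEq
      rw [Nat.mod_eq_of_lt hc]
    rw [h1, Nat.count_modEq_card (x + 1) hM0]
    have h2 := Nat.lt_mul_div_succ (x + 1) hM0
    have h3 : ((x + 1 : ℕ) : ℝ) < ((M * ((x + 1) / M + 1) : ℕ) : ℝ) := by exact_mod_cast h2
    push_cast at h3
    have hM0' : (0 : ℝ) < M := by exact_mod_cast hM0
    have h4 : (2 : ℝ) * M ≤ x := by exact_mod_cast hx
    have h5 : (x : ℝ) / (2 * M) ≤ (((x + 1) / M : ℕ) : ℝ) := by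
      rw [div_le_iff₀ (by positivity)]
      nlinarith
    refine h5.trans ?_
    exact_mod_cast Nat.le_add_right _ _
  have hsub : {ω | ε * (x + 1) ≤ |(tup (A ω) D x : ℝ) - ED p D x|} ⊆
      ⋃ c ∈ range M, {ω | ε * (J c).card ≤ |num (J c) (G A D) ω - ∑ a ∈ J c, μ.real (G A D a)|} := by
    intro ω hω
    by_contra hcon
    simp only [Set.mem_iUnion, Set.mem_setOf_eq, not_exists, not_le] at hcon
    have hω' : ε * (x + 1) ≤ |(tup (A ω) D x : ℝ) - ED p D x| := hω
    have e1 : (tup (A ω) D x : ℝ) = ∑ c ∈ range M, num (J c) (G A D) ω := by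
      rw [tup_num]
      unfold num
      rw [hJ]
      exact (sum_fiberwise_of_maps_to hmaps _).symm
    have e2 : ED p D x = ∑ c ∈ range M, ∑ a ∈ J c, μ.real (G A D a) := by
      unfold ED
      rw [hJ]
      rw [sum_fiberwise_of_maps_to hmaps]
      exact sum_congr rfl (fun n _ => (real_G hA D n).symm)
    have e3 : ((x : ℝ) + 1) = ∑ c ∈ range M, ((J c).card : ℝ) := by
      have := card_eq_sum_card_fiberwise (f := fun n => n % M) (s := range (x + 1)) (t := range M) hmaps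
      rw [card_range] at this
      rw [hJ]
      exact_mod_cast this
    rw [e1, e2, ← sum_sub_distrib, e3, mul_sum] at hω'
    have e4 : |∑ c ∈ range M, (num (J c) (G A D) ω - ∑ a ∈ J c, μ.real (G A D a))| ≤
        ∑ c ∈ range M, |num (J c) (G A D) ω - ∑ a ∈ J c, μ.real (G A D a)| := abs_sum_le_sum_abs _ _
    have e5 : ∑ c ∈ range M, |num (J c) (G A D) ω - ∑ a ∈ J c, μ.real (G A D a)| < ∑ c ∈ range M, ε * ((J c).card : ℝ) := by
      refine sum_lt_sum_of_nonempty ⟨0, mem_range.2 hM0⟩ (fun c hc => hcon c hc)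
    linarith
  refine (measureReal_mono hsub (measure_ne_top _ _)).trans ((measureReal_biUnion_finset_le _ _).trans ?_)
  have hone : ∀ c ∈ range M, μ.real {ω | ε * (J c).card ≤ |num (J c) (G A D) ω - ∑ a ∈ J c, μ.real (G A D a)|} ≤
      2 * Real.exp (-(ε ^ 2 / 4 * ((x : ℝ) / (2 * M)))) := by
    intro c hc
    have hm : Mutual μ (J c) (G A D) := by
      rw [hJ]
      exact mutual_G hA hM c x
    refine (dev_two (fun n _ => meas_G hA D n) hm hε hε1).trans ?_
    refine mul_le_mul_of_nonneg_left ?_ (by norm_num)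
    rw [Real.exp_le_exp]
    have := mul_le_mul_of_nonneg_left (hcard c hc) (show 0 ≤ ε ^ 2 / 4 by positivity)
    linarith
  refine (sum_le_sum hone).trans (le_of_eq ?_)
  rw [sum_const, card_range, nsmul_eq_mul]

/-- **Concentration** for all sets of `r` shifts up to a power of `k`. -/
theorem conc_tup (hA : IsModel μ p A) (r B : ℕ) : ∀ᵐ ω ∂μ, ∀ᶠ k : ℕ in atTop, ∀ x : ℕ, 2 ^ k ≤ x → x < 2 ^ (k + 1) →
    ∀ D : Finset ℕ, D ⊆ range (k ^ B + 1) → D.card = r →
      |(tup (A ω) D x : ℝ) - ED p D x| ≤ 3 * ((2 : ℝ) ^ k) ^ ((7 : ℝ) / 8) := by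
  classical
  obtain ⟨J, hJ⟩ : ∃ J : ℕ → Finset (ℕ × Finset ℕ), J = fun k => (Ico (2 ^ k) (2 ^ (k + 1))) ×ˢ (powersetCard r (range (k ^ B + 1))) := ⟨_, rfl⟩
  obtain ⟨Bad, hBad⟩ : ∃ Bad : ℕ → Set Ω, Bad = fun k => ⋃ q ∈ J k, {ω | ((2 : ℝ) ^ k) ^ (-((1 : ℝ) / 8)) * (q.1 + 1) ≤
      |(tup (A ω) q.2 q.1 : ℝ) - ED p q.2 q.1|} := ⟨_, rfl⟩
  have hl2 : 0 < Real.log 2 := Real.log_pos (by norm_num)
  have hbound : ∀ᶠ k : ℕ in atTop, μ.real (Bad k) ≤ (Real.exp (-1)) ^ k := by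
    filter_upwards [ev_two 4 B (show (0 : ℝ) < 1 / (8 * ((r : ℝ) + 1)) by positivity), ev_two 64 1 (show (0 : ℝ) < 5 / 8 by norm_num),
      eventually_ge_atTop 1] with k h1 h2 h3
    have hk1 : (1 : ℝ) ≤ k := by exact_mod_cast h3
    obtain ⟨X, hX⟩ : ∃ X : ℝ, X = 2 ^ k := ⟨_, rfl⟩
    have hX0 : 0 < X := by rw [hX]; positivity
    have hX1 : 1 ≤ X := by rw [hX]; exact one_le_pow₀ (by norm_num)
    rw [← hX] at h1 h2
    have hlX : Real.log X = k * Real.log 2 := by rw [hX, Real.log_pow]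
    obtain ⟨M, hM⟩ : ∃ M, M = k ^ B + 1 := ⟨_, rfl⟩
    have hM0 : 0 < M := by rw [hM]; exact Nat.succ_pos _
    have hM0' : (1 : ℝ) ≤ M := by exact_mod_cast hM0
    have hkB : 1 ≤ (k : ℝ) ^ B := one_le_pow₀ hk1
    have hMX : 2 * (M : ℝ) ≤ X ^ (1 / (8 * ((r : ℝ) + 1))) := by
      refine le_trans ?_ h1
      rw [hM]
      push_cast
      linarith
    have hMr : (M : ℝ) ^ (r + 1) ≤ X ^ ((1 : ℝ) / 8) := by
      have e1 : (M : ℝ) ≤ X ^ (1 / (8 * ((r : ℝ) + 1))) := by linarith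
      calc (M : ℝ) ^ (r + 1) ≤ (X ^ (1 / (8 * ((r : ℝ) + 1)))) ^ (r + 1) := pow_le_pow_left₀ (by positivity) e1 _
        _ = X ^ ((1 : ℝ) / 8) := by
          rw [← Real.rpow_natCast, ← Real.rpow_mul hX0.le]
          congr 1
          push_cast
          field_simp
    have hM8 : 2 * (M : ℝ) ≤ X ^ ((1 : ℝ) / 8) := by
      refine hMX.trans (Real.rpow_le_rpow_of_exponent_le hX1 ?_)
      rw [div_le_div_iff₀ (by positivity) (by norm_num)]
      have : (0 : ℝ) ≤ r := Nat.cast_nonneg r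
      linarith
    have hone : ∀ q ∈ J k, μ.real {ω | X ^ (-((1 : ℝ) / 8)) * (q.1 + 1) ≤ |(tup (A ω) q.2 q.1 : ℝ) - ED p q.2 q.1|} ≤
        M * (2 * Real.exp (-(X ^ ((5 : ℝ) / 8) / 8))) := by
      intro q hq
      obtain ⟨x, D⟩ := q
      rw [hJ] at hq
      simp only [] at hq
      rw [mem_product, mem_Ico, mem_powersetCard, ← hM] at hq
      simp only [] at hq ⊢
      obtain ⟨⟨hx1, hx2⟩, hD1, hD2⟩ := hq
      have hxr : X ≤ x := by
        rw [hX]
        exact_mod_cast hx1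
      have h2M : 2 * M ≤ x := by
        have e1 : 2 * (M : ℝ) ≤ x := by
          refine (hM8.trans ?_).trans hxr
          calc X ^ ((1 : ℝ) / 8) ≤ X ^ (1 : ℝ) := Real.rpow_le_rpow_of_exponent_le hX1 (by norm_num)
            _ = X := Real.rpow_one X
        exact_mod_cast e1
      have e1 : X ^ (-((1 : ℝ) / 8)) ≤ 1 := Real.rpow_le_one_of_one_le_of_nonpos hX1 (by norm_num)
      refine (dev hA hM0 (fun d hd => mem_range.1 (hD1 hd)) h2M (by positivity) e1).trans ?_
      refine mul_le_mul_of_nonneg_left (mul_le_mul_of_nonneg_left ?_ (by norm_num)) (by positivity)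
      rw [Real.exp_le_exp, neg_le_neg_iff]
      have e2 : (X ^ (-((1 : ℝ) / 8))) ^ 2 = X ^ (-((1 : ℝ) / 4)) := by
        rw [← Real.rpow_natCast, ← Real.rpow_mul hX0.le]
        congr 1
        norm_num
      rw [e2]
      have e3 : X ^ ((7 : ℝ) / 8) ≤ (x : ℝ) / (2 * M) := by
        rw [le_div_iff₀ (by positivity)]
        calc X ^ ((7 : ℝ) / 8) * (2 * M) ≤ X ^ ((7 : ℝ) / 8) * X ^ ((1 : ℝ) / 8) := mul_le_mul_of_nonneg_left hM8 (by positivity)
          _ = X := by
            rw [← Real.rpow_add hX0]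
            norm_num
          _ ≤ x := hxr
      have e5 : X ^ ((5 : ℝ) / 8) = X ^ (-((1 : ℝ) / 4)) * X ^ ((7 : ℝ) / 8) := by
        rw [← Real.rpow_add hX0]
        norm_num
      rw [e5]
      have e6 : 0 ≤ X ^ (-((1 : ℝ) / 4)) := by positivity
      have e7 : 0 ≤ X ^ ((7 : ℝ) / 8) := by positivity
      have e8 := mul_le_mul_of_nonneg_left e3 e6
      nlinarith [mul_nonneg e6 e7]
    rw [hBad]
    simp only []
    rw [← hX]
    refine (measureReal_biUnion_finset_le _ _).trans ((sum_le_sum hone).trans ?_)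
    rw [sum_const, nsmul_eq_mul]
    have hcard : ((J k).card : ℝ) ≤ X * (M : ℝ) ^ r := by
      have e1 : (J k).card ≤ 2 ^ k * M ^ r := by
        rw [hJ]
        simp only []
        rw [card_product, Nat.card_Ico, card_powersetCard, card_range, ← hM]
        refine Nat.mul_le_mul ?_ (Nat.choose_le_pow _ _)
        rw [pow_succ]
        omega
      rw [hX]
      exact_mod_cast e1
    have h4 : Real.exp (-(X ^ ((5 : ℝ) / 8) / 8)) ≤ Real.exp (-(8 * k)) := by
      rw [Real.exp_le_exp]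
      rw [pow_one] at h2
      linarith
    have hXe : X ≤ Real.exp k := by
      rw [hX]
      have : (2 : ℝ) ≤ Real.exp 1 := by linarith [Real.exp_one_gt_d9]
      calc (2 : ℝ) ^ k ≤ (Real.exp 1) ^ k := pow_le_pow_left₀ (by norm_num) this k
        _ = Real.exp k := by rw [← Real.exp_nat_mul, mul_one]
    have h8 : X ^ ((1 : ℝ) / 8) ≤ X := by
      calc X ^ ((1 : ℝ) / 8) ≤ X ^ (1 : ℝ) := Real.rpow_le_rpow_of_exponent_le hX1 (by norm_num)
        _ = X := Real.rpow_one X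
    have h9 : (2 : ℝ) ≤ Real.exp k := by
      have := Real.add_one_le_exp (k : ℝ)
      linarith
    calc ((J k).card : ℝ) * (M * (2 * Real.exp (-(X ^ ((5 : ℝ) / 8) / 8))))
        ≤ (X * (M : ℝ) ^ r) * (M * (2 * Real.exp (-(8 * k)))) := by
          refine mul_le_mul hcard ?_ (by positivity) (by positivity)
          exact mul_le_mul_of_nonneg_left (mul_le_mul_of_nonneg_left h4 (by norm_num)) (by positivity)
      _ = X * (M : ℝ) ^ (r + 1) * 2 * Real.exp (-(8 * k)) := by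
        rw [pow_succ]
        ring
      _ ≤ Real.exp k * Real.exp k * Real.exp k * Real.exp (-(8 * k)) := by
        refine mul_le_mul_of_nonneg_right ?_ (Real.exp_pos _).le
        refine mul_le_mul (mul_le_mul hXe ((hMr.trans h8).trans hXe) (by positivity) (by positivity)) h9 (by norm_num) (by positivity)
      _ ≤ (Real.exp (-1)) ^ k := by
        rw [← Real.exp_add, ← Real.exp_add, ← Real.exp_add, ← Real.exp_nat_mul, Real.exp_le_exp]
        linarith
  have hsm : Summable (fun k : ℕ => (Real.exp (-1)) ^ k) := by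
    refine summable_geometric_of_lt_one (Real.exp_pos _).le ?_
    rw [Real.exp_lt_one_iff]
    norm_num
  filter_upwards [bc hsm hbound] with ω hω
  filter_upwards [hω, ev_two 1 0 (show (0 : ℝ) < 7 / 8 by norm_num)] with k hk hk2 x hx1 hx2 D hD1 hD2
  rw [hBad] at hk
  by_contra hcon
  push Not at hcon
  refine hk (Set.mem_biUnion (x := (x, D)) ?_ ?_)
  · rw [hJ]
    exact mem_coe.2 (mem_product.2 ⟨mem_Ico.2 ⟨hx1, hx2⟩, mem_powersetCard.2 ⟨hD1, hD2⟩⟩)
  · show ((2 : ℝ) ^ k) ^ (-((1 : ℝ) / 8)) * (x + 1) ≤ _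
    refine le_trans ?_ hcon.le
    obtain ⟨X, hX⟩ : ∃ X : ℝ, X = 2 ^ k := ⟨_, rfl⟩
    have hX0 : 0 < X := by rw [hX]; positivity
    rw [← hX] at hk2 ⊢
    rw [pow_zero, mul_one] at hk2
    have e1 : (x : ℝ) + 1 ≤ 2 * X := by
      have : x + 1 ≤ 2 * 2 ^ k := by
        rw [pow_succ] at hx2
        omega
      rw [hX]
      exact_mod_cast this
    have e2 : X ^ (-((1 : ℝ) / 8)) * (2 * X) = 2 * X ^ ((7 : ℝ) / 8) := by
      have : X ^ ((7 : ℝ) / 8) = X ^ (-((1 : ℝ) / 8)) * X := by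
        nth_rewrite 3 [← Real.rpow_one X]
        rw [← Real.rpow_add hX0]
        norm_num
      rw [this]
      ring
    have e3 := mul_le_mul_of_nonneg_left e1 (show 0 ≤ X ^ (-((1 : ℝ) / 8)) by positivity)
    rw [e2] at e3
    have e4 : 0 ≤ X ^ ((7 : ℝ) / 8) := by positivity
    linarith

end Pool.Agent.Q120.HL
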