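import Pool.Agent.Q120.HL.H1
import Pool.Agent.H373R2.T7.Crt

/-!
# The expected number of tuples
-/

set_option autoImplicit false

namespace Pool.Agent.Q120.HL

open Finset Filter Topology MeasureTheory Pool.Agent.Q120.GM Pool.Agent.Q120.CL Pool.Agent.Q120.MG

/-- The number of residue classes modulo `p` containing an element of `D`. -/
def nu (D : Finset ℕ) (p : ℕ) : ℕ := (D.image (fun n => n % p)).card

/-- The local factor at `p` of the singular series. -/
noncomputable def loc (D : Finset ℕ) (p : ℕ) : ℝ := (1 - (nu D p : ℝ) / p) / (1 - 1 / (p : ℝ)) ^ D.card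

/-- The part of the singular series at the primes below `z`. -/
noncomputable def Sz (D : Finset ℕ) (z : ℕ) : ℝ := ∏ p ∈ (range z).filter Nat.Prime, loc D p

/-- The density of the `n` avoiding the classes of `D` modulo the primes below `z`. -/
noncomputable def de (D : Finset ℕ) (z : ℕ) : ℝ := ∏ p ∈ (range z).filter Nat.Prime, (1 - (nu D p : ℝ) / p)

theorem image_sub (D : Finset ℕ) {p : ℕ} (hp : 0 < p) : D.image (fun n => n % p) ⊆ range p := by
  intro m hm
  rw [mem_image] at hm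
  obtain ⟨n, _, rfl⟩ := hm
  exact mem_range.2 (Nat.mod_lt _ hp)

theorem nu_le (D : Finset ℕ) {p : ℕ} (hp : 0 < p) : nu D p ≤ p := by
  have := card_le_card (image_sub D hp)
  rw [card_range] at this
  exact this

theorem nu_le_card (D : Finset ℕ) (p : ℕ) : nu D p ≤ D.card := card_image_le

theorem fac_nonneg (D : Finset ℕ) {p : ℕ} (hp : 0 < p) : 0 ≤ 1 - (nu D p : ℝ) / p := by
  have hp0 : (0 : ℝ) < p := by exact_mod_cast hp
  have h1 : (nu D p : ℝ) / p ≤ 1 := by
    rw [div_le_one hp0]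
    exact_mod_cast nu_le D hp
  linarith

theorem de_nonneg (D : Finset ℕ) (z : ℕ) : 0 ≤ de D z := prod_nonneg (fun _ hp => fac_nonneg D (mem_filter.1 hp).2.pos)

theorem de_le_one (D : Finset ℕ) (z : ℕ) : de D z ≤ 1 := by
  refine prod_le_one (fun _ hp => fac_nonneg D (mem_filter.1 hp).2.pos) (fun p hp => ?_)
  have : 0 ≤ (nu D p : ℝ) / p := by positivity
  linarith

theorem Sz_eq (D : Finset ℕ) (z : ℕ) : Sz D z = de D z / Vf z ^ D.card := by
  unfold Sz de Vf loc
  rw [prod_div_distrib, prod_pow]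

theorem Sz_nonneg (D : Finset ℕ) (z : ℕ) : 0 ≤ Sz D z := by
  rw [Sz_eq]
  exact div_nonneg (de_nonneg D z) (pow_nonneg (Vf_pos z).le _)

/-- `n` avoids the classes of `D` modulo the primes below `z`. -/
def Av (z : ℕ) (D : Finset ℕ) (n : ℕ) : Prop := ∀ p ∈ (range z).filter Nat.Prime, n % p ∉ D.image (fun m => m % p)

open Classical in
/-- The number of such `n` in `[a, a + t)`. -/
noncomputable def NA (z : ℕ) (D : Finset ℕ) (a t : ℕ) : ℕ := ((Ico a (a + t)).filter (Av z D)).card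

theorem NA_add (z : ℕ) (D : Finset ℕ) (a s t : ℕ) : NA z D a (s + t) = NA z D a s + NA z D (a + s) t := by
  classical
  unfold NA
  rw [← card_union_of_disjoint]
  · congr 1
    rw [← filter_union]
    congr 1
    ext n
    simp only [mem_union, mem_Ico]
    omega
  · rw [Finset.disjoint_left]
    intro n hn hn'
    rw [mem_filter, mem_Ico] at hn hn'
    omega

theorem NA_mono (z : ℕ) (D : Finset ℕ) (a : ℕ) {s t : ℕ} (h : s ≤ t) : NA z D a s ≤ NA z D a t := by
  obtain ⟨r, rfl⟩ := Nat.exists_eq_add_of_le h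
  rw [NA_add]
  omega

theorem NA_period (z : ℕ) (D : Finset ℕ) (a : ℕ) : (NA z D a (PQ z) : ℝ) = de D z * PQ z := by
  classical
  have hper : Function.Periodic (Av z D) (PQ z) := by
    intro n
    unfold Av
    rw [eq_iff_iff]
    refine forall_congr' (fun p => forall_congr' (fun hp => ?_))
    have h1 : p ∣ PQ z := dvd_prod_of_mem _ hp
    obtain ⟨c, hc⟩ := h1
    rw [hc, Nat.add_mul_mod_self_left]
  unfold NA
  rw [Nat.filter_Ico_card_eq_of_periodic a (PQ z) (Av z D) hper, Nat.count_eq_card_filter_range]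
  have h2 := Pool.Agent.H373R2.T7.crt_card (fun p a => a ∉ D.image (fun m => m % p)) ((range z).filter Nat.Prime)
    (fun p hp => (mem_filter.1 hp).2)
  have h3 : ((range (PQ z)).filter (Av z D)).card =
      ((range (∏ p ∈ (range z).filter Nat.Prime, p)).filter (fun n => ∀ p ∈ (range z).filter Nat.Prime,
        n % p ∉ D.image (fun m => m % p))).card := by
    congr 1
    refine filter_congr (fun n _ => ?_)
    unfold Av
    rfl
  rw [h3, h2]
  push_cast
  unfold de PQ
  push_cast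
  rw [← prod_mul_distrib]
  refine prod_congr rfl (fun p hp => ?_)
  have hp0 := (mem_filter.1 hp).2.pos
  have hp0' : (0 : ℝ) < p := by exact_mod_cast hp0
  have h4 : ((range p).filter (fun a => a ∉ D.image (fun m => m % p))).card = p - nu D p := by
    rw [← sdiff_eq_filter, card_sdiff_of_subset (image_sub D hp0), card_range]
    rfl
  rw [h4, Nat.cast_sub (nu_le D hp0)]
  field_simp

theorem NA_near (z : ℕ) (D : Finset ℕ) (a t : ℕ) : |(NA z D a t : ℝ) - de D z * t| ≤ PQ z := by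
  have hP := PQ_pos z
  have hP0 : (0 : ℝ) < PQ z := by exact_mod_cast hP
  have hmul : ∀ q : ℕ, (NA z D a (PQ z * q) : ℝ) = de D z * (PQ z * q) := by
    intro q
    induction q with
    | zero =>
      unfold NA
      simp
    | succ q ih =>
      rw [mul_add, mul_one, NA_add]
      push_cast
      rw [ih, NA_period]
      ring
  have h1 : PQ z * (t / PQ z) ≤ t := Nat.mul_div_le t (PQ z)
  have h2 : t < PQ z * (t / PQ z + 1) := Nat.lt_mul_div_succ t hP
  have h3 : (NA z D a (PQ z * (t / PQ z)) : ℝ) ≤ NA z D a t := by exact_mod_cast NA_mono z D a h1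
  have h4 : (NA z D a t : ℝ) ≤ NA z D a (PQ z * (t / PQ z + 1)) := by exact_mod_cast NA_mono z D a h2.le
  rw [hmul] at h3 h4
  have h5 : (t : ℝ) < PQ z * ((t / PQ z : ℕ) + 1 : ℝ) := by exact_mod_cast h2
  have h6 : (PQ z : ℝ) * ((t / PQ z : ℕ) : ℝ) ≤ t := by exact_mod_cast h1
  have hd := de_nonneg D z
  have hd1 := de_le_one D z
  push_cast at h4
  rw [abs_le]
  constructor
  · nlinarith
  · nlinarith

/-- The probability of a tuple in the block `j`. -/
theorem pt_block {z : ℕ → ℕ} {D : Finset ℕ} {H j n : ℕ} (hj : 1 ≤ j) (hq : 1 ≤ Vf (z j) * (j * Real.log 2)) (hD : ∀ d ∈ D, d ≤ H)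
    (h1 : 2 ^ j + H ≤ n) (h2 : n < 2 ^ (j + 1)) :
    (Av (z j) D n → (1 / (Vf (z j) * (((j : ℝ) + 1) * Real.log 2))) ^ D.card ≤ pt (pr z) D n ∧
      pt (pr z) D n ≤ (1 / (Vf (z j) * (j * Real.log 2))) ^ D.card) ∧ (¬ Av (z j) D n → pt (pr z) D n = 0) := by
  classical
  have hle : ∀ d ∈ D, d ≤ n := fun d hd => by
    have := hD d hd
    omega
  have hV := Vf_pos (z j)
  have hl2 : 0 < Real.log 2 := Real.log_pos (by norm_num)
  have hj0 : (0 : ℝ) < j := by exact_mod_cast hj
  have hin : ∀ d ∈ D, 2 ^ j ≤ n - d ∧ n - d < 2 ^ (j + 1) := fun d hd => by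
    have := hD d hd
    omega
  have hrough : ∀ d ∈ D, ∀ p : ℕ, (p ∣ n - d ↔ n % p = d % p) := by
    intro d hd p
    have h3 := Nat.modEq_iff_dvd' (n := p) (hle d hd)
    rw [← h3]
    constructor
    · intro h
      exact h.symm
    · intro h
      exact Eq.symm h
  unfold pt
  rw [if_pos hle]
  constructor
  · intro hav
    have hr : ∀ d ∈ D, Rough (z j) (n - d) := by
      intro d hd p hp hpz hdvd
      rw [hrough d hd] at hdvd
      refine hav p (mem_filter.2 ⟨mem_range.2 hpz, hp⟩) ?_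
      rw [hdvd]
      exact mem_image_of_mem _ hd
    constructor
    · rw [← prod_const]
      exact prod_le_prod (fun _ _ => by positivity) (fun d hd => le_pr hj hq (hin d hd).1 (hin d hd).2 (hr d hd))
    · rw [← prod_const]
      exact prod_le_prod (fun _ _ => pr_nonneg z _) (fun d hd => pr_le hj (hin d hd).1 (hin d hd).2)
  · intro hav
    unfold Av at hav
    push Not at hav
    obtain ⟨p, hp, hpm⟩ := hav
    rw [mem_image] at hpm
    obtain ⟨d, hd, hdm⟩ := hpm
    rw [mem_filter, mem_range] at hp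
    refine prod_eq_zero hd (pr_zero (hin d hd).1 (hin d hd).2 ?_)
    intro hr
    exact hr p hp.2 hp.1 ((hrough d hd p).2 hdm.symm)

/-- The sum over a part of the block `j`. -/
theorem block_sum {z : ℕ → ℕ} {D : Finset ℕ} {H j u t : ℕ} (hj : 1 ≤ j) (hq : 1 ≤ Vf (z j) * (j * Real.log 2)) (hD : ∀ d ∈ D, d ≤ H)
    (h1 : 2 ^ j + H ≤ u) (h2 : u + t ≤ 2 ^ (j + 1)) :
    ∑ n ∈ Ico u (u + t), pt (pr z) D n ≤ (Sz D (z j) * t + PQ (z j) / Vf (z j) ^ D.card) / (j * Real.log 2) ^ D.card ∧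
    (Sz D (z j) * t - PQ (z j) / Vf (z j) ^ D.card) / (((j : ℝ) + 1) * Real.log 2) ^ D.card ≤ ∑ n ∈ Ico u (u + t), pt (pr z) D n := by
  classical
  have hV := Vf_pos (z j)
  have hl2 : 0 < Real.log 2 := Real.log_pos (by norm_num)
  have hj0 : (0 : ℝ) < j := by exact_mod_cast hj
  have hnear := abs_le.1 (NA_near (z j) D u t)
  have hb : ∀ n ∈ Ico u (u + t), (Av (z j) D n → (1 / (Vf (z j) * (((j : ℝ) + 1) * Real.log 2))) ^ D.card ≤ pt (pr z) D n ∧
      pt (pr z) D n ≤ (1 / (Vf (z j) * (j * Real.log 2))) ^ D.card) ∧ (¬ Av (z j) D n → pt (pr z) D n = 0) := by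
    intro n hn
    rw [mem_Ico] at hn
    exact pt_block hj hq hD (by omega) (by omega)
  constructor
  · have e1 : ∑ n ∈ Ico u (u + t), pt (pr z) D n ≤ ∑ n ∈ Ico u (u + t), (if Av (z j) D n then (1 / (Vf (z j) * (j * Real.log 2))) ^ D.card else 0) := by
      refine sum_le_sum (fun n hn => ?_)
      split_ifs with h
      · exact ((hb n hn).1 h).2
      · exact ((hb n hn).2 h).le
    refine e1.trans ?_
    rw [← sum_filter, sum_const, nsmul_eq_mul]
    have e2 : (((Ico u (u + t)).filter (Av (z j) D)).card : ℝ) = NA (z j) D u t := rfl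
    rw [e2, Sz_eq]
    have e3 : (de D (z j) / Vf (z j) ^ D.card * t + PQ (z j) / Vf (z j) ^ D.card) / (j * Real.log 2) ^ D.card =
        (de D (z j) * t + PQ (z j)) * (1 / (Vf (z j) * (j * Real.log 2))) ^ D.card := by
      rw [div_pow, one_pow, mul_pow]
      field_simp
      simp only [mul_pow]
      ring
    rw [e3]
    exact mul_le_mul_of_nonneg_right (by linarith [hnear.2]) (by positivity)
  · have e1 : ∑ n ∈ Ico u (u + t), (if Av (z j) D n then (1 / (Vf (z j) * (((j : ℝ) + 1) * Real.log 2))) ^ D.card else 0) ≤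
        ∑ n ∈ Ico u (u + t), pt (pr z) D n := by
      refine sum_le_sum (fun n hn => ?_)
      split_ifs with h
      · exact ((hb n hn).1 h).1
      · exact ((hb n hn).2 h).ge
    refine le_trans ?_ e1
    rw [← sum_filter, sum_const, nsmul_eq_mul]
    have e2 : (((Ico u (u + t)).filter (Av (z j) D)).card : ℝ) = NA (z j) D u t := rfl
    rw [e2, Sz_eq]
    have e3 : (de D (z j) / Vf (z j) ^ D.card * t - PQ (z j) / Vf (z j) ^ D.card) / (((j : ℝ) + 1) * Real.log 2) ^ D.card =
        (de D (z j) * t - PQ (z j)) * (1 / (Vf (z j) * (((j : ℝ) + 1) * Real.log 2))) ^ D.card := by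
      rw [div_pow, one_pow, mul_pow]
      field_simp
      simp only [mul_pow]
      ring
    rw [e3]
    exact mul_le_mul_of_nonneg_right (by linarith [hnear.1]) (by positivity)

theorem pt_nonneg (z : ℕ → ℕ) (D : Finset ℕ) (n : ℕ) : 0 ≤ pt (pr z) D n := by
  unfold pt
  split_ifs
  · exact prod_nonneg (fun d _ => pr_nonneg z _)
  · exact le_rfl

theorem pt_le_one (z : ℕ → ℕ) (D : Finset ℕ) (n : ℕ) : pt (pr z) D n ≤ 1 := by
  unfold pt
  split_ifs
  · exact prod_le_one (fun d _ => pr_nonneg z _) (fun d _ => pr_le_one z _)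
  · exact zero_le_one

/-- The sum over the initial part of the block. -/
theorem part_sum {z : ℕ → ℕ} {D : Finset ℕ} {H j t : ℕ} (hj : 1 ≤ j) (hq : 1 ≤ Vf (z j) * (j * Real.log 2)) (hD : ∀ d ∈ D, d ≤ H)
    (h2 : t ≤ 2 ^ j) {σ E : ℝ} (hσ : 0 ≤ σ) (hE : PQ (z j) / Vf (z j) ^ D.card ≤ E) :
    (Sz D (z j) ≤ σ → ∑ n ∈ Ico (2 ^ j) (2 ^ j + t), pt (pr z) D n ≤ (σ * t + E) / (j * Real.log 2) ^ D.card + H) ∧
    (σ ≤ Sz D (z j) → (σ * t - E) / (((j : ℝ) + 1) * Real.log 2) ^ D.card - σ * H / (((j : ℝ) + 1) * Real.log 2) ^ D.card ≤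
      ∑ n ∈ Ico (2 ^ j) (2 ^ j + t), pt (pr z) D n) := by
  have hV := Vf_pos (z j)
  have hl2 : 0 < Real.log 2 := Real.log_pos (by norm_num)
  have hj0 : (0 : ℝ) < j := by exact_mod_cast hj
  have hE0 : 0 ≤ E := le_trans (by positivity) hE
  rcases Nat.lt_or_ge t H with hc | hc
  · have hcr : (t : ℝ) ≤ H := by exact_mod_cast hc.le
    constructor
    · intro _
      have e1 : ∑ n ∈ Ico (2 ^ j) (2 ^ j + t), pt (pr z) D n ≤ ∑ n ∈ Ico (2 ^ j) (2 ^ j + t), (1 : ℝ) :=
        sum_le_sum (fun n _ => pt_le_one z D n)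
      rw [sum_const, Nat.card_Ico, Nat.add_sub_cancel_left, nsmul_eq_mul, mul_one] at e1
      have e2 : 0 ≤ (σ * t + E) / (j * Real.log 2) ^ D.card := by positivity
      linarith
    · intro _
      have e1 : 0 ≤ ∑ n ∈ Ico (2 ^ j) (2 ^ j + t), pt (pr z) D n := sum_nonneg (fun n _ => pt_nonneg z D n)
      rw [← sub_div]
      refine le_trans ?_ e1
      refine div_nonpos_of_nonpos_of_nonneg ?_ (by positivity)
      have := mul_le_mul_of_nonneg_left hcr hσ
      linarith
  · obtain ⟨s, rfl⟩ := Nat.exists_eq_add_of_le hc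
    have hsplit : ∑ n ∈ Ico (2 ^ j) (2 ^ j + (H + s)), pt (pr z) D n =
        ∑ n ∈ Ico (2 ^ j) (2 ^ j + H), pt (pr z) D n + ∑ n ∈ Ico (2 ^ j + H) (2 ^ j + H + s), pt (pr z) D n := by
      rw [← sum_Ico_consecutive _ (show 2 ^ j ≤ 2 ^ j + H by omega) (show 2 ^ j + H ≤ 2 ^ j + (H + s) by omega), add_assoc]
    have hb := block_sum (u := 2 ^ j + H) (t := s) hj hq hD le_rfl (by rw [pow_succ]; omega)
    rw [hsplit]
    push_cast
    constructor
    · intro hS
      have e1 : ∑ n ∈ Ico (2 ^ j) (2 ^ j + H), pt (pr z) D n ≤ ∑ n ∈ Ico (2 ^ j) (2 ^ j + H), (1 : ℝ) :=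
        sum_le_sum (fun n _ => pt_le_one z D n)
      rw [sum_const, Nat.card_Ico, Nat.add_sub_cancel_left, nsmul_eq_mul, mul_one] at e1
      have e2 : (Sz D (z j) * s + PQ (z j) / Vf (z j) ^ D.card) / (j * Real.log 2) ^ D.card ≤
          (σ * (H + s) + E) / (j * Real.log 2) ^ D.card := by
        refine div_le_div_of_nonneg_right ?_ (by positivity)
        have f1 : Sz D (z j) * s ≤ σ * s := mul_le_mul_of_nonneg_right hS (Nat.cast_nonneg s)
        have f2 : 0 ≤ σ * H := by positivity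
        linarith
      linarith [hb.1]
    · intro hS
      have e1 : 0 ≤ ∑ n ∈ Ico (2 ^ j) (2 ^ j + H), pt (pr z) D n := sum_nonneg (fun n _ => pt_nonneg z D n)
      have e2 : (σ * (H + s) - E) / (((j : ℝ) + 1) * Real.log 2) ^ D.card - σ * H / (((j : ℝ) + 1) * Real.log 2) ^ D.card ≤
          (Sz D (z j) * s - PQ (z j) / Vf (z j) ^ D.card) / (((j : ℝ) + 1) * Real.log 2) ^ D.card := by
        rw [← sub_div]
        refine div_le_div_of_nonneg_right ?_ (by positivity)
        have f1 : σ * s ≤ Sz D (z j) * s := mul_le_mul_of_nonneg_right hS (Nat.cast_nonneg s)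
        linarith
      linarith [hb.2]

end Pool.Agent.Q120.HL
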