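import Pool.Agent.Q120.HL.H2

/-!
# The expected number of tuples up to `x`
-/

set_option autoImplicit false

namespace Pool.Agent.Q120.HL

open Finset Filter Topology MeasureTheory Pool.Agent.Q120.GM Pool.Agent.Q120.CL Pool.Agent.Q120.MG

/-- The sum over the numbers below `2 ^ j`. -/
noncomputable def PP (z : ℕ → ℕ) (D : Finset ℕ) (j : ℕ) : ℝ := ∑ n ∈ range (2 ^ j), pt (pr z) D n

theorem PP_nonneg (z : ℕ → ℕ) (D : Finset ℕ) (j : ℕ) : 0 ≤ PP z D j := sum_nonneg (fun n _ => pt_nonneg z D n)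

theorem PP_le (z : ℕ → ℕ) (D : Finset ℕ) (j : ℕ) : PP z D j ≤ 2 ^ j := by
  unfold PP
  refine (sum_le_sum (g := fun _ => (1 : ℝ)) (fun n _ => pt_le_one z D n)).trans ?_
  rw [sum_const, card_range, nsmul_eq_mul, mul_one]
  push_cast
  exact le_rfl

theorem PP_succ (z : ℕ → ℕ) (D : Finset ℕ) (j : ℕ) : PP z D (j + 1) = PP z D j + ∑ n ∈ Ico (2 ^ j) (2 ^ j + 2 ^ j), pt (pr z) D n := by
  unfold PP
  rw [← two_mul, ← pow_succ', range_eq_Ico, range_eq_Ico]
  exact (sum_Ico_consecutive _ (Nat.zero_le _) (Nat.pow_le_pow_right (by norm_num) (by omega))).symm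

theorem ED_eq (z : ℕ → ℕ) (D : Finset ℕ) {k x : ℕ} (h : 2 ^ k ≤ x) :
    ED (pr z) D x = PP z D k + ∑ n ∈ Ico (2 ^ k) (2 ^ k + (x + 1 - 2 ^ k)), pt (pr z) D n := by
  unfold ED PP
  have h1 : 2 ^ k + (x + 1 - 2 ^ k) = x + 1 := by omega
  rw [h1, range_eq_Ico, range_eq_Ico]
  exact (sum_Ico_consecutive _ (Nat.zero_le _) (by omega)).symm

theorem up {z : ℕ → ℕ} {D : Finset ℕ} {H a : ℕ} (ha : 2 ≤ a) (hD : ∀ d ∈ D, d ≤ H) {σ E : ℝ} (hσ : 0 ≤ σ) (hE0 : 0 ≤ E) (b : ℕ)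
    (hab : a ≤ b) (hq : ∀ j, a ≤ j → j < b → 1 ≤ Vf (z j) * (j * Real.log 2))
    (hE : ∀ j, a ≤ j → j < b → PQ (z j) / Vf (z j) ^ D.card ≤ E) (hS : ∀ j, a ≤ j → j < b → Sz D (z j) ≤ σ) :
    PP z D b ≤ 2 ^ a + σ * (2 ^ b - 2 ^ a) / (a * Real.log 2) ^ D.card + ((b : ℝ) - a) * (E + H) := by
  have hl2 := Real.log_two_gt_d9
  have ha2 : (2 : ℝ) ≤ a := by exact_mod_cast ha
  have hal : 1 ≤ (a : ℝ) * Real.log 2 := by nlinarith
  induction b, hab using Nat.le_induction with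
  | base =>
    have := PP_le z D a
    simp only [sub_self, mul_zero, zero_div, zero_mul, add_zero]
    exact this
  | succ b hab ih =>
    have h1 := ih (fun j hj hjb => hq j hj (by omega)) (fun j hj hjb => hE j hj (by omega)) (fun j hj hjb => hS j hj (by omega))
    have h2 := (part_sum (t := 2 ^ b) (by omega) (hq b hab (by omega)) hD le_rfl hσ (hE b hab (by omega))).1 (hS b hab (by omega))
    rw [PP_succ]
    have hba : (a : ℝ) ≤ b := by exact_mod_cast hab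
    have h3 : (a : ℝ) * Real.log 2 ≤ b * Real.log 2 := mul_le_mul_of_nonneg_right hba (by linarith)
    have h4 : ((a : ℝ) * Real.log 2) ^ D.card ≤ (b * Real.log 2) ^ D.card := pow_le_pow_left₀ (by linarith) h3 _
    have h5 : 1 ≤ ((a : ℝ) * Real.log 2) ^ D.card := one_le_pow₀ hal
    have h6 : (σ * ((2 ^ b : ℕ) : ℝ) + E) / (b * Real.log 2) ^ D.card ≤ σ * 2 ^ b / (a * Real.log 2) ^ D.card + E := by
      rw [add_div]
      push_cast
      refine add_le_add ?_ (div_le_self hE0 (h5.trans h4))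
      exact div_le_div_of_nonneg_left (by positivity) (by linarith) h4
    have h7 : σ * (2 ^ (b + 1) - 2 ^ a) / (a * Real.log 2) ^ D.card =
        σ * (2 ^ b - 2 ^ a) / (a * Real.log 2) ^ D.card + σ * 2 ^ b / (a * Real.log 2) ^ D.card := by
      rw [pow_succ, ← add_div]
      congr 1
      ring
    rw [h7]
    push_cast
    linarith

theorem lo {z : ℕ → ℕ} {D : Finset ℕ} {H a : ℕ} (ha : 2 ≤ a) (hD : ∀ d ∈ D, d ≤ H) {σ E : ℝ} (hσ : 0 ≤ σ) (hE0 : 0 ≤ E) (b c : ℕ)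
    (hab : a ≤ b) (hbc : b ≤ c) (hq : ∀ j, a ≤ j → j < b → 1 ≤ Vf (z j) * (j * Real.log 2))
    (hE : ∀ j, a ≤ j → j < b → PQ (z j) / Vf (z j) ^ D.card ≤ E) (hS : ∀ j, a ≤ j → j < b → σ ≤ Sz D (z j)) :
    σ * (2 ^ b - 2 ^ a) / (c * Real.log 2) ^ D.card - ((b : ℝ) - a) * (E + σ * H) ≤ PP z D b := by
  have hl2 := Real.log_two_gt_d9
  have ha2 : (2 : ℝ) ≤ a := by exact_mod_cast ha
  induction b, hab using Nat.le_induction with
  | base =>
    have := PP_nonneg z D a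
    simp only [sub_self, mul_zero, zero_div, zero_mul]
    exact this
  | succ b hab ih =>
    have h1 := ih (by omega) (fun j hj hjb => hq j hj (by omega)) (fun j hj hjb => hE j hj (by omega)) (fun j hj hjb => hS j hj (by omega))
    have h2 := (part_sum (t := 2 ^ b) (by omega) (hq b hab (by omega)) hD le_rfl hσ (hE b hab (by omega))).2 (hS b hab (by omega))
    rw [PP_succ]
    have hba : (a : ℝ) ≤ b := by exact_mod_cast hab
    have hbc' : (b : ℝ) + 1 ≤ c := by exact_mod_cast hbc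
    have hbl : 1 ≤ ((b : ℝ) + 1) * Real.log 2 := by nlinarith
    have h3 : ((b : ℝ) + 1) * Real.log 2 ≤ c * Real.log 2 := mul_le_mul_of_nonneg_right hbc' (by linarith)
    have h4 : (((b : ℝ) + 1) * Real.log 2) ^ D.card ≤ (c * Real.log 2) ^ D.card := pow_le_pow_left₀ (by linarith) h3 _
    have h5 : 1 ≤ (((b : ℝ) + 1) * Real.log 2) ^ D.card := one_le_pow₀ hbl
    have h6 : σ * 2 ^ b / (c * Real.log 2) ^ D.card - E - σ * H ≤ (σ * ((2 ^ b : ℕ) : ℝ) - E) / (((b : ℝ) + 1) * Real.log 2) ^ D.card -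
        σ * H / (((b : ℝ) + 1) * Real.log 2) ^ D.card := by
      rw [sub_div]
      push_cast
      have e1 : E / (((b : ℝ) + 1) * Real.log 2) ^ D.card ≤ E := div_le_self hE0 h5
      have e2 : σ * H / (((b : ℝ) + 1) * Real.log 2) ^ D.card ≤ σ * H := div_le_self (by positivity) h5
      have e3 : σ * 2 ^ b / (c * Real.log 2) ^ D.card ≤ σ * 2 ^ b / (((b : ℝ) + 1) * Real.log 2) ^ D.card :=
        div_le_div_of_nonneg_left (by positivity) (by linarith) h4
      linarith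
    have h7 : σ * (2 ^ (b + 1) - 2 ^ a) / (c * Real.log 2) ^ D.card =
        σ * (2 ^ b - 2 ^ a) / (c * Real.log 2) ^ D.card + σ * 2 ^ b / (c * Real.log 2) ^ D.card := by
      rw [pow_succ, ← add_div]
      congr 1
      ring
    rw [h7]
    push_cast
    linarith

/-- The bounds for the sum up to `x`. -/
theorem ED_bounds {z : ℕ → ℕ} {D : Finset ℕ} {H a k n : ℕ} (ha : 2 ≤ a) (hak : a ≤ k) (hD : ∀ d ∈ D, d ≤ H) {σ E : ℝ} (hσ : 0 ≤ σ)
    (hE0 : 0 ≤ E) (hn1 : 2 ^ k ≤ n) (hn2 : n < 2 ^ (k + 1)) (hq : ∀ j, a ≤ j → j ≤ k → 1 ≤ Vf (z j) * (j * Real.log 2))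
    (hE : ∀ j, a ≤ j → j ≤ k → PQ (z j) / Vf (z j) ^ D.card ≤ E) :
    ((∀ j, a ≤ j → j ≤ k → Sz D (z j) ≤ σ) →
      ED (pr z) D n ≤ 2 ^ a + σ * (n + 1) / (a * Real.log 2) ^ D.card + ((k : ℝ) - a + 1) * (E + H)) ∧
    ((∀ j, a ≤ j → j ≤ k → σ ≤ Sz D (z j)) →
      σ * (n + 1 - 2 ^ a) / (((k : ℝ) + 1) * Real.log 2) ^ D.card - ((k : ℝ) - a + 1) * (E + σ * H) ≤ ED (pr z) D n) := by
  have hl2 := Real.log_two_gt_d9
  have ha2 : (2 : ℝ) ≤ a := by exact_mod_cast ha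
  have hal : 1 ≤ (a : ℝ) * Real.log 2 := by nlinarith
  have hka : (a : ℝ) ≤ k := by exact_mod_cast hak
  have ht : n + 1 - 2 ^ k ≤ 2 ^ k := by
    rw [pow_succ] at hn2
    omega
  have htr : ((n + 1 - 2 ^ k : ℕ) : ℝ) = (n : ℝ) + 1 - 2 ^ k := by
    rw [Nat.cast_sub (by omega)]
    push_cast
    ring
  rw [ED_eq z D hn1]
  constructor
  · intro hS
    have h1 := up ha hD hσ hE0 k hak (fun j hj hjk => hq j hj hjk.le) (fun j hj hjk => hE j hj hjk.le) (fun j hj hjk => hS j hj hjk.le)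
    have h2 := (part_sum (by omega) (hq k hak le_rfl) hD ht hσ (hE k hak le_rfl)).1 (hS k hak le_rfl)
    rw [htr] at h2
    have h3 : (a : ℝ) * Real.log 2 ≤ k * Real.log 2 := mul_le_mul_of_nonneg_right hka (by linarith)
    have h4 : ((a : ℝ) * Real.log 2) ^ D.card ≤ (k * Real.log 2) ^ D.card := pow_le_pow_left₀ (by linarith) h3 _
    have h5 : 1 ≤ ((a : ℝ) * Real.log 2) ^ D.card := one_le_pow₀ hal
    have ht0 : 0 ≤ (n : ℝ) + 1 - 2 ^ k := by rw [← htr]; positivity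
    have h6 : (σ * ((n : ℝ) + 1 - 2 ^ k) + E) / (k * Real.log 2) ^ D.card ≤ σ * ((n : ℝ) + 1 - 2 ^ k) / (a * Real.log 2) ^ D.card + E := by
      rw [add_div]
      refine add_le_add ?_ (div_le_self hE0 (h5.trans h4))
      exact div_le_div_of_nonneg_left (mul_nonneg hσ ht0) (by linarith) h4
    have h7 : σ * (2 ^ k - 2 ^ a) / (a * Real.log 2) ^ D.card + σ * ((n : ℝ) + 1 - 2 ^ k) / (a * Real.log 2) ^ D.card ≤
        σ * (n + 1) / (a * Real.log 2) ^ D.card := by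
      rw [← add_div]
      refine div_le_div_of_nonneg_right ?_ (by linarith)
      have : 0 ≤ σ * 2 ^ a := by positivity
      linarith
    linarith
  · intro hS
    have h1 := lo ha hD hσ hE0 k (k + 1) hak (by omega) (fun j hj hjk => hq j hj hjk.le) (fun j hj hjk => hE j hj hjk.le)
      (fun j hj hjk => hS j hj hjk.le)
    have h2 := (part_sum (by omega) (hq k hak le_rfl) hD ht hσ (hE k hak le_rfl)).2 (hS k hak le_rfl)
    rw [htr] at h2
    push_cast at h1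
    have hkl : 1 ≤ ((k : ℝ) + 1) * Real.log 2 := by nlinarith
    have h5 : 1 ≤ (((k : ℝ) + 1) * Real.log 2) ^ D.card := one_le_pow₀ hkl
    have e1 : E / (((k : ℝ) + 1) * Real.log 2) ^ D.card ≤ E := div_le_self hE0 h5
    have e2 : σ * H / (((k : ℝ) + 1) * Real.log 2) ^ D.card ≤ σ * H := div_le_self (by positivity) h5
    rw [sub_div] at h2
    have h7 : σ * (2 ^ k - 2 ^ a) / (((k : ℝ) + 1) * Real.log 2) ^ D.card +
        σ * ((n : ℝ) + 1 - 2 ^ k) / (((k : ℝ) + 1) * Real.log 2) ^ D.card =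
        σ * (n + 1 - 2 ^ a) / (((k : ℝ) + 1) * Real.log 2) ^ D.card := by
      rw [← add_div]
      congr 1
      ring
    rw [← h7]
    linarith

/-- The number of the blocks that matter. -/
def mm (r k : ℕ) : ℕ := (r + 2) * (Nat.log 2 k + 1)

theorem two_mm (r : ℕ) {k : ℕ} : (k : ℝ) ^ (r + 2) ≤ 2 ^ mm r k := by
  have h1 : k < 2 ^ (Nat.log 2 k + 1) := Nat.lt_pow_succ_log_self (by norm_num) k
  have h2 : (k : ℝ) ≤ 2 ^ (Nat.log 2 k + 1) := by exact_mod_cast h1.le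
  calc (k : ℝ) ^ (r + 2) ≤ (2 ^ (Nat.log 2 k + 1)) ^ (r + 2) := pow_le_pow_left₀ (Nat.cast_nonneg _) h2 _
    _ = 2 ^ mm r k := by
      rw [← pow_mul]
      congr 1
      unfold mm
      ring

theorem mm_small (r : ℕ) {ε c : ℝ} (hε : 0 < ε) (hc : 0 < c) : ∀ᶠ k : ℕ in atTop, (mm r k : ℝ) + 1 ≤ c * (k : ℝ) ^ ε := by
  have h1 := (isLittleO_log_rpow_atTop hε).bound (show 0 < c * Real.log 2 / (2 * ((r : ℝ) + 2)) by
    have := Real.log_two_gt_d9
    positivity)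
  have h2 : Tendsto (fun k : ℕ => (k : ℝ) ^ ε) atTop atTop := (tendsto_rpow_atTop hε).comp hcast
  filter_upwards [hcast.eventually h1, h2.eventually_ge_atTop (2 * ((r : ℝ) + 3) / c), eventually_ge_atTop 1] with k h3 h4 h5
  have hl2 : 0 < Real.log 2 := Real.log_pos (by norm_num)
  have hk1 : (1 : ℝ) ≤ k := by exact_mod_cast h5
  rw [Real.norm_of_nonneg (Real.log_nonneg hk1), Real.norm_of_nonneg (by positivity)] at h3
  have h6 : ((Nat.log 2 k : ℕ) : ℝ) * Real.log 2 ≤ Real.log k := by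
    have e1 : 2 ^ Nat.log 2 k ≤ k := Nat.pow_log_le_self 2 (by omega)
    have e2 : (2 : ℝ) ^ Nat.log 2 k ≤ k := by exact_mod_cast e1
    have := Real.log_le_log (by positivity) e2
    rw [Real.log_pow] at this
    exact this
  have h7 : ((r : ℝ) + 2) * (Nat.log 2 k : ℕ) ≤ c / 2 * (k : ℝ) ^ ε := by
    have e1 : ((r : ℝ) + 2) * ((Nat.log 2 k : ℕ) : ℝ) * Real.log 2 ≤ ((r : ℝ) + 2) * (c * Real.log 2 / (2 * ((r : ℝ) + 2)) * (k : ℝ) ^ ε) := by
      rw [mul_assoc]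
      exact mul_le_mul_of_nonneg_left (h6.trans h3) (by positivity)
    have e2 : ((r : ℝ) + 2) * (c * Real.log 2 / (2 * ((r : ℝ) + 2)) * (k : ℝ) ^ ε) = c / 2 * (k : ℝ) ^ ε * Real.log 2 := by field_simp
    rw [e2] at e1
    exact le_of_mul_le_mul_right e1 hl2
  rw [div_le_iff₀ hc] at h4
  unfold mm
  push_cast
  linarith

/-- **The expected number of tuples**, uniformly in the sets of shifts. -/
theorem ED_asym (r B : ℕ) {z : ℕ → ℕ} (hz : ∀ᶠ k : ℕ in atTop, 8 * z k ≤ k) : ∀ᶠ k : ℕ in atTop, ∀ x : ℝ, 2 ^ k ≤ ⌊x⌋₊ →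
    ⌊x⌋₊ < 2 ^ (k + 1) → ∀ D : Finset ℕ, D ⊆ range (k ^ B + 1) → D.card = r → ∀ σ : ℝ, 0 ≤ σ →
      ((∀ j, k - mm r k ≤ j → j ≤ k → Sz D (z j) ≤ σ) →
        ED (pr z) D ⌊x⌋₊ ≤ (σ * (1 + (k : ℝ) ^ (-((1 : ℝ) / 2))) + (k : ℝ) ^ (-((1 : ℝ) / 2))) * (x / Real.log x ^ r)) ∧
      ((∀ j, k - mm r k ≤ j → j ≤ k → σ ≤ Sz D (z j)) →
        (σ * (1 - (k : ℝ) ^ (-((1 : ℝ) / 2))) - (1 + σ) * (k : ℝ) ^ (-((1 : ℝ) / 2))) * (x / Real.log x ^ r) ≤ ED (pr z) D ⌊x⌋₊) := by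
  have hl2 : 0 < Real.log 2 := Real.log_pos (by norm_num)
  have hl21 : Real.log 2 ≤ 1 := by linarith [Real.log_two_lt_d9]
  have hHV : HV z := HV_of_le (by filter_upwards [hz] with k hk; omega)
  obtain ⟨K₁, hK₁⟩ := eventually_atTop.1 (hz.and (hq_ev' hHV))
  filter_upwards [mm_small r (show (0 : ℝ) < 1 / 2 by norm_num) (show (0 : ℝ) < 1 / 2 ^ (r + 3) by positivity),
    ev_two (2 ^ (r + 5)) (B + 2 * r + 2) (show (0 : ℝ) < 1 / 4 by norm_num),
    eventually_ge_atTop (2 * K₁ + 8), hcast.eventually_ge_atTop ((2 : ℝ) ^ (2 * r + 8)), eventually_ge_atTop (4 ^ (r + 3))]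
    with k h1 h2 h3 h4 h5 x hx1 hx2 D hD hDr σ hσ
  have hk8 : (8 : ℝ) ≤ k := by
    have : 8 ≤ k := by omega
    exact_mod_cast this
  have hk0 : (0 : ℝ) < k := by linarith
  have hk1 : (1 : ℝ) ≤ k := by linarith
  obtain ⟨w, hw⟩ : ∃ w, w = (k : ℝ) ^ (-((1 : ℝ) / 2)) := ⟨_, rfl⟩
  rw [← hw]
  have hw0 : 0 < w := by rw [hw]; positivity
  have hwk : w * w * k = 1 := by
    rw [hw, ← Real.rpow_add hk0]
    nth_rewrite 2 [← Real.rpow_one (k : ℝ)]
    rw [← Real.rpow_add hk0]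
    norm_num
  have hhalf : (k : ℝ) ^ ((1 : ℝ) / 2) = w * k := by
    rw [hw]
    nth_rewrite 3 [← Real.rpow_one (k : ℝ)]
    rw [← Real.rpow_add hk0]
    norm_num
  have hw1 : w ≤ 1 := by
    rw [hw]
    exact Real.rpow_le_one_of_one_le_of_nonpos hk1 (by norm_num)
  -- the number of the blocks
  have hm1 : (mm r k : ℝ) + 1 ≤ 1 / 2 ^ (r + 3) * (w * k) := by rw [← hhalf]; exact h1
  have hm2 : (mm r k : ℝ) + 1 ≤ k / 8 := by
    refine hm1.trans ?_
    have e1 : (1 : ℝ) / 2 ^ (r + 3) ≤ 1 / 8 := by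
      rw [div_le_div_iff₀ (by positivity) (by norm_num), pow_add]
      have : (1 : ℝ) ≤ 2 ^ r := one_le_pow₀ (by norm_num)
      linarith
    have e2 : w * k ≤ k := by nlinarith
    calc 1 / 2 ^ (r + 3) * (w * k) ≤ 1 / 8 * k := mul_le_mul e1 e2 (by positivity) (by norm_num)
      _ = k / 8 := by ring
  have hmk : mm r k + 1 ≤ k := by
    have : (mm r k : ℝ) + 1 ≤ k := by linarith
    exact_mod_cast this
  have hm8 : 8 * (mm r k + 1) ≤ k := by
    have : 8 * ((mm r k : ℝ) + 1) ≤ k := by linarith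
    exact_mod_cast this
  obtain ⟨a, ha⟩ : ∃ a, a = k - mm r k := ⟨_, rfl⟩
  rw [← ha]
  have ha2 : 2 ≤ a := by omega
  have hak : a ≤ k := by omega
  have haK : K₁ ≤ a := by omega
  have har : (a : ℝ) = k - mm r k := by
    rw [ha, Nat.cast_sub (by omega)]
  -- the errors
  obtain ⟨X, hX⟩ : ∃ X : ℝ, X = 2 ^ k := ⟨_, rfl⟩
  have hX0 : 0 < X := by rw [hX]; positivity
  have hX1 : 1 ≤ X := by rw [hX]; exact one_le_pow₀ (by norm_num)
  rw [← hX] at h2
  have hlX : Real.log X = k * Real.log 2 := by rw [hX, Real.log_pow]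
  have hDH : ∀ d ∈ D, d ≤ k ^ B := fun d hd => by
    have := mem_range.1 (hD hd)
    omega
  have hq : ∀ j, a ≤ j → j ≤ k → 1 ≤ Vf (z j) * (j * Real.log 2) := fun j hj _ => (hK₁ j (by omega)).2
  have hE : ∀ j, a ≤ j → j ≤ k → PQ (z j) / Vf (z j) ^ D.card ≤ X ^ ((1 : ℝ) / 2) := by
    intro j hj hjk
    have e0 := (hK₁ j (by omega)).1
    have hV := Vf_pos (z j)
    have hzk : 8 * z j ≤ k := by omega
    have hzr : (z j : ℝ) ≤ k / 8 := by
      have : ((8 * z j : ℕ) : ℝ) ≤ k := by exact_mod_cast hzk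
      push_cast at this
      linarith
    have e1 : (PQ (z j) : ℝ) ≤ X ^ ((1 : ℝ) / 4) := by
      have e2 : (PQ (z j) : ℝ) ≤ (4 : ℝ) ^ (z j) := by exact_mod_cast PQ_le (z j)
      refine e2.trans ?_
      have e3 : (4 : ℝ) ^ (z j) = Real.exp ((z j) * Real.log 4) := by
        rw [← Real.rpow_natCast, Real.rpow_def_of_pos (by norm_num)]
        congr 1
        ring
      have e4 : Real.log 4 = 2 * Real.log 2 := by
        rw [show (4 : ℝ) = 2 ^ 2 by norm_num, Real.log_pow]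
        norm_num
      rw [e3, Real.rpow_def_of_pos hX0, Real.exp_le_exp, hlX, e4]
      nlinarith
    have e5 : 1 / Vf (z j) ^ D.card ≤ X ^ ((1 : ℝ) / 4) := by
      have f1 : 1 / Vf (z j) ≤ k := by
        have f2 := le_Vf2 (z j)
        rw [div_le_iff₀ hV]
        rw [div_le_iff₀ (by positivity)] at f2
        nlinarith
      rw [hDr, ← one_div_pow]
      calc (1 / Vf (z j)) ^ r ≤ (k : ℝ) ^ r := pow_le_pow_left₀ (by positivity) f1 r
        _ ≤ (k : ℝ) ^ (B + 2 * r + 2) := pow_le_pow_right₀ hk1 (by omega)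
        _ ≤ 2 ^ (r + 5) * (k : ℝ) ^ (B + 2 * r + 2) := le_mul_of_one_le_left (by positivity) (one_le_pow₀ (by norm_num))
        _ ≤ X ^ ((1 : ℝ) / 4) := h2
    calc (PQ (z j) : ℝ) / Vf (z j) ^ D.card = PQ (z j) * (1 / Vf (z j) ^ D.card) := by ring
      _ ≤ X ^ ((1 : ℝ) / 4) * X ^ ((1 : ℝ) / 4) := mul_le_mul e1 e5 (by positivity) (by positivity)
      _ = X ^ ((1 : ℝ) / 2) := by
        rw [← Real.rpow_add hX0]
        norm_num
  obtain ⟨hb1, hb2⟩ := ED_bounds ha2 hak hDH hσ (E := X ^ ((1 : ℝ) / 2)) (by positivity) hx1 hx2 hq hE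
  rw [hDr] at hb1 hb2
  -- the logarithm
  have hx0 : 0 ≤ x := by
    by_contra hneg
    rw [Nat.floor_of_nonpos (by linarith)] at hx1
    have : 0 < 2 ^ k := by positivity
    omega
  have hxl := Nat.floor_le hx0
  have hxu := Nat.lt_floor_add_one x
  have hXx : X ≤ x := by
    have : ((2 ^ k : ℕ) : ℝ) ≤ ⌊x⌋₊ := by exact_mod_cast hx1
    push_cast at this
    rw [hX]
    linarith
  have hlog1 : (k : ℝ) * Real.log 2 ≤ Real.log x := by
    rw [← hlX]
    exact Real.log_le_log hX0 hXx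
  have hlog2 : Real.log x ≤ ((k : ℝ) + 1) * Real.log 2 := by
    have e1 : ((⌊x⌋₊ + 1 : ℕ) : ℝ) ≤ ((2 ^ (k + 1) : ℕ) : ℝ) := by exact_mod_cast hx2
    push_cast at e1
    have e2 : x ≤ 2 ^ (k + 1) := by linarith
    have := Real.log_le_log (by linarith) e2
    rw [Real.log_pow] at this
    push_cast at this
    exact this
  obtain ⟨l, hl⟩ : ∃ l, l = Real.log 2 := ⟨_, rfl⟩
  rw [← hl] at hl2 hl21 hb1 hb2 hlog1 hlog2
  have hl05 : 1 / 2 ≤ l := by
    have := Real.log_two_gt_d9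
    rw [hl]
    linarith
  have hlx : 0 < Real.log x := lt_of_lt_of_le (by positivity) hlog1
  have hxr0 : 0 < x := by linarith
  -- the main inequality for the errors
  have hstar : 2 ^ a + ((k : ℝ) - a + 1) * (X ^ ((1 : ℝ) / 2) + ((k ^ B : ℕ) : ℝ)) ≤ w * (x / Real.log x ^ r) := by
    have f1 : (2 : ℝ) ^ a * 2 ^ mm r k = X := by
      rw [← pow_add, hX]
      congr 1
      omega
    have f2 := two_mm r (k := k)
    have hkr : (0 : ℝ) < (k : ℝ) ^ r := by positivity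
    have hlogr : Real.log x ^ r ≤ 2 ^ r * (k : ℝ) ^ r := by
      rw [← mul_pow]
      refine pow_le_pow_left₀ hlx.le ?_ r
      nlinarith
    have hxx : X / (2 ^ r * (k : ℝ) ^ r) ≤ x / Real.log x ^ r :=
      div_le_div₀ hxr0.le hXx (by positivity) hlogr
    have f3 : (2 : ℝ) ^ a ≤ w / 2 * (X / (2 ^ r * (k : ℝ) ^ r)) := by
      rw [mul_div_assoc', le_div_iff₀ (by positivity)]
      have g1 : (2 : ℝ) ^ a * (k : ℝ) ^ (r + 2) ≤ X := by
        rw [← f1]
        exact mul_le_mul_of_nonneg_left f2 (by positivity)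
      have g2 : 2 ^ (r + 1) ≤ w * (k : ℝ) ^ 2 := by
        have g3 : w * (k : ℝ) ^ 2 = (w * k) * k := by ring
        have g4 : 1 ≤ w * k := by
          have : 1 = w * (w * k) := by rw [← hwk]; ring
          nlinarith [mul_pos hw0 hk0]
        rw [g3]
        have g5 : (2 : ℝ) ^ (r + 1) ≤ 2 ^ (2 * r + 8) := pow_le_pow_right₀ (by norm_num) (by omega)
        nlinarith
      have g3 : (k : ℝ) ^ (r + 2) = (k : ℝ) ^ r * (k : ℝ) ^ 2 := by rw [pow_add]
      have g4 : (2 : ℝ) ^ (r + 1) = 2 ^ r * 2 := by rw [pow_succ]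
      have h2a : (0 : ℝ) < 2 ^ a := by positivity
      calc (2 : ℝ) ^ a * (2 ^ r * (k : ℝ) ^ r) = (2 ^ a * (k : ℝ) ^ r) * 2 ^ (r + 1) / 2 := by rw [g4]; ring
        _ ≤ (2 ^ a * (k : ℝ) ^ r) * (w * (k : ℝ) ^ 2) / 2 := by
          have := mul_le_mul_of_nonneg_left g2 (show 0 ≤ (2 : ℝ) ^ a * (k : ℝ) ^ r by positivity)
          linarith
        _ = w / 2 * (2 ^ a * (k : ℝ) ^ (r + 2)) := by rw [g3]; ring
        _ ≤ w / 2 * X := mul_le_mul_of_nonneg_left g1 (by positivity)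
    have f4 : ((k : ℝ) - a + 1) * (X ^ ((1 : ℝ) / 2) + ((k ^ B : ℕ) : ℝ)) ≤ w / 2 * (X / (2 ^ r * (k : ℝ) ^ r)) := by
      rw [mul_div_assoc', le_div_iff₀ (by positivity)]
      have g1 : (k : ℝ) - a + 1 ≤ k := by rw [har]; linarith
      have g0 : 0 ≤ (k : ℝ) - a + 1 := by
        have : (a : ℝ) ≤ k := by exact_mod_cast hak
        linarith
      have g2 : ((k ^ B : ℕ) : ℝ) ≤ X ^ ((1 : ℝ) / 2) := by
        push_cast
        calc (k : ℝ) ^ B ≤ (k : ℝ) ^ (B + 2 * r + 2) := pow_le_pow_right₀ hk1 (by omega)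
          _ ≤ 2 ^ (r + 5) * (k : ℝ) ^ (B + 2 * r + 2) := le_mul_of_one_le_left (by positivity) (one_le_pow₀ (by norm_num))
          _ ≤ X ^ ((1 : ℝ) / 4) := h2
          _ ≤ X ^ ((1 : ℝ) / 2) := Real.rpow_le_rpow_of_exponent_le hX1 (by norm_num)
      have g3 : 0 < X ^ ((1 : ℝ) / 2) := by positivity
      have g4 : 1 ≤ w * k := by
        have : 1 = w * (w * k) := by rw [← hwk]; ring
        nlinarith [mul_pos hw0 hk0]
      have g5 : 4 * (2 ^ r * (k : ℝ) ^ r) * k * k ≤ X ^ ((1 : ℝ) / 4) := by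
        refine le_trans ?_ h2
        have e1 : 4 * (2 ^ r * (k : ℝ) ^ r) * k * k = 2 ^ (r + 2) * (k : ℝ) ^ (r + 2) := by ring
        rw [e1]
        refine mul_le_mul (pow_le_pow_right₀ (by norm_num) (by omega)) (pow_le_pow_right₀ hk1 (by omega)) (by positivity) (by positivity)
      have g6 : X ^ ((1 : ℝ) / 2) * X ^ ((1 : ℝ) / 4) ≤ X := by
        rw [← Real.rpow_add hX0]
        calc X ^ ((1 : ℝ) / 2 + 1 / 4) ≤ X ^ (1 : ℝ) := Real.rpow_le_rpow_of_exponent_le hX1 (by norm_num)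
          _ = X := Real.rpow_one X
      calc ((k : ℝ) - a + 1) * (X ^ ((1 : ℝ) / 2) + ((k ^ B : ℕ) : ℝ)) * (2 ^ r * (k : ℝ) ^ r)
          ≤ (k * (2 * X ^ ((1 : ℝ) / 2))) * (2 ^ r * (k : ℝ) ^ r) := by
            refine mul_le_mul_of_nonneg_right (mul_le_mul g1 (by linarith) (by positivity) hk0.le) (by positivity)
        _ ≤ (k * (2 * X ^ ((1 : ℝ) / 2))) * (2 ^ r * (k : ℝ) ^ r) * (w * k) := by
          refine le_mul_of_one_le_right (by positivity) g4
        _ = w / 2 * (X ^ ((1 : ℝ) / 2) * (4 * (2 ^ r * (k : ℝ) ^ r) * k * k)) := by ring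
        _ ≤ w / 2 * (X ^ ((1 : ℝ) / 2) * X ^ ((1 : ℝ) / 4)) :=
          mul_le_mul_of_nonneg_left (mul_le_mul_of_nonneg_left g5 g3.le) (by positivity)
        _ ≤ w / 2 * X := mul_le_mul_of_nonneg_left g6 (by positivity)
    have f5 : w * (X / (2 ^ r * (k : ℝ) ^ r)) ≤ w * (x / Real.log x ^ r) := mul_le_mul_of_nonneg_left hxx hw0.le
    linarith
  have hkm : (0 : ℝ) < (k : ℝ) - mm r k := by linarith
  have hratio : ((k : ℝ) + 1) / ((k : ℝ) - mm r k) ≤ 1 + w / 2 ^ (r + 1) := by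
    rw [div_le_iff₀ hkm]
    have e1 : (mm r k : ℝ) + 1 ≤ w / 2 ^ (r + 1) * (k / 4) := by
      refine hm1.trans (le_of_eq ?_)
      rw [show r + 3 = (r + 1) + 2 by ring, pow_add 2 (r + 1) 2]
      field_simp
      norm_num
    have e2 : (k : ℝ) / 4 ≤ (k : ℝ) - mm r k := by linarith
    have e3 : w / 2 ^ (r + 1) * (k / 4) ≤ w / 2 ^ (r + 1) * ((k : ℝ) - mm r k) := mul_le_mul_of_nonneg_left e2 (by positivity)
    linarith
  have hbern : (1 + w / 2 ^ (r + 1)) ^ r ≤ 1 + w / 2 := by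
    have e1 : ∀ (s : ℕ) (t : ℝ), 0 ≤ t → t ≤ 1 → (1 + t) ^ s ≤ 1 + (2 ^ s - 1) * t := by
      intro s t ht0 ht1
      induction s with
      | zero => simp
      | succ s ih =>
        rw [pow_succ, pow_succ]
        have e2 : (1 : ℝ) ≤ 2 ^ s := one_le_pow₀ (by norm_num)
        nlinarith [mul_nonneg (sub_nonneg.2 e2) (mul_nonneg ht0 (sub_nonneg.2 ht1))]
    have e2 : w / 2 ^ (r + 1) ≤ 1 := by
      rw [div_le_one (by positivity)]
      have : (1 : ℝ) ≤ 2 ^ (r + 1) := one_le_pow₀ (by norm_num)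
      linarith
    refine (e1 r _ (by positivity) e2).trans ?_
    have e3 : (2 ^ r - 1) * (w / 2 ^ (r + 1)) ≤ 2 ^ r * (w / 2 ^ (r + 1)) :=
      mul_le_mul_of_nonneg_right (by linarith) (by positivity)
    have e4 : (2 : ℝ) ^ r * (w / 2 ^ (r + 1)) = w / 2 := by
      rw [pow_succ]
      field_simp
    linarith
  have hx64 : 1 / x ≤ w / 4 := by
    have e1 : (k : ℝ) ≤ X := by
      have : (k : ℝ) < 2 ^ k := by exact_mod_cast Nat.lt_two_pow_self
      rw [hX]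
      linarith
    have e2 : 1 / x ≤ 1 / k := one_div_le_one_div_of_le hk0 (by linarith)
    have e3 : 1 / (k : ℝ) = w * w := by
      rw [div_eq_iff hk0.ne']
      linarith
    have e4 : w ≤ 1 / 4 := by
      have f1 : (16 : ℝ) ≤ k := by
        have : (16 : ℝ) ≤ 2 ^ (2 * r + 8) := by
          calc (16 : ℝ) = 2 ^ 4 := by norm_num
            _ ≤ 2 ^ (2 * r + 8) := pow_le_pow_right₀ (by norm_num) (by omega)
        linarith
      by_contra hcon
      push Not at hcon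
      have : 1 / 4 * (1 / 4) * 16 < w * w * k := by nlinarith
      linarith
    rw [e3] at e2
    nlinarith
  constructor
  · intro hS
    refine (hb1 hS).trans ?_
    have e1 : σ * (⌊x⌋₊ + 1) / (a * l) ^ r ≤ σ * (1 + w) * (x / Real.log x ^ r) := by
      have f1 : ((⌊x⌋₊ : ℝ) + 1) ≤ (1 + w / 4) * x := by
        rw [div_le_iff₀ hxr0] at hx64
        linarith
      have f2 : Real.log x ^ r ≤ (1 + w / 2) * (a * l) ^ r := by
        have g1 : Real.log x ≤ (1 + w / 2 ^ (r + 1)) * (a * l) := by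
          rw [div_le_iff₀ hkm] at hratio
          rw [har]
          have : ((k : ℝ) + 1) * l ≤ (1 + w / 2 ^ (r + 1)) * ((k : ℝ) - mm r k) * l := mul_le_mul_of_nonneg_right hratio hl2.le
          linarith
        calc Real.log x ^ r ≤ ((1 + w / 2 ^ (r + 1)) * (a * l)) ^ r := pow_le_pow_left₀ hlx.le g1 r
          _ = (1 + w / 2 ^ (r + 1)) ^ r * (a * l) ^ r := by rw [mul_pow]
          _ ≤ (1 + w / 2) * (a * l) ^ r := mul_le_mul_of_nonneg_right hbern (by positivity)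
      have ha0 : (0 : ℝ) < a := by rw [har]; exact hkm
      have hal0 : 0 < ((a : ℝ) * l) ^ r := by positivity
      have hlr : 0 < Real.log x ^ r := by positivity
      rw [div_le_iff₀ hal0]
      have g3 : x ≤ (1 + w / 2) * (a * l) ^ r * (x / Real.log x ^ r) := by
        rw [mul_div_assoc', le_div_iff₀ hlr, mul_comm]
        exact mul_le_mul_of_nonneg_right f2 hxr0.le
      have g4 : (1 + w / 4) * (1 + w / 2) ≤ 1 + w := by nlinarith
      have g5 : 0 ≤ (a * l) ^ r * (x / Real.log x ^ r) := by positivity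
      calc σ * ((⌊x⌋₊ : ℝ) + 1) ≤ σ * ((1 + w / 4) * x) := mul_le_mul_of_nonneg_left f1 hσ
        _ ≤ σ * ((1 + w / 4) * ((1 + w / 2) * (a * l) ^ r * (x / Real.log x ^ r))) :=
          mul_le_mul_of_nonneg_left (mul_le_mul_of_nonneg_left g3 (by positivity)) hσ
        _ = σ * ((1 + w / 4) * (1 + w / 2)) * ((a * l) ^ r * (x / Real.log x ^ r)) := by ring
        _ ≤ σ * (1 + w) * ((a * l) ^ r * (x / Real.log x ^ r)) :=
          mul_le_mul_of_nonneg_right (mul_le_mul_of_nonneg_left g4 hσ) g5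
        _ = σ * (1 + w) * (x / Real.log x ^ r) * (a * l) ^ r := by ring
    push_cast at hstar ⊢
    linarith
  · intro hS
    refine le_trans ?_ (hb2 hS)
    have hkl1 : 1 ≤ ((k : ℝ) + 1) * l := by nlinarith
    have hklr : 1 ≤ (((k : ℝ) + 1) * l) ^ r := one_le_pow₀ hkl1
    have e1 : σ * (1 - w) * (x / Real.log x ^ r) ≤ σ * x / (((k : ℝ) + 1) * l) ^ r := by
      have f2 : (1 - w) * (((k : ℝ) + 1) * l) ^ r ≤ Real.log x ^ r := by
        have g1 : (1 - 1 / ((k : ℝ) + 1)) * (((k : ℝ) + 1) * l) = k * l := by field_simp; ring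
        have g2 : 1 - r * (1 / ((k : ℝ) + 1)) ≤ (1 - 1 / ((k : ℝ) + 1)) ^ r := by
          have := one_add_mul_le_pow (show (-2 : ℝ) ≤ -(1 / ((k : ℝ) + 1)) by
            have : 1 / ((k : ℝ) + 1) ≤ 1 := by
              rw [div_le_one (by positivity)]
              linarith
            linarith) r
          calc 1 - r * (1 / ((k : ℝ) + 1)) = 1 + r * (-(1 / ((k : ℝ) + 1))) := by ring
            _ ≤ (1 + -(1 / ((k : ℝ) + 1))) ^ r := this
            _ = (1 - 1 / ((k : ℝ) + 1)) ^ r := by ring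
        have g3 : r * (1 / ((k : ℝ) + 1)) ≤ w := by
          rw [mul_one_div, div_le_iff₀ (by positivity)]
          have g4 : (r : ℝ) ≤ w * k := by
            have g5 : (r : ℝ) ≤ 2 ^ r := by exact_mod_cast Nat.lt_two_pow_self.le
            have g6 : (2 : ℝ) ^ r ≤ w * k := by
              have g7 : (2 : ℝ) ^ r * 2 ^ r ≤ k := by
                rw [← pow_add]
                refine le_trans ?_ h4
                exact pow_le_pow_right₀ (by norm_num) (by omega)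
              by_contra hcon
              push Not at hcon
              have g8 : (w * k) * (w * k) < 2 ^ r * 2 ^ r := mul_self_lt_mul_self (by positivity) hcon
              have g9 : (w * k) * (w * k) = k := by
                calc (w * k) * (w * k) = (w * w * k) * k := by ring
                  _ = k := by rw [hwk, one_mul]
              linarith
            linarith
          nlinarith
        calc (1 - w) * (((k : ℝ) + 1) * l) ^ r ≤ (1 - 1 / ((k : ℝ) + 1)) ^ r * (((k : ℝ) + 1) * l) ^ r :=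
              mul_le_mul_of_nonneg_right (by linarith) (by positivity)
          _ = (k * l) ^ r := by rw [← mul_pow, g1]
          _ ≤ Real.log x ^ r := pow_le_pow_left₀ (by positivity) hlog1 r
      have hlr : 0 < Real.log x ^ r := by positivity
      rw [le_div_iff₀ (by positivity)]
      calc σ * (1 - w) * (x / Real.log x ^ r) * (((k : ℝ) + 1) * l) ^ r = σ * x * ((1 - w) * (((k : ℝ) + 1) * l) ^ r) / Real.log x ^ r := by ring
        _ ≤ σ * x * (Real.log x ^ r) / Real.log x ^ r :=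
          div_le_div_of_nonneg_right (mul_le_mul_of_nonneg_left f2 (by positivity)) hlr.le
        _ = σ * x := by field_simp
    have e2 : σ * x / (((k : ℝ) + 1) * l) ^ r - σ * 2 ^ a ≤ σ * (⌊x⌋₊ + 1 - 2 ^ a) / (((k : ℝ) + 1) * l) ^ r := by
      have f1 : σ * (⌊x⌋₊ + 1 - 2 ^ a) / (((k : ℝ) + 1) * l) ^ r = σ * (⌊x⌋₊ + 1) / (((k : ℝ) + 1) * l) ^ r - σ * 2 ^ a / (((k : ℝ) + 1) * l) ^ r := by
        rw [← sub_div]
        congr 1
        ring
      rw [f1]
      have f2 : σ * x / (((k : ℝ) + 1) * l) ^ r ≤ σ * (⌊x⌋₊ + 1) / (((k : ℝ) + 1) * l) ^ r :=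
        div_le_div_of_nonneg_right (mul_le_mul_of_nonneg_left hxu.le hσ) (by positivity)
      have f3 : σ * 2 ^ a / (((k : ℝ) + 1) * l) ^ r ≤ σ * 2 ^ a := div_le_self (by positivity) hklr
      linarith
    have hka0 : 0 ≤ (k : ℝ) - a + 1 := by
      have : (a : ℝ) ≤ k := by exact_mod_cast hak
      linarith
    have e3 : ((k : ℝ) - a + 1) * (X ^ ((1 : ℝ) / 2) + σ * ((k ^ B : ℕ) : ℝ)) + σ * 2 ^ a ≤
        (1 + σ) * (2 ^ a + ((k : ℝ) - a + 1) * (X ^ ((1 : ℝ) / 2) + ((k ^ B : ℕ) : ℝ))) := by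
      have f1 : 0 ≤ X ^ ((1 : ℝ) / 2) := by positivity
      have f2 : 0 ≤ ((k ^ B : ℕ) : ℝ) := Nat.cast_nonneg _
      have f3 : (0 : ℝ) < 2 ^ a := by positivity
      nlinarith [mul_nonneg hka0 f1, mul_nonneg hka0 f2, mul_nonneg hσ (mul_nonneg hka0 f1), mul_nonneg hσ (mul_nonneg hka0 f2)]
    have e4 : (1 + σ) * (2 ^ a + ((k : ℝ) - a + 1) * (X ^ ((1 : ℝ) / 2) + ((k ^ B : ℕ) : ℝ))) ≤ (1 + σ) * (w * (x / Real.log x ^ r)) :=
      mul_le_mul_of_nonneg_left hstar (by positivity)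
    linarith

end Pool.Agent.Q120.HL
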