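import Pool.Agent.Q120.HL.H3

/-!
# The singular series
-/

set_option autoImplicit false

namespace Pool.Agent.Q120.HL

open Finset Filter Topology MeasureTheory Pool.Agent.Q120.GM Pool.Agent.Q120.CL Pool.Agent.Q120.MG

/-- The singular series of `D`. -/
noncomputable def SS (D : Finset ℕ) : ℝ := ∏' p : Nat.Primes, loc D (p : ℕ)

theorem pow_upper (r : ℕ) {t : ℝ} (h0 : 0 ≤ t) (h1 : t ≤ 1) : (1 - t) ^ r ≤ 1 - r * t + (r : ℝ) ^ 2 * t ^ 2 / 2 := by
  induction r with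
  | zero => simp
  | succ r ih =>
    rw [pow_succ]
    push_cast
    have h2 : (1 - t) ^ r * (1 - t) ≤ (1 - r * t + (r : ℝ) ^ 2 * t ^ 2 / 2) * (1 - t) := mul_le_mul_of_nonneg_right ih (by linarith)
    have h3 : (0 : ℝ) ≤ r := Nat.cast_nonneg r
    nlinarith [mul_nonneg (mul_nonneg h3 h3) (mul_nonneg h0 (mul_nonneg h0 h0)), mul_nonneg h0 h0]

theorem inv_prime {p : ℕ} (hp : p.Prime) : 0 < 1 / (p : ℝ) ∧ 1 / (p : ℝ) ≤ 1 / 2 := by
  have h1 : (2 : ℝ) ≤ p := by exact_mod_cast hp.two_le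
  exact ⟨by positivity, one_div_le_one_div_of_le (by norm_num) h1⟩

theorem loc_eq (D : Finset ℕ) (p : ℕ) : loc D p = (1 - nu D p * (1 / (p : ℝ))) / (1 - 1 / (p : ℝ)) ^ D.card := by
  unfold loc
  rw [mul_one_div]

theorem loc_lower {D : Finset ℕ} {p : ℕ} (hp : p.Prime) (h2r : 2 * D.card ≤ p) : 1 - (D.card : ℝ) ^ 2 / p ^ 2 ≤ loc D p := by
  obtain ⟨t0, t1⟩ := inv_prime hp
  have hp0 : (0 : ℝ) < p := by exact_mod_cast hp.pos
  rw [loc_eq]
  obtain ⟨t, ht⟩ : ∃ t, t = 1 / (p : ℝ) := ⟨_, rfl⟩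
  rw [← ht] at t0 t1 ⊢
  have e1 : (D.card : ℝ) ^ 2 / p ^ 2 = (D.card * t) ^ 2 := by
    rw [ht]
    field_simp
  have e2 : (D.card : ℝ) * t ≤ 1 / 2 := by
    rw [ht, mul_one_div, div_le_iff₀ hp0]
    have : ((2 * D.card : ℕ) : ℝ) ≤ p := by exact_mod_cast h2r
    push_cast at this
    linarith
  have e3 : (nu D p : ℝ) * t ≤ D.card * t := mul_le_mul_of_nonneg_right (by exact_mod_cast nu_le_card D p) t0.le
  have e4 : 0 < (1 - t) ^ D.card := pow_pos (by linarith) _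
  have e5 := pow_upper D.card t0.le (by linarith)
  rw [e1, le_div_iff₀ e4]
  obtain ⟨u, hu⟩ : ∃ u, u = (D.card : ℝ) * t := ⟨_, rfl⟩
  have hu0 : 0 ≤ u := by rw [hu]; positivity
  have e6 : (D.card : ℝ) ^ 2 * t ^ 2 / 2 = u ^ 2 / 2 := by rw [hu]; ring
  rw [e6, ← hu] at e5
  rw [← hu] at e2 e3 ⊢
  have e7 : 0 ≤ 1 - u ^ 2 := by nlinarith
  calc (1 - u ^ 2) * (1 - t) ^ D.card ≤ (1 - u ^ 2) * (1 - u + u ^ 2 / 2) := mul_le_mul_of_nonneg_left e5 e7
    _ ≤ 1 - u := by nlinarith [mul_nonneg hu0 hu0, mul_nonneg (mul_nonneg hu0 hu0) (sub_nonneg.2 e2), sq_nonneg (u ^ 2)]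
    _ ≤ 1 - nu D p * t := by linarith

theorem loc_nonneg (D : Finset ℕ) {p : ℕ} (hp : p.Prime) : 0 ≤ loc D p := by
  unfold loc
  obtain ⟨t0, t1⟩ := inv_prime hp
  exact div_nonneg (fac_nonneg D hp.pos) (pow_nonneg (by linarith) _)

theorem loc_le_one {D : Finset ℕ} {p : ℕ} (hp : p.Prime) (h : nu D p = D.card) : loc D p ≤ 1 := by
  obtain ⟨t0, t1⟩ := inv_prime hp
  rw [loc_eq, h]
  obtain ⟨t, ht⟩ : ∃ t, t = 1 / (p : ℝ) := ⟨_, rfl⟩
  rw [← ht] at t0 t1 ⊢
  have e4 : 0 < (1 - t) ^ D.card := pow_pos (by linarith) _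
  rw [div_le_one e4]
  have := one_add_mul_le_pow (show (-2 : ℝ) ≤ -t by linarith) D.card
  calc 1 - (D.card : ℝ) * t = 1 + D.card * (-t) := by ring
    _ ≤ (1 + -t) ^ D.card := this
    _ = (1 - t) ^ D.card := by ring

theorem nu_pos {D : Finset ℕ} (hD : D.Nonempty) (p : ℕ) : 1 ≤ nu D p := by
  unfold nu
  exact card_pos.2 (hD.image _)

theorem loc_upper {D : Finset ℕ} {p r : ℕ} (hp : p.Prime) (hr : D.card = r + 1) : loc D p ≤ (1 / (1 - 1 / (p : ℝ))) ^ r := by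
  obtain ⟨t0, t1⟩ := inv_prime hp
  have hne : D.Nonempty := card_pos.1 (by omega)
  rw [loc_eq, hr]
  obtain ⟨t, ht⟩ : ∃ t, t = 1 / (p : ℝ) := ⟨_, rfl⟩
  rw [← ht] at t0 t1 ⊢
  have e1 : (1 : ℝ) ≤ nu D p := by exact_mod_cast nu_pos hne p
  have e3 : 0 < 1 - t := by linarith
  rw [pow_succ, one_div, inv_pow, div_le_iff₀ (by positivity), inv_mul_cancel_left₀ (by positivity)]
  nlinarith

/-- The primes with a coincidence modulo `p`. -/
theorem nu_lt {D : Finset ℕ} {p : ℕ} (h : nu D p < D.card) : ∃ a ∈ D, ∃ b ∈ D, a < b ∧ p ∣ b - a := by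
  unfold nu at h
  obtain ⟨a, ha, b, hb, hab, hm⟩ := exists_ne_map_eq_of_card_lt_of_maps_to h (fun x hx => mem_image_of_mem _ hx)
  rcases Nat.lt_or_gt_of_ne hab with h1 | h1
  · exact ⟨a, ha, b, hb, h1, (Nat.modEq_iff_dvd' h1.le).1 hm⟩
  · exact ⟨b, hb, a, ha, h1, (Nat.modEq_iff_dvd' h1.le).1 (Eq.symm hm)⟩

/-- The number of the primes with a coincidence. -/
theorem card_T {D : Finset ℕ} {H : ℕ} (hH : 1 ≤ H) (hD : ∀ d ∈ D, d ≤ H) (T : Finset ℕ) (hT : ∀ p ∈ T, p.Prime ∧ nu D p < D.card) :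
    (T.card : ℝ) * Real.log 2 ≤ (D.card : ℝ) ^ 2 * Real.log H := by
  classical
  obtain ⟨Q, hQ⟩ : ∃ Q : Finset (ℕ × ℕ), Q = (D ×ˢ D).filter (fun q => q.1 < q.2) := ⟨_, rfl⟩
  obtain ⟨Δ, hΔ⟩ : ∃ Δ : ℕ, Δ = ∏ q ∈ Q, (q.2 - q.1) := ⟨_, rfl⟩
  have hΔ0 : 0 < Δ := by
    rw [hΔ]
    refine prod_pos (fun q hq => ?_)
    rw [hQ, mem_filter] at hq
    have := hq.2
    omega
  have hdvd : ∏ p ∈ T, p ∣ Δ := by
    refine Finset.prod_primes_dvd _ (fun p hp => (hT p hp).1.prime) (fun p hp => ?_)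
    obtain ⟨a, ha, b, hb, hab, hm⟩ := nu_lt (hT p hp).2
    rw [hΔ]
    refine hm.trans ?_
    have h1 : (a, b) ∈ Q := by
      rw [hQ]
      exact mem_filter.2 ⟨mem_product.2 ⟨ha, hb⟩, hab⟩
    exact dvd_prod_of_mem (fun q : ℕ × ℕ => q.2 - q.1) h1
  have h2 : 2 ^ T.card ≤ Δ := by
    refine le_trans ?_ (Nat.le_of_dvd hΔ0 hdvd)
    rw [← prod_const]
    exact prod_le_prod' (fun p hp => (hT p hp).1.two_le)
  have h3 : Δ ≤ H ^ (D.card ^ 2) := by
    rw [hΔ]
    have e1 : ∏ q ∈ Q, (q.2 - q.1) ≤ ∏ _q ∈ Q, H := by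
      refine prod_le_prod' (fun q hq => ?_)
      rw [hQ, mem_filter, mem_product] at hq
      have := hD q.2 hq.1.2
      omega
    rw [prod_const] at e1
    refine e1.trans (Nat.pow_le_pow_right hH ?_)
    rw [hQ]
    refine (card_filter_le _ _).trans ?_
    rw [card_product, sq]
  have h4 : (2 : ℝ) ^ T.card ≤ (H : ℝ) ^ (D.card ^ 2) := by exact_mod_cast h2.trans h3
  have h5 := Real.log_le_log (by positivity) h4
  rw [Real.log_pow, Real.log_pow] at h5
  push_cast at h5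
  exact h5

theorem loc_sub {D : Finset ℕ} {p : ℕ} (hp : p.Prime) (h1 : 2 * D.card ≤ p) (h2 : ∀ d ∈ D, d < p) :
    |loc D p - 1| ≤ (D.card : ℝ) ^ 2 / p ^ 2 := by
  have h3 : nu D p = D.card := by
    by_contra hne
    have h4 : nu D p < D.card := lt_of_le_of_ne (nu_le_card D p) hne
    obtain ⟨a, ha, b, hb, hab, hm⟩ := nu_lt h4
    have h5 := Nat.le_of_dvd (by omega) hm
    have h6 := h2 b hb
    omega
  have h4 := loc_lower hp h1
  have h5 := loc_le_one hp h3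
  rw [abs_le]
  constructor
  · linarith
  · have : 0 ≤ (D.card : ℝ) ^ 2 / p ^ 2 := by positivity
    linarith

theorem multipliable_loc (D : Finset ℕ) : Multipliable (fun p : Nat.Primes => loc D (p : ℕ)) := by
  have h1 : Summable (fun p : Nat.Primes => loc D (p : ℕ) - 1) := by
    have h2 : Summable (fun p : Nat.Primes => (D.card : ℝ) ^ 2 * ((p : ℕ) : ℝ) ^ (-2 : ℝ)) :=
      (Nat.Primes.summable_rpow.2 (by norm_num)).mul_left _
    refine Summable.of_norm_bounded_eventually h2 ?_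
    have h3 : {p : Nat.Primes | ¬ (∀ n : ℕ, (∀ d ∈ D, d < n) → 2 * D.card ≤ n → n ≤ (p : ℕ) → ‖loc D (p : ℕ) - 1‖ ≤
        (D.card : ℝ) ^ 2 * ((p : ℕ) : ℝ) ^ (-2 : ℝ))} = ∅ := by
      ext p
      simp only [Set.mem_setOf_eq, Set.mem_empty_iff_false, iff_false, not_not]
      intro n hn1 hn2 hn3
      rw [Real.norm_eq_abs]
      refine (loc_sub p.2 (by omega) (fun d hd => (hn1 d hd).trans_le hn3)).trans (le_of_eq ?_)
      rw [Real.rpow_neg (Nat.cast_nonneg _), Real.rpow_two]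
      rfl
    obtain ⟨n, hn⟩ : ∃ n : ℕ, n = D.sup id + 1 + 2 * D.card := ⟨_, rfl⟩
    have hn1 : ∀ d ∈ D, d < n := by
      intro d hd
      have : d ≤ D.sup id := le_sup (f := id) hd
      omega
    rw [Filter.eventually_cofinite]
    have hfin : {p : Nat.Primes | (p : ℕ) < n}.Finite := by
      have : {p : Nat.Primes | (p : ℕ) < n} ⊆ (fun p : Nat.Primes => (p : ℕ)) ⁻¹' (Set.Iio n) := fun p hp => hp
      exact ((Set.finite_Iio n).preimage Nat.Primes.coe_nat_injective.injOn).subset this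
    refine hfin.subset (fun p hp => ?_)
    by_contra hcon
    have hcon' : n ≤ (p : ℕ) := not_lt.1 hcon
    have h4 : p ∉ {p : Nat.Primes | ¬ (∀ n : ℕ, (∀ d ∈ D, d < n) → 2 * D.card ≤ n → n ≤ (p : ℕ) → ‖loc D (p : ℕ) - 1‖ ≤
        (D.card : ℝ) ^ 2 * ((p : ℕ) : ℝ) ^ (-2 : ℝ))} := by
      rw [h3]
      exact Set.notMem_empty _
    rw [Set.mem_setOf_eq, not_not] at h4
    exact hp (h4 n hn1 (by omega) hcon')
  have h4 := Real.multipliable_one_add_of_summable h1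
  refine h4.congr (fun p => ?_)
  ring

theorem Sz_tendsto (D : Finset ℕ) : Tendsto (fun z => Sz D z) atTop (𝓝 (SS D)) := by
  have h1 := (multipliable_loc D).hasProd
  obtain ⟨s, hs⟩ : ∃ s : ℕ → Finset Nat.Primes, s = fun z => (range z).subtype Nat.Prime := ⟨_, rfl⟩
  have h2 : Tendsto s atTop atTop := by
    refine tendsto_atTop_finset_of_monotone ?_ ?_
    · intro a b hab p hp
      rw [hs] at hp ⊢
      have h3 := mem_range.1 (Finset.mem_subtype.1 hp)
      exact Finset.mem_subtype.2 (mem_range.2 (by omega))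
    · intro p
      refine ⟨(p : ℕ) + 1, ?_⟩
      rw [hs]
      exact Finset.mem_subtype.2 (mem_range.2 (Nat.lt_succ_self _))
  have h3 : Tendsto (fun z => ∏ p ∈ s z, loc D (p : ℕ)) atTop (𝓝 (SS D)) := h1.comp h2
  refine h3.congr (fun z => ?_)
  rw [hs]
  exact prod_subtype_eq_prod_filter (fun p => loc D p)

theorem Sz_split (D : Finset ℕ) {z w : ℕ} (h : z ≤ w) : Sz D w = Sz D z * ∏ p ∈ (Ico z w).filter Nat.Prime, loc D p := by
  unfold Sz
  rw [← prod_union]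
  · congr 1
    rw [← filter_union]
    congr 1
    ext n
    simp only [mem_union, mem_range, mem_Ico]
    omega
  · rw [Finset.disjoint_left]
    intro n hn hn'
    rw [mem_filter, mem_range] at hn
    rw [mem_filter, mem_Ico] at hn'
    omega

theorem prod_ge (s : Finset ℕ) (f : ℕ → ℝ) (h0 : ∀ i ∈ s, 0 ≤ f i) (h1 : ∀ i ∈ s, f i ≤ 1) : 1 - ∑ i ∈ s, f i ≤ ∏ i ∈ s, (1 - f i) ∧
    ∏ i ∈ s, (1 - f i) ≤ 1 := by
  induction s using Finset.induction_on with
  | empty => simp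
  | insert a s ha ih =>
    obtain ⟨i1, i2⟩ := ih (fun i hi => h0 i (mem_insert_of_mem hi)) (fun i hi => h1 i (mem_insert_of_mem hi))
    rw [sum_insert ha, prod_insert ha]
    have e1 := h0 a (mem_insert_self _ _)
    have e2 := h1 a (mem_insert_self _ _)
    have e3 : 0 ≤ ∏ i ∈ s, (1 - f i) := prod_nonneg (fun i hi => by linarith [h1 i (mem_insert_of_mem hi)])
    constructor
    · nlinarith
    · nlinarith

/-- Lower bound for the tail. -/
theorem tail_lower {D : Finset ℕ} {z w : ℕ} (hz : 2 * D.card ≤ z) (hz1 : 1 ≤ z) (h : z ≤ w) :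
    (1 - 2 * (D.card : ℝ) ^ 2 / z) * Sz D z ≤ Sz D w := by
  rw [Sz_split D h, mul_comm]
  refine mul_le_mul_of_nonneg_left ?_ (Sz_nonneg D z)
  have hp2 : ∀ p ∈ (Ico z w).filter Nat.Prime, 2 * D.card ≤ p ∧ z ≤ p := by
    intro p hp
    rw [mem_filter, mem_Ico] at hp
    omega
  have h1 : ∏ p ∈ (Ico z w).filter Nat.Prime, (1 - (D.card : ℝ) ^ 2 / (p : ℝ) ^ 2) ≤ ∏ p ∈ (Ico z w).filter Nat.Prime, loc D p := by
    refine prod_le_prod (fun p hp => ?_) (fun p hp => loc_lower (mem_filter.1 hp).2 (hp2 p hp).1)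
    have e1 := (hp2 p hp).1
    have e2 : (D.card : ℝ) ≤ p := by
      have : D.card ≤ p := by omega
      exact_mod_cast this
    have e3 : (0 : ℝ) < p := by exact_mod_cast (mem_filter.1 hp).2.pos
    rw [sub_nonneg, div_le_one (by positivity)]
    exact pow_le_pow_left₀ (Nat.cast_nonneg _) e2 2
  refine le_trans ?_ h1
  refine le_trans ?_ (prod_ge _ (fun p : ℕ => (D.card : ℝ) ^ 2 / (p : ℝ) ^ 2) (fun p _ => by positivity) (fun p hp => ?_)).1
  · have e1 : ∑ p ∈ (Ico z w).filter Nat.Prime, (D.card : ℝ) ^ 2 / (p : ℝ) ^ 2 ≤ 2 * (D.card : ℝ) ^ 2 / z := by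
      have e2 : ∑ p ∈ (Ico z w).filter Nat.Prime, (D.card : ℝ) ^ 2 / (p : ℝ) ^ 2 ≤ ∑ p ∈ Ioo (z - 1) w, (D.card : ℝ) ^ 2 / (p : ℝ) ^ 2 := by
        refine sum_le_sum_of_subset_of_nonneg (fun p hp => ?_) (fun _ _ _ => by positivity)
        rw [mem_filter, mem_Ico] at hp
        rw [mem_Ioo]
        omega
      refine e2.trans ?_
      have e3 := sum_Ioo_inv_sq_le (α := ℝ) (z - 1) w
      have e4 : (((z - 1 : ℕ) : ℝ)) + 1 = z := by
        rw [Nat.cast_sub hz1]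
        push_cast
        ring
      rw [e4] at e3
      have e5 : ∑ p ∈ Ioo (z - 1) w, (D.card : ℝ) ^ 2 / (p : ℝ) ^ 2 = (D.card : ℝ) ^ 2 * ∑ i ∈ Ioo (z - 1) w, ((i : ℝ) ^ 2)⁻¹ := by
        rw [mul_sum]
        exact sum_congr rfl (fun i _ => by rw [div_eq_mul_inv])
      rw [e5]
      calc (D.card : ℝ) ^ 2 * ∑ i ∈ Ioo (z - 1) w, ((i : ℝ) ^ 2)⁻¹ ≤ (D.card : ℝ) ^ 2 * (2 / z) :=
            mul_le_mul_of_nonneg_left e3 (by positivity)
        _ = 2 * (D.card : ℝ) ^ 2 / z := by ring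
    linarith
  · have e1 := (hp2 p hp).1
    have e2 : (D.card : ℝ) ≤ p := by
      have : D.card ≤ p := by omega
      exact_mod_cast this
    have e3 : (0 : ℝ) < p := by exact_mod_cast (mem_filter.1 hp).2.pos
    rw [div_le_one (by positivity)]
    exact pow_le_pow_left₀ (Nat.cast_nonneg _) e2 2

theorem SS_lower {D : Finset ℕ} {z : ℕ} (hz : 2 * D.card ≤ z) (hz1 : 1 ≤ z) : (1 - 2 * (D.card : ℝ) ^ 2 / z) * Sz D z ≤ SS D := by
  refine ge_of_tendsto (Sz_tendsto D) ?_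
  filter_upwards [eventually_ge_atTop z] with w hw
  exact tail_lower hz hz1 hw

theorem SS_nonneg (D : Finset ℕ) : 0 ≤ SS D := ge_of_tendsto' (Sz_tendsto D) (fun w => Sz_nonneg D w)

theorem prod_mono {s t : Finset ℕ} {f : ℕ → ℝ} (h : s ⊆ t) (h1 : ∀ i ∈ t, 1 ≤ f i) : ∏ i ∈ s, f i ≤ ∏ i ∈ t, f i := by
  classical
  rw [← prod_sdiff h]
  refine le_mul_of_one_le_left (prod_nonneg (fun i hi => le_trans zero_le_one (h1 i (h hi)))) ?_
  have h2 : ∀ u : Finset ℕ, u ⊆ t → 1 ≤ ∏ i ∈ u, f i := by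
    intro u
    induction u using Finset.induction_on with
    | empty => simp
    | insert a u ha ih =>
      intro hu
      rw [prod_insert ha]
      have e1 := ih (fun i hi => hu (mem_insert_of_mem hi))
      have e2 := h1 a (hu (mem_insert_self _ _))
      nlinarith
  exact h2 _ sdiff_subset

/-- Upper bound for the tail. -/
theorem tail_upper {D : Finset ℕ} {r H z z₁ y w : ℕ} (hr : D.card = r + 1) (hH : 1 ≤ H) (hD : ∀ d ∈ D, d ≤ H) (hz2 : 2 ≤ y)
    (hzy : z ≤ y) (hz₁ : z ≤ z₁) (hw : z₁ ≤ w) :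
    Sz D w ≤ Sz D z₁ * (Vf z / Vf y * Real.exp (4 * ((D.card : ℝ) ^ 2 * Real.log H) / y)) ^ r := by
  classical
  rw [Sz_split D hw]
  refine mul_le_mul_of_nonneg_left ?_ (Sz_nonneg D z₁)
  obtain ⟨q, hq⟩ : ∃ q : ℕ → ℝ, q = fun (p : ℕ) => 1 / (1 - 1 / (p : ℝ)) := ⟨_, rfl⟩
  have hq1 : ∀ p : ℕ, p.Prime → 1 ≤ q p := by
    intro p hp
    obtain ⟨t0, t1⟩ := inv_prime hp
    rw [hq]
    simp only []
    rw [le_div_iff₀ (by linarith)]
    linarith
  obtain ⟨T, hT⟩ : ∃ T : Finset ℕ, T = ((Ico z w).filter Nat.Prime).filter (fun p => nu D p < D.card) := ⟨_, rfl⟩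
  have h1 : ∏ p ∈ (Ico z₁ w).filter Nat.Prime, loc D p ≤ ∏ p ∈ (Ico z₁ w).filter Nat.Prime, (if nu D p < D.card then q p ^ r else 1) := by
    refine prod_le_prod (fun p hp => loc_nonneg D (mem_filter.1 hp).2) (fun p hp => ?_)
    split_ifs with hc
    · rw [hq]
      exact loc_upper (mem_filter.1 hp).2 hr
    · exact loc_le_one (mem_filter.1 hp).2 (le_antisymm (nu_le_card D p) (not_lt.1 hc))
  have h2 : ∏ p ∈ (Ico z₁ w).filter Nat.Prime, (if nu D p < D.card then q p ^ r else 1) ≤ ∏ p ∈ T, q p ^ r := by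
    rw [← prod_filter, hT]
    refine prod_mono ?_ ?_
    · refine filter_subset_filter _ (filter_subset_filter _ ?_)
      exact Ico_subset_Ico_left hz₁
    · intro p hp
      exact one_le_pow₀ (hq1 p (mem_filter.1 (mem_filter.1 hp).1).2)
  have h3 : ∏ p ∈ T, q p ^ r = (∏ p ∈ T, q p) ^ r := by rw [prod_pow]
  refine (h1.trans h2).trans ?_
  rw [h3]
  have hT0 : 0 ≤ ∏ p ∈ T, q p := prod_nonneg (fun p hp => by
    rw [hT] at hp
    exact le_trans zero_le_one (hq1 p (mem_filter.1 (mem_filter.1 hp).1).2))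
  refine pow_le_pow_left₀ hT0 ?_ r
  have h4 : ∏ p ∈ T, q p = (∏ p ∈ T.filter (fun p => p < y), q p) * ∏ p ∈ T.filter (fun p => ¬ p < y), q p :=
    (prod_filter_mul_prod_filter_not T (fun p => p < y) q).symm
  rw [h4]
  have h5 : ∏ p ∈ T.filter (fun p => p < y), q p ≤ Vf z / Vf y := by
    have e1 : ∏ p ∈ T.filter (fun p => p < y), q p ≤ ∏ p ∈ (Ico z y).filter Nat.Prime, q p := by
      refine prod_mono ?_ ?_
      · intro p hp
        rw [mem_filter, hT, mem_filter, mem_filter, mem_Ico] at hp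
        rw [mem_filter, mem_Ico]
        exact ⟨⟨hp.1.1.1.1, hp.2⟩, hp.1.1.2⟩
      · intro p hp
        exact hq1 p (mem_filter.1 hp).2
    refine e1.trans (le_of_eq ?_)
    have e2 : Vf y = Vf z * ∏ p ∈ (Ico z y).filter Nat.Prime, (1 - 1 / (p : ℝ)) := by
      unfold Vf
      rw [← prod_union]
      · congr 1
        rw [← filter_union]
        congr 1
        ext n
        simp only [mem_union, mem_range, mem_Ico]
        omega
      · rw [Finset.disjoint_left]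
        intro n hn hn'
        rw [mem_filter, mem_range] at hn
        rw [mem_filter, mem_Ico] at hn'
        omega
    have e3 : 0 < ∏ p ∈ (Ico z y).filter Nat.Prime, (1 - 1 / (p : ℝ)) := by
      refine prod_pos (fun p hp => ?_)
      obtain ⟨t0, t1⟩ := inv_prime (mem_filter.1 hp).2
      linarith
    have hVz := Vf_pos z
    rw [e2, hq]
    simp only []
    rw [prod_div_distrib, prod_const_one]
    field_simp
  have h6 : ∏ p ∈ T.filter (fun p => ¬ p < y), q p ≤ Real.exp (4 * ((D.card : ℝ) ^ 2 * Real.log H) / y) := by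
    have hy2 : (2 : ℝ) ≤ y := by exact_mod_cast hz2
    have e1 : ∏ p ∈ T.filter (fun p => ¬ p < y), q p ≤ ∏ p ∈ T.filter (fun p => ¬ p < y), Real.exp (2 / y) := by
      refine prod_le_prod (fun p hp => ?_) (fun p hp => ?_)
      · rw [mem_filter, hT, mem_filter, mem_filter] at hp
        exact le_trans zero_le_one (hq1 p hp.1.1.2)
      · rw [mem_filter, hT, mem_filter, mem_filter] at hp
        obtain ⟨t0, t1⟩ := inv_prime hp.1.1.2
        have e2 : (y : ℝ) ≤ p := by exact_mod_cast not_lt.1 hp.2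
        have e3 : 1 / (p : ℝ) ≤ 1 / y := one_div_le_one_div_of_le (by linarith) e2
        have e4 : 1 + 2 / (y : ℝ) ≤ Real.exp (2 / y) := by
          have := Real.add_one_le_exp (2 / (y : ℝ))
          linarith
        refine le_trans ?_ e4
        rw [hq]
        simp only []
        rw [div_le_iff₀ (by linarith)]
        have e5 : (2 : ℝ) / y = 2 * (1 / y) := by ring
        rw [e5]
        have e6 : 1 / (y : ℝ) ≤ 1 / 2 := one_div_le_one_div_of_le (by norm_num) hy2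
        nlinarith
    refine e1.trans ?_
    rw [prod_const, ← Real.exp_nat_mul, Real.exp_le_exp]
    have e2 := card_T hH hD (T.filter (fun p => ¬ p < y)) (fun p hp => by
      rw [mem_filter, hT, mem_filter, mem_filter] at hp
      exact ⟨hp.1.1.2, hp.1.2⟩)
    have hl2 := Real.log_two_gt_d9
    have e3 : ((T.filter (fun p => ¬ p < y)).card : ℝ) ≤ 2 * ((D.card : ℝ) ^ 2 * Real.log H) := by
      have : (0 : ℝ) ≤ ((T.filter (fun p => ¬ p < y)).card : ℝ) := Nat.cast_nonneg _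
      nlinarith
    have hy0 : (0 : ℝ) < y := by linarith
    rw [mul_div_assoc', div_le_div_iff_of_pos_right hy0]
    linarith
  refine mul_le_mul h5 h6 ?_ (div_nonneg (Vf_pos z).le (Vf_pos y).le)
  refine prod_nonneg (fun p hp => ?_)
  rw [mem_filter, hT, mem_filter, mem_filter] at hp
  exact le_trans zero_le_one (hq1 p hp.1.1.2)

theorem SS_upper {D : Finset ℕ} {r H z z₁ y : ℕ} (hr : D.card = r + 1) (hH : 1 ≤ H) (hD : ∀ d ∈ D, d ≤ H) (hz2 : 2 ≤ y)
    (hzy : z ≤ y) (hz₁ : z ≤ z₁) :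
    SS D ≤ Sz D z₁ * (Vf z / Vf y * Real.exp (4 * ((D.card : ℝ) ^ 2 * Real.log H) / y)) ^ r := by
  refine le_of_tendsto (Sz_tendsto D) ?_
  filter_upwards [eventually_ge_atTop z₁] with w hw
  exact tail_upper hr hH hD hz2 hzy hz₁ hw

end Pool.Agent.Q120.HL
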