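import Pool.Agent.Q120.HL.H4

/-!
# The number of tuples in the models
-/

set_option autoImplicit false

namespace Pool.Agent.Q120.HL

open Finset Filter Topology MeasureTheory Pool.Agent.Q120.GM Pool.Agent.Q120.CL Pool.Agent.Q120.MG

/-- Powers of the logarithm against powers of `x`. -/
theorem err_small (r B : ℕ) : ∀ᶠ k : ℕ in atTop, (6 * ((2 : ℝ) ^ k) ^ ((7 : ℝ) / 8) + ((2 : ℝ) ^ k) ^ ((1 : ℝ) / 2) + (k : ℝ) ^ B) ≤
    (k : ℝ) ^ (-((1 : ℝ) / 2)) * ((2 : ℝ) ^ k / (2 ^ r * (k : ℝ) ^ r)) := by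
  filter_upwards [ev_two (8 * 2 ^ r) (r + 1) (show (0 : ℝ) < 1 / 8 by norm_num), ev_two 1 B (show (0 : ℝ) < 7 / 8 by norm_num),
    eventually_ge_atTop 1] with k h1 h2 h3
  have hk1 : (1 : ℝ) ≤ k := by exact_mod_cast h3
  have hk0 : (0 : ℝ) < k := by linarith
  obtain ⟨X, hX⟩ : ∃ X : ℝ, X = 2 ^ k := ⟨_, rfl⟩
  have hX1 : 1 ≤ X := by rw [hX]; exact one_le_pow₀ (by norm_num)
  have hX0 : 0 < X := by linarith
  rw [← hX] at h1 h2 ⊢
  obtain ⟨Y, hY⟩ : ∃ Y : ℝ, Y = X ^ ((7 : ℝ) / 8) := ⟨_, rfl⟩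
  have hY0 : 0 < Y := by rw [hY]; positivity
  have e1 : X ^ ((1 : ℝ) / 2) ≤ Y := by rw [hY]; exact Real.rpow_le_rpow_of_exponent_le hX1 (by norm_num)
  have e2 : (k : ℝ) ^ B ≤ Y := by rw [hY]; linarith
  have e3 : Y * X ^ ((1 : ℝ) / 8) = X := by
    rw [hY, ← Real.rpow_add hX0]
    norm_num
  have e4 : 1 / (k : ℝ) ≤ (k : ℝ) ^ (-((1 : ℝ) / 2)) := by
    rw [one_div, ← Real.rpow_neg_one]
    exact Real.rpow_le_rpow_of_exponent_le hk1 (by norm_num)
  have e5 : 8 * Y ≤ 1 / (k : ℝ) * (X / (2 ^ r * (k : ℝ) ^ r)) := by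
    rw [div_mul_div_comm, one_mul, le_div_iff₀ (by positivity)]
    calc 8 * Y * (k * (2 ^ r * (k : ℝ) ^ r)) = Y * (8 * 2 ^ r * (k : ℝ) ^ (r + 1)) := by
          rw [pow_succ]
          ring
      _ ≤ Y * X ^ ((1 : ℝ) / 8) := mul_le_mul_of_nonneg_left h1 hY0.le
      _ = X := e3
  have e6 : 1 / (k : ℝ) * (X / (2 ^ r * (k : ℝ) ^ r)) ≤ (k : ℝ) ^ (-((1 : ℝ) / 2)) * (X / (2 ^ r * (k : ℝ) ^ r)) :=
    mul_le_mul_of_nonneg_right e4 (by positivity)
  linarith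

theorem block_x {k : ℕ} {x : ℝ} (hx1 : 2 ^ k ≤ ⌊x⌋₊) (hx2 : ⌊x⌋₊ < 2 ^ (k + 1)) :
    (2 : ℝ) ^ k ≤ x ∧ (k : ℝ) * Real.log 2 ≤ Real.log x ∧ Real.log x ≤ ((k : ℝ) + 1) * Real.log 2 := by
  have hx0 : 0 ≤ x := by
    by_contra hneg
    rw [Nat.floor_of_nonpos (by linarith)] at hx1
    have : 0 < 2 ^ k := by positivity
    omega
  have hxl := Nat.floor_le hx0
  have hxu := Nat.lt_floor_add_one x
  have hXx : (2 : ℝ) ^ k ≤ x := by
    have : ((2 ^ k : ℕ) : ℝ) ≤ ⌊x⌋₊ := by exact_mod_cast hx1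
    push_cast at this
    linarith
  have h2k : (0 : ℝ) < 2 ^ k := by positivity
  refine ⟨hXx, ?_, ?_⟩
  · rw [← Real.log_pow]
    exact Real.log_le_log h2k hXx
  · have e1 : ((⌊x⌋₊ + 1 : ℕ) : ℝ) ≤ ((2 ^ (k + 1) : ℕ) : ℝ) := by exact_mod_cast hx2
    push_cast at e1
    have e2 : x ≤ 2 ^ (k + 1) := by linarith
    have := Real.log_le_log (by linarith) e2
    rw [Real.log_pow] at this
    push_cast at this
    exact this

variable {Ω : Type*} [MeasurableSpace Ω] {μ : Measure Ω} [IsProbabilityMeasure μ] {A : Ω → Set ℕ} {z : ℕ → ℕ}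

/-- **The number of tuples** in terms of the partial singular series. -/
theorem fin (hA : IsModel μ (pr z) A) (hz : ∀ᶠ k : ℕ in atTop, 8 * z k ≤ k) (r B : ℕ) {c : ℝ} (hc : 0 < c) :
    ∀ᵐ ω ∂μ, ∀ᶠ k : ℕ in atTop, ∀ x : ℝ, 2 ^ k ≤ ⌊x⌋₊ → ⌊x⌋₊ < 2 ^ (k + 1) → ∀ D : Finset ℕ, D ⊆ range (k ^ B + 1) → D.card = r →
      ∀ S e : ℝ, c ≤ S → (4 + 4 / c) * (k : ℝ) ^ (-((1 : ℝ) / 2)) ≤ e → e ≤ 1 →
        ((∀ j, k - mm r k ≤ j → j ≤ k → Sz D (z j) ≤ (1 + e) * S) → (tup (A ω) D ⌊x⌋₊ : ℝ) ≤ (1 + 3 * e) * (S * (x / Real.log x ^ r))) ∧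
        ((∀ j, k - mm r k ≤ j → j ≤ k → (1 - e) * S ≤ Sz D (z j)) → (1 - 3 * e) * (S * (x / Real.log x ^ r)) ≤ (tup (A ω) D ⌊x⌋₊ : ℝ)) := by
  filter_upwards [conc_tup hA r B] with ω hω
  filter_upwards [hω, ED_asym r B hz, err_small r B, eventually_ge_atTop 1] with k h1 h2 h3 h4 x hx1 hx2 D hD hDr S e hS he1 he2
  have hk1 : (1 : ℝ) ≤ k := by exact_mod_cast h4
  have hk0 : (0 : ℝ) < k := by linarith
  have hconc := abs_le.1 (h1 ⌊x⌋₊ hx1 hx2 D hD hDr)
  obtain ⟨w, hw⟩ : ∃ w, w = (k : ℝ) ^ (-((1 : ℝ) / 2)) := ⟨_, rfl⟩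
  rw [← hw] at he1 h3
  have hw0 : 0 < w := by rw [hw]; positivity
  obtain ⟨hXx, hl1, hl2⟩ := block_x hx1 hx2
  have hS0 : 0 < S := lt_of_lt_of_le hc hS
  have hlog2 := Real.log_two_gt_d9
  have hlog2' := Real.log_two_lt_d9
  have hlx : 0 < Real.log x := lt_of_lt_of_le (by positivity) hl1
  have hX0 : (0 : ℝ) < 2 ^ k := by positivity
  obtain ⟨R, hR⟩ : ∃ R, R = x / Real.log x ^ r := ⟨_, rfl⟩
  rw [← hR]
  have hR0 : 0 < R := by rw [hR]; exact div_pos (by linarith) (by positivity)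
  have hRl : (2 : ℝ) ^ k / (2 ^ r * (k : ℝ) ^ r) ≤ R := by
    rw [hR]
    refine div_le_div₀ (by linarith) hXx (by positivity) ?_
    rw [← mul_pow]
    refine pow_le_pow_left₀ hlx.le ?_ r
    nlinarith
  have herr : 3 * ((2 : ℝ) ^ k) ^ ((7 : ℝ) / 8) ≤ w * R := by
    have e1 : w * ((2 : ℝ) ^ k / (2 ^ r * (k : ℝ) ^ r)) ≤ w * R := mul_le_mul_of_nonneg_left hRl hw0.le
    have e2 : 0 ≤ ((2 : ℝ) ^ k) ^ ((7 : ℝ) / 8) := by positivity
    have e3 : 0 ≤ ((2 : ℝ) ^ k) ^ ((1 : ℝ) / 2) := by positivity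
    have e4 : 0 ≤ (k : ℝ) ^ B := by positivity
    linarith
  have hwS : w ≤ w / c * S := by
    rw [div_mul_eq_mul_div, le_div_iff₀ hc]
    nlinarith
  have hw4 : 4 * w + 4 * (w / c) ≤ e := by
    refine le_trans (le_of_eq ?_) he1
    ring
  have hwc : 0 < w / c := by positivity
  constructor
  · intro hup
    have e1 := (h2 x hx1 hx2 D hD hDr ((1 + e) * S) (by nlinarith)).1 hup
    rw [← hw, ← hR] at e1
    have e2 : (tup (A ω) D ⌊x⌋₊ : ℝ) ≤ (((1 + e) * S * (1 + w) + w) + w) * R := by linarith [hconc.2]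
    refine e2.trans ?_
    rw [← mul_assoc]
    refine mul_le_mul_of_nonneg_right ?_ hR0.le
    have e3 : (1 + e) * (1 + w) + 2 * (w / c) ≤ 1 + 3 * e := by nlinarith
    calc (1 + e) * S * (1 + w) + w + w ≤ ((1 + e) * (1 + w) + 2 * (w / c)) * S := by
          linarith
      _ ≤ (1 + 3 * e) * S := mul_le_mul_of_nonneg_right e3 hS0.le
  · intro hlo
    have he0 : 0 ≤ e := by linarith
    have e1 := (h2 x hx1 hx2 D hD hDr ((1 - e) * S) (by nlinarith)).2 hlo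
    rw [← hw, ← hR] at e1
    have e2 : (((1 - e) * S * (1 - w) - (1 + (1 - e) * S) * w) - w) * R ≤ (tup (A ω) D ⌊x⌋₊ : ℝ) := by linarith [hconc.1]
    refine le_trans ?_ e2
    rw [← mul_assoc]
    refine mul_le_mul_of_nonneg_right ?_ hR0.le
    have e3 : 1 - 3 * e ≤ (1 - e) * (1 - w) - (1 - e) * w - 2 * (w / c) := by nlinarith
    calc (1 - 3 * e) * S ≤ ((1 - e) * (1 - w) - (1 - e) * w - 2 * (w / c)) * S := mul_le_mul_of_nonneg_right e3 hS0.le
      _ ≤ (1 - e) * S * (1 - w) - (1 + (1 - e) * S) * w - w := by linarith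

/-- The count in one block. -/
theorem neg (hA : IsModel μ (pr z) A) (hz : ∀ᶠ k : ℕ in atTop, 8 * z k ≤ k) (r B : ℕ) :
    ∀ᵐ ω ∂μ, ∀ᶠ k : ℕ in atTop, ∀ D : Finset ℕ, D ⊆ range ((k - 1) ^ B + 1) → D.card = r → ∀ S ε : ℝ, 0 ≤ S → 0 ≤ ε → ε ≤ 1 →
      (1 - ε) * (S * ((2 ^ (k + 1) - 1 : ℝ) / Real.log (2 ^ (k + 1) - 1) ^ r)) ≤ tup (A ω) D (2 ^ (k + 1) - 1) →
      tup (A ω) D (2 ^ k - 1) ≤ (1 + ε) * (S * ((2 ^ k - 1 : ℝ) / Real.log (2 ^ k - 1) ^ r)) →
      S * (1 - 3 * ε - 8 * (k : ℝ) ^ (-((1 : ℝ) / 2))) ≤ Sz D (z k) + (k : ℝ) ^ (-((1 : ℝ) / 2)) := by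
  have hHV : HV z := HV_of_le (by filter_upwards [hz] with k hk; omega)
  filter_upwards [conc_tup hA r B] with ω hω
  obtain ⟨K, hK⟩ := eventually_atTop.1 hω
  filter_upwards [err_small r B, hq_ev' hHV, hz, eventually_ge_atTop (K + 4), hcast.eventually_ge_atTop ((4 : ℝ) ^ (r + 4)),
    ev_two 1 r (show (0 : ℝ) < 1 / 4 by norm_num)]
    with k h1 h2 h3 h4 h5 h6 D hD hDr S ε hS hε0 hε1 hlo hup
  have hk4 : (4 : ℝ) ≤ k := by
    have : 4 ≤ k := by omega
    exact_mod_cast this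
  have hk0 : (0 : ℝ) < k := by linarith
  have hk1 : (1 : ℝ) ≤ k := by linarith
  obtain ⟨w, hw⟩ : ∃ w, w = (k : ℝ) ^ (-((1 : ℝ) / 2)) := ⟨_, rfl⟩
  rw [← hw] at h1 ⊢
  have hw0 : 0 < w := by rw [hw]; positivity
  have hw1 : w ≤ 1 := by
    rw [hw]
    exact Real.rpow_le_one_of_one_le_of_nonpos hk1 (by norm_num)
  have hwk : w * w * k = 1 := by
    rw [hw, ← Real.rpow_add hk0]
    nth_rewrite 2 [← Real.rpow_one (k : ℝ)]
    rw [← Real.rpow_add hk0]
    norm_num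
  obtain ⟨X, hX⟩ : ∃ X : ℝ, X = 2 ^ k := ⟨_, rfl⟩
  have hX1 : 1 ≤ X := by rw [hX]; exact one_le_pow₀ (by norm_num)
  have hX0 : 0 < X := by linarith
  have hlX : Real.log X = k * Real.log 2 := by rw [hX, Real.log_pow]
  rw [← hX] at h1 h6
  obtain ⟨l, hl⟩ : ∃ l, l = Real.log 2 := ⟨_, rfl⟩
  have hl1 : 1 / 2 ≤ l := by
    have := Real.log_two_gt_d9
    rw [hl]
    linarith
  have hl2 : l ≤ 1 := by
    have := Real.log_two_lt_d9
    rw [hl]
    linarith
  have hXk : (k : ℝ) ≤ X := by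
    have : (k : ℝ) < 2 ^ k := by exact_mod_cast Nat.lt_two_pow_self
    rw [hX]
    linarith
  -- the sets
  have hDk : D ⊆ range (k ^ B + 1) := by
    refine hD.trans (range_subset_range.2 ?_)
    have : (k - 1) ^ B ≤ k ^ B := Nat.pow_le_pow_left (by omega) B
    omega
  have hDH : ∀ d ∈ D, d ≤ k ^ B := fun d hd => by
    have := mem_range.1 (hDk hd)
    omega
  have h2k : 0 < 2 ^ k := by positivity
  have hpow : 2 ^ (k + 1) = 2 * 2 ^ k := by rw [pow_succ]; ring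
  have hk11 : 2 ^ (k - 1) + 2 ^ (k - 1) = 2 ^ k := by
    have : 2 ^ k = 2 ^ (k - 1 + 1) := by congr 1; omega
    rw [this, pow_succ]
    ring
  have h2k1 : 0 < 2 ^ (k - 1) := by positivity
  have c1 := abs_le.1 (hK k (by omega) (2 ^ (k + 1) - 1) (by omega) (by omega) D hDk hDr)
  have c0 := abs_le.1 (hK (k - 1) (by omega) (2 ^ k - 1) (by omega) (by
    have : 2 ^ (k - 1 + 1) = 2 ^ k := by congr 1; omega
    omega) D hD hDr)
  have hsum : ED (pr z) D (2 ^ (k + 1) - 1) - ED (pr z) D (2 ^ k - 1) = ∑ n ∈ Ico (2 ^ k) (2 ^ k + 2 ^ k), pt (pr z) D n := by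
    unfold ED
    have e1 : 2 ^ (k + 1) - 1 + 1 = 2 ^ k + 2 ^ k := by omega
    have e2 : 2 ^ k - 1 + 1 = 2 ^ k := by omega
    rw [e1, e2, range_eq_Ico, range_eq_Ico, ← sum_Ico_consecutive _ (Nat.zero_le (2 ^ k)) (by omega : 2 ^ k ≤ 2 ^ k + 2 ^ k)]
    ring
  have hE : PQ (z k) / Vf (z k) ^ D.card ≤ X ^ ((1 : ℝ) / 2) := by
    have hV := Vf_pos (z k)
    have hzr : (z k : ℝ) ≤ k / 8 := by
      have : ((8 * z k : ℕ) : ℝ) ≤ k := by exact_mod_cast h3
      push_cast at this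
      linarith
    have e1 : (PQ (z k) : ℝ) ≤ X ^ ((1 : ℝ) / 4) := by
      have e2 : (PQ (z k) : ℝ) ≤ (4 : ℝ) ^ (z k) := by exact_mod_cast PQ_le (z k)
      refine e2.trans ?_
      have e3 : (4 : ℝ) ^ (z k) = Real.exp ((z k) * Real.log 4) := by
        rw [← Real.rpow_natCast, Real.rpow_def_of_pos (by norm_num)]
        congr 1
        ring
      have e4 : Real.log 4 = 2 * Real.log 2 := by
        rw [show (4 : ℝ) = 2 ^ 2 by norm_num, Real.log_pow]
        norm_num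
      rw [e3, Real.rpow_def_of_pos hX0, Real.exp_le_exp, hlX, e4, ← hl]
      nlinarith
    have e5 : 1 / Vf (z k) ^ D.card ≤ X ^ ((1 : ℝ) / 4) := by
      have f1 : 1 / Vf (z k) ≤ k := by
        have f2 := le_Vf2 (z k)
        rw [div_le_iff₀ hV]
        rw [div_le_iff₀ (by positivity)] at f2
        nlinarith
      rw [hDr, ← one_div_pow]
      calc (1 / Vf (z k)) ^ r ≤ (k : ℝ) ^ r := pow_le_pow_left₀ (by positivity) f1 r
        _ ≤ X ^ ((1 : ℝ) / 4) := by linarith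
    calc (PQ (z k) : ℝ) / Vf (z k) ^ D.card = PQ (z k) * (1 / Vf (z k) ^ D.card) := by ring
      _ ≤ X ^ ((1 : ℝ) / 4) * X ^ ((1 : ℝ) / 4) := mul_le_mul e1 e5 (by positivity) (by positivity)
      _ = X ^ ((1 : ℝ) / 2) := by
        rw [← Real.rpow_add hX0]
        norm_num
  have hS' := (part_sum (t := 2 ^ k) (by omega) h2 hDH le_rfl (Sz_nonneg D (z k)) hE).1 le_rfl
  rw [hDr] at hS'
  push_cast at hS'
  rw [← hX, ← hl] at hS'
  -- the upper bound for the block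
  have hkl1 : 1 ≤ (k : ℝ) * l := by nlinarith
  have hklr : 1 ≤ ((k : ℝ) * l) ^ r := one_le_pow₀ hkl1
  have hklr2 : ((k : ℝ) * l) ^ r ≤ 2 ^ r * (k : ℝ) ^ r := by
    rw [← mul_pow]
    refine pow_le_pow_left₀ (by positivity) ?_ r
    nlinarith
  obtain ⟨U, hU⟩ : ∃ U, U = X / (k * l) ^ r := ⟨_, rfl⟩
  have hU0 : 0 < U := by rw [hU]; positivity
  have herr : 6 * X ^ ((7 : ℝ) / 8) + X ^ ((1 : ℝ) / 2) + (k : ℝ) ^ B ≤ w * U := by
    refine h1.trans (mul_le_mul_of_nonneg_left ?_ hw0.le)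
    rw [hU]
    exact div_le_div_of_nonneg_left hX0.le (by positivity) hklr2
  have hX78 : ((2 : ℝ) ^ (k - 1)) ^ ((7 : ℝ) / 8) ≤ X ^ ((7 : ℝ) / 8) := by
    rw [hX]
    refine Real.rpow_le_rpow (by positivity) (pow_le_pow_right₀ (by norm_num) (by omega)) (by norm_num)
  rw [← hX] at c1
  have hblock : (tup (A ω) D (2 ^ (k + 1) - 1) : ℝ) - tup (A ω) D (2 ^ k - 1) ≤ (Sz D (z k) + w) * U := by
    have e1 : (Sz D (z k) * X + X ^ ((1 : ℝ) / 2)) / ((k : ℝ) * l) ^ r ≤ Sz D (z k) * U + X ^ ((1 : ℝ) / 2) := by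
      rw [add_div, hU]
      refine add_le_add (le_of_eq (by ring)) (div_le_self (by positivity) hklr)
    linarith [c1.2, c0.1]
  -- the lower bound for the block
  have hcast1 : (2 : ℝ) ^ (k + 1) - 1 = 2 * X - 1 := by rw [hX, pow_succ]; ring
  rw [hcast1] at hlo
  rw [← hX] at hup
  have hlogU : Real.log (2 * X - 1) ≤ ((k : ℝ) + 1) * l := by
    have e1 : Real.log (2 * X) = ((k : ℝ) + 1) * l := by
      rw [Real.log_mul (by norm_num) hX0.ne', hlX, ← hl]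
      ring
    rw [← e1]
    exact Real.log_le_log (by linarith) (by linarith)
  have hlogL : ((k : ℝ) - 1) * l ≤ Real.log (X - 1) := by
    have e1 : Real.log (X / 2) = ((k : ℝ) - 1) * l := by
      rw [Real.log_div hX0.ne' (by norm_num), hlX, ← hl]
      ring
    rw [← e1]
    exact Real.log_le_log (by positivity) (by linarith)
  have hrw : (r : ℝ) / k ≤ w / 4 := by
    rw [div_le_iff₀ hk0]
    have g1 : (2 : ℝ) ^ r * 4 ≤ w * k := by
      have g2 : ((2 : ℝ) ^ r * 4) * (2 ^ r * 4) ≤ k := by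
        refine le_trans ?_ h5
        have : (4 : ℝ) ^ (r + 4) = ((2 : ℝ) ^ r * 4) * (2 ^ r * 4) * 16 := by
          rw [show (4 : ℝ) = 2 * 2 by norm_num, mul_pow, pow_add]
          ring
        rw [this]
        nlinarith [show (0 : ℝ) < (2 : ℝ) ^ r * 4 by positivity]
      by_contra hcon
      push Not at hcon
      have g8 : (w * k) * (w * k) < (2 ^ r * 4) * (2 ^ r * 4) := mul_self_lt_mul_self (by positivity) hcon
      have g9 : (w * k) * (w * k) = k := by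
        calc (w * k) * (w * k) = (w * w * k) * k := by ring
          _ = k := by rw [hwk, one_mul]
      linarith
    have g3 : (r : ℝ) ≤ 2 ^ r := by exact_mod_cast Nat.lt_two_pow_self.le
    linarith
  have hlow : (2 - 2 * w) * U ≤ (2 * X - 1) / Real.log (2 * X - 1) ^ r := by
    have hlogpos : 0 < Real.log (2 * X - 1) := Real.log_pos (by linarith)
    have e1 : (1 - w / 4) * Real.log (2 * X - 1) ^ r ≤ (k * l) ^ r := by
      have f1 : 1 - w / 4 ≤ (1 - 1 / ((k : ℝ) + 1)) ^ r := by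
        have f2 := one_add_mul_le_pow (show (-2 : ℝ) ≤ -(1 / ((k : ℝ) + 1)) by
          have : 1 / ((k : ℝ) + 1) ≤ 1 := by
            rw [div_le_one (by positivity)]
            linarith
          linarith) r
        have f3 : (r : ℝ) * (1 / ((k : ℝ) + 1)) ≤ r / k := by
          rw [mul_one_div]
          exact div_le_div_of_nonneg_left (Nat.cast_nonneg r) hk0 (by linarith)
        have f4 : (1 + -(1 / ((k : ℝ) + 1))) ^ r = (1 - 1 / ((k : ℝ) + 1)) ^ r := by ring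
        linarith
      have f5 : Real.log (2 * X - 1) ^ r ≤ (((k : ℝ) + 1) * l) ^ r := pow_le_pow_left₀ hlogpos.le hlogU r
      have f6 : (1 - 1 / ((k : ℝ) + 1)) * (((k : ℝ) + 1) * l) = k * l := by field_simp; ring
      calc (1 - w / 4) * Real.log (2 * X - 1) ^ r ≤ (1 - 1 / ((k : ℝ) + 1)) ^ r * (((k : ℝ) + 1) * l) ^ r := by
            refine mul_le_mul f1 f5 (by positivity) (le_trans (by linarith) f1)
        _ = (k * l) ^ r := by rw [← mul_pow, f6]
    rw [le_div_iff₀ (by positivity), hU]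
    have e2 : (2 - 2 * w) * (X / (k * l) ^ r) * Real.log (2 * X - 1) ^ r = (2 - 2 * w) * X * (Real.log (2 * X - 1) ^ r / (k * l) ^ r) := by ring
    rw [e2]
    have e3 : (1 - w / 4) * (Real.log (2 * X - 1) ^ r / (k * l) ^ r) ≤ 1 := by
      rw [mul_div_assoc', div_le_one (by positivity)]
      exact e1
    have e4 : 0 ≤ Real.log (2 * X - 1) ^ r / (k * l) ^ r := by positivity
    have e5 : 1 / w ≤ X := by
      have : 1 / w = w * k := by
        rw [div_eq_iff hw0.ne']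
        linarith
      rw [this]
      nlinarith
    rw [div_le_iff₀ hw0] at e5
    have e6 : (2 - 2 * w) ≤ (2 - w) * (1 - w / 4) := by nlinarith
    calc (2 - 2 * w) * X * (Real.log (2 * X - 1) ^ r / (k * l) ^ r)
        ≤ (2 - w) * (1 - w / 4) * X * (Real.log (2 * X - 1) ^ r / (k * l) ^ r) :=
          mul_le_mul_of_nonneg_right (mul_le_mul_of_nonneg_right e6 hX0.le) e4
      _ = (2 - w) * X * ((1 - w / 4) * (Real.log (2 * X - 1) ^ r / (k * l) ^ r)) := by ring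
      _ ≤ (2 - w) * X * 1 := mul_le_mul_of_nonneg_left e3 (mul_nonneg (by linarith) hX0.le)
      _ ≤ 2 * X - 1 := by linarith
  have hupp : (X - 1) / Real.log (X - 1) ^ r ≤ (1 + w) * U := by
    have hkm : 0 < ((k : ℝ) - 1) * l := mul_pos (by linarith) (by linarith)
    have e1 : (k * l) ^ r ≤ (1 + w) * (((k : ℝ) - 1) * l) ^ r := by
      have f1 : (k : ℝ) * l = (1 + 1 / ((k : ℝ) - 1)) * (((k : ℝ) - 1) * l) := by
        have : (k : ℝ) - 1 ≠ 0 := by linarith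
        field_simp
        ring
      have f2 : (1 + 1 / ((k : ℝ) - 1)) ^ r ≤ 1 + w := by
        have g1 : ∀ (s : ℕ) (t : ℝ), 0 ≤ t → t ≤ 1 → (1 + t) ^ s ≤ 1 + (2 ^ s - 1) * t := by
          intro s t ht0 ht1
          induction s with
          | zero => simp
          | succ s ih =>
            rw [pow_succ, pow_succ]
            have e2 : (1 : ℝ) ≤ 2 ^ s := one_le_pow₀ (by norm_num)
            nlinarith [mul_nonneg (sub_nonneg.2 e2) (mul_nonneg ht0 (sub_nonneg.2 ht1))]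
        have g2 : 1 / ((k : ℝ) - 1) ≤ 2 / k := by
          rw [div_le_div_iff₀ (by linarith) hk0]
          linarith
        have g3 : 0 ≤ 1 / ((k : ℝ) - 1) := by
          have : 0 < (k : ℝ) - 1 := by linarith
          positivity
        have g4 : 2 / (k : ℝ) ≤ 1 := by
          rw [div_le_one hk0]
          linarith
        refine (g1 r _ g3 (g2.trans g4)).trans ?_
        have g5 : (2 ^ r - 1) * (1 / ((k : ℝ) - 1)) ≤ 2 ^ r * (2 / k) := by
          refine mul_le_mul (by linarith) g2 g3 (by positivity)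
        have g6 : 2 ^ r * (2 / (k : ℝ)) ≤ w := by
          rw [mul_div_assoc', div_le_iff₀ hk0]
          have g7 : ((2 : ℝ) ^ r * 2) * (2 ^ r * 2) ≤ k := by
            refine le_trans ?_ h5
            have : (4 : ℝ) ^ (r + 4) = ((2 : ℝ) ^ r * 2) * (2 ^ r * 2) * 64 := by
              rw [show (4 : ℝ) = 2 * 2 by norm_num, mul_pow, pow_add]
              ring
            rw [this]
            nlinarith [show (0 : ℝ) < (2 : ℝ) ^ r * 2 by positivity]
          by_contra hcon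
          push Not at hcon
          have g8 : (w * k) * (w * k) < (2 ^ r * 2) * (2 ^ r * 2) := mul_self_lt_mul_self (by positivity) hcon
          have g9 : (w * k) * (w * k) = k := by
            calc (w * k) * (w * k) = (w * w * k) * k := by ring
              _ = k := by rw [hwk, one_mul]
          linarith
        linarith
      calc (k * l) ^ r = (1 + 1 / ((k : ℝ) - 1)) ^ r * (((k : ℝ) - 1) * l) ^ r := by
            rw [← mul_pow, ← f1]
        _ ≤ (1 + w) * (((k : ℝ) - 1) * l) ^ r := mul_le_mul_of_nonneg_right f2 (by positivity)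
    have e2 : (((k : ℝ) - 1) * l) ^ r ≤ Real.log (X - 1) ^ r := pow_le_pow_left₀ hkm.le hlogL r
    have hLpos : 0 < Real.log (X - 1) ^ r := lt_of_lt_of_le (by positivity) e2
    rw [div_le_iff₀ hLpos, hU]
    have e3 : 1 ≤ (1 + w) * (Real.log (X - 1) ^ r / (k * l) ^ r) := by
      rw [mul_div_assoc', le_div_iff₀ (by positivity), one_mul]
      exact e1.trans (mul_le_mul_of_nonneg_left e2 (by linarith))
    calc X - 1 ≤ X * 1 := by linarith
      _ ≤ X * ((1 + w) * (Real.log (X - 1) ^ r / (k * l) ^ r)) := mul_le_mul_of_nonneg_left e3 hX0.le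
      _ = (1 + w) * (X / (k * l) ^ r) * Real.log (X - 1) ^ r := by ring
  have hfin : (S * (1 - 3 * ε - 8 * w)) * U ≤ (Sz D (z k) + w) * U := by
    refine le_trans ?_ hblock
    have e1 : (1 - ε) * (S * ((2 - 2 * w) * U)) ≤ (1 - ε) * (S * ((2 * X - 1) / Real.log (2 * X - 1) ^ r)) :=
      mul_le_mul_of_nonneg_left (mul_le_mul_of_nonneg_left hlow hS) (by linarith)
    have e2 : (1 + ε) * (S * ((X - 1) / Real.log (X - 1) ^ r)) ≤ (1 + ε) * (S * ((1 + w) * U)) :=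
      mul_le_mul_of_nonneg_left (mul_le_mul_of_nonneg_left hupp hS) (by linarith)
    have e3 : (S * (1 - 3 * ε - 8 * w)) * U ≤ (1 - ε) * (S * ((2 - 2 * w) * U)) - (1 + ε) * (S * ((1 + w) * U)) := by
      have f1 : (1 - ε) * (S * ((2 - 2 * w) * U)) - (1 + ε) * (S * ((1 + w) * U)) =
          (S * U) * ((1 - ε) * (2 - 2 * w) - (1 + ε) * (1 + w)) := by ring
      rw [f1]
      have f2 : (S * (1 - 3 * ε - 8 * w)) * U = (S * U) * (1 - 3 * ε - 8 * w) := by ring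
      rw [f2]
      refine mul_le_mul_of_nonneg_left ?_ (by positivity)
      nlinarith [mul_nonneg hε0 hw0.le]
    linarith
  exact le_of_mul_le_mul_right hfin hU0

end Pool.Agent.Q120.HL
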