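import Pool.Agent.Q120.HL.H6

/-!
# Uniform laws and their failures
-/

set_option autoImplicit false

namespace Pool.Agent.Q120.HL

open Finset Filter Topology MeasureTheory Pool.Agent.Q120.GM Pool.Agent.Q120.CL Pool.Agent.Q120.MG

/-- The set `{0, P, 2 P, …, r P}`, `P` the product of the primes below `y`. -/
def Dy (r y : ℕ) : Finset ℕ := (range (r + 1)).image (fun i => i * PQ y)

theorem Dy_card (r y : ℕ) : (Dy r y).card = r + 1 := by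
  unfold Dy
  rw [card_image_of_injective, card_range]
  intro a b hab
  exact Nat.eq_of_mul_eq_mul_right (PQ_pos y) hab

theorem Dy_le {r y d : ℕ} (hd : d ∈ Dy r y) : d ≤ r * 4 ^ y := by
  unfold Dy at hd
  rw [mem_image] at hd
  obtain ⟨i, hi, rfl⟩ := hd
  have := mem_range.1 hi
  exact Nat.mul_le_mul (by omega) (PQ_le y)

theorem nu_Dy (r : ℕ) {p y : ℕ} (hp : p.Prime) (h : p < y) : nu (Dy r y) p = 1 := by
  unfold nu
  rw [card_eq_one]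
  refine ⟨0, ?_⟩
  have h1 : p ∣ PQ y := dvd_prod_of_mem _ (mem_filter.2 ⟨mem_range.2 h, hp⟩)
  ext m
  rw [mem_image, mem_singleton]
  constructor
  · rintro ⟨n, hn, rfl⟩
    unfold Dy at hn
    rw [mem_image] at hn
    obtain ⟨i, _, rfl⟩ := hn
    exact Nat.mod_eq_zero_of_dvd (h1.mul_left i)
  · rintro rfl
    refine ⟨0, ?_, Nat.zero_mod p⟩
    unfold Dy
    rw [mem_image]
    exact ⟨0, mem_range.2 (by omega), by simp⟩

theorem Sz_Dy (r : ℕ) {w y : ℕ} (h : w ≤ y) : Sz (Dy r y) w = (1 / Vf w) ^ r := by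
  unfold Sz Vf
  rw [one_div_pow, ← prod_pow, one_div, ← prod_inv_distrib]
  refine prod_congr rfl (fun p hp => ?_)
  have hp1 := mem_range.1 (mem_filter.1 hp).1
  obtain ⟨t0, t1⟩ := inv_prime (mem_filter.1 hp).2
  rw [loc_eq, nu_Dy r (mem_filter.1 hp).2 (by omega), Dy_card, pow_succ, Nat.cast_one, one_mul]
  have e1 : 1 - 1 / (p : ℝ) ≠ 0 := by linarith
  have e2 : (1 - 1 / (p : ℝ)) ^ r ≠ 0 := pow_ne_zero _ e1
  obtain ⟨s, hs⟩ : ∃ s, s = 1 - 1 / (p : ℝ) := ⟨_, rfl⟩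
  rw [← hs] at e1 e2 ⊢
  field_simp

theorem SS_Dy {r y : ℕ} (h : 2 * (r + 1) ≤ y) : (1 - 2 * ((r : ℝ) + 1) ^ 2 / y) * (1 / Vf y) ^ r ≤ SS (Dy r y) := by
  have h1 := SS_lower (D := Dy r y) (z := y) (by rw [Dy_card]; omega) (by omega)
  rw [Sz_Dy r le_rfl, Dy_card] at h1
  push_cast at h1
  exact h1

theorem SS_Dy_pos {r y : ℕ} (h : 2 * (r + 1) ≤ y) (h' : 2 * ((r : ℝ) + 1) ^ 2 / y < 1) : 0 < SS (Dy r y) := by
  have h1 := Vf_pos y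
  exact lt_of_lt_of_le (mul_pos (by linarith) (by positivity)) (SS_Dy h)

/-- The elements are small. -/
theorem Dy_small (r : ℕ) : ∀ᶠ k : ℕ in atTop, ∀ d ∈ Dy r ⌊Real.log (k : ℝ)⌋₊, (d : ℝ) ≤ (((k : ℝ) - 1) * (1 / 2)) ^ 2 := by
  have h1 : Tendsto (fun k : ℕ => (k : ℝ) ^ ((1 : ℝ) / 2)) atTop atTop := (tendsto_rpow_atTop (by norm_num)).comp hcast
  filter_upwards [h1.eventually_ge_atTop (16 * (r : ℝ)), eventually_ge_atTop 2] with k h2 h3 d hd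
  have hk2 : (2 : ℝ) ≤ k := by exact_mod_cast h3
  have hk0 : (0 : ℝ) < k := by linarith
  have e1 : (d : ℝ) ≤ r * (4 : ℝ) ^ ⌊Real.log (k : ℝ)⌋₊ := by exact_mod_cast Dy_le hd
  have e2 : (4 : ℝ) ^ ⌊Real.log (k : ℝ)⌋₊ ≤ (k : ℝ) ^ ((3 : ℝ) / 2) := by
    have f1 := Nat.floor_le (Real.log_natCast_nonneg k)
    calc (4 : ℝ) ^ ⌊Real.log (k : ℝ)⌋₊ = (4 : ℝ) ^ ((⌊Real.log (k : ℝ)⌋₊ : ℕ) : ℝ) := (Real.rpow_natCast _ _).symm
      _ ≤ (4 : ℝ) ^ Real.log (k : ℝ) := Real.rpow_le_rpow_of_exponent_le (by norm_num) f1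
      _ = (k : ℝ) ^ Real.log 4 := by
        rw [Real.rpow_def_of_pos (by norm_num), Real.rpow_def_of_pos hk0, mul_comm]
      _ ≤ (k : ℝ) ^ ((3 : ℝ) / 2) := by
        refine Real.rpow_le_rpow_of_exponent_le (by linarith) ?_
        rw [show (4 : ℝ) = 2 ^ 2 by norm_num, Real.log_pow]
        have := Real.log_two_lt_d9
        push_cast
        linarith
  have e3 : (k : ℝ) ^ ((3 : ℝ) / 2) * (k : ℝ) ^ ((1 : ℝ) / 2) = (k : ℝ) ^ 2 := by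
    rw [← Real.rpow_add hk0, ← Real.rpow_two]
    norm_num
  have e4 : 0 < (k : ℝ) ^ ((3 : ℝ) / 2) := by positivity
  have e5 : 16 * (d : ℝ) ≤ (k : ℝ) ^ 2 := by
    have f0 : (0 : ℝ) ≤ r := Nat.cast_nonneg r
    calc 16 * (d : ℝ) ≤ 16 * (r * (k : ℝ) ^ ((3 : ℝ) / 2)) := by
          have := mul_le_mul_of_nonneg_left e2 f0
          linarith
      _ = (k : ℝ) ^ ((3 : ℝ) / 2) * (16 * r) := by ring
      _ ≤ (k : ℝ) ^ ((3 : ℝ) / 2) * (k : ℝ) ^ ((1 : ℝ) / 2) := mul_le_mul_of_nonneg_left h2 e4.le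
      _ = (k : ℝ) ^ 2 := e3
  nlinarith

/-- For all large `x` all sets of `r` elements of `[0, (log x) ^ B]` with nonzero singular series `𝔖` have between
`lo · 𝔖 x / (log x) ^ r` and `hi · 𝔖 x / (log x) ^ r` translates `n - D` in `S`, `n ≤ x`. -/
def Law (S : Set ℕ) (r B : ℕ) (lo hi : ℝ) : Prop :=
  ∃ X : ℝ, ∀ x : ℝ, X ≤ x → ∀ D : Finset ℕ, (∀ d ∈ D, (d : ℝ) ≤ Real.log x ^ B) → D.card = r → SS D ≠ 0 →
    lo * (SS D * (x / Real.log x ^ r)) ≤ tup S D ⌊x⌋₊ ∧ (tup S D ⌊x⌋₊ : ℝ) ≤ hi * (SS D * (x / Real.log x ^ r))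

theorem log_le_k {k : ℕ} {x : ℝ} (hk : 3 ≤ k) (hx1 : 2 ^ k ≤ ⌊x⌋₊) (hx2 : ⌊x⌋₊ < 2 ^ (k + 1)) : Real.log x ≤ k := by
  obtain ⟨_, _, h3⟩ := block_x hx1 hx2
  have h4 := Real.log_two_lt_d9
  have h5 : (3 : ℝ) ≤ k := by exact_mod_cast hk
  nlinarith

theorem sub_range {k B : ℕ} {x : ℝ} (hk : 3 ≤ k) (hx1 : 2 ^ k ≤ ⌊x⌋₊) (hx2 : ⌊x⌋₊ < 2 ^ (k + 1)) {D : Finset ℕ}
    (hD : ∀ d ∈ D, (d : ℝ) ≤ Real.log x ^ B) : D ⊆ range (k ^ B + 1) := by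
  intro d hd
  rw [mem_range]
  have h1 := hD d hd
  obtain ⟨h0, h2, _⟩ := block_x hx1 hx2
  have hl : 0 ≤ Real.log x := le_trans (by have := Real.log_two_gt_d9; positivity) h2
  have h3 : Real.log x ^ B ≤ (k : ℝ) ^ B := pow_le_pow_left₀ hl (log_le_k hk hx1 hx2) B
  have h4 : (d : ℝ) ≤ ((k ^ B : ℕ) : ℝ) := by push_cast; linarith
  have h5 : d ≤ k ^ B := by exact_mod_cast h4
  omega

theorem exists_block {K : ℕ} {x : ℝ} (hx : (2 : ℝ) ^ K ≤ x) : ∃ k, K ≤ k ∧ 2 ^ k ≤ ⌊x⌋₊ ∧ ⌊x⌋₊ < 2 ^ (k + 1) := by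
  have h1 : 2 ^ K ≤ ⌊x⌋₊ := Nat.le_floor (by push_cast; exact hx)
  have h2 : ⌊x⌋₊ ≠ 0 := by
    have : 0 < 2 ^ K := by positivity
    omega
  refine ⟨Nat.log 2 ⌊x⌋₊, ?_, Nat.pow_log_le_self 2 h2, Nat.lt_pow_succ_log_self (by norm_num) _⟩
  exact (Nat.le_log_iff_pow_le (by norm_num) h2).2 h1

variable {Ω : Type*} [MeasurableSpace Ω] {μ : Measure Ω} [IsProbabilityMeasure μ] {A : Ω → Set ℕ} {z : ℕ → ℕ}

theorem z_top {θ : ℝ} (hθ : 0 < θ) (hlow : ∀ δ : ℝ, 0 < δ → ∀ᶠ k : ℕ in atTop, Real.log k ^ (θ - δ) ≤ z k) : Tendsto z atTop atTop := by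
  have h1 : Tendsto (fun k : ℕ => Real.log (k : ℝ) ^ (θ - θ / 2)) atTop atTop := (tendsto_rpow_atTop (by linarith)).comp log_tend
  exact tendsto_natCast_atTop_iff.1 (tendsto_atTop_mono' _ (hlow (θ / 2) (by linarith)) h1)

/-- **The uniform law.** -/
theorem law_ae (hA : IsModel μ (pr z) A) (hz : ∀ᶠ k : ℕ in atTop, 8 * z k ≤ k) (r B : ℕ) {θ : ℝ} (hθ : 0 < θ) (hθ1 : θ ≤ 1)
    (hlow : ∀ δ : ℝ, 0 < δ → ∀ᶠ k : ℕ in atTop, Real.log k ^ (θ - δ) ≤ z k) {ε : ℝ} (hε : 0 < ε) :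
    ∀ᵐ ω ∂μ, Law (A ω) (r + 1) B (θ ^ r - ε) (1 + ε) := by
  obtain ⟨c0, hc0, hc⟩ := cr_pos (r + 1)
  have hθr : 0 < θ ^ r := by positivity
  obtain ⟨κ, hκ⟩ : ∃ κ, κ = max (θ ^ r - ε / 2) (θ ^ r / 2) := ⟨_, rfl⟩
  have hκ0 : 0 < κ := by rw [hκ]; exact lt_max_of_lt_right (by linarith)
  have hκ1 : κ < θ ^ r := by rw [hκ]; exact max_lt (by linarith) (by linarith)
  have hκ2 : θ ^ r - ε / 2 ≤ κ := by rw [hκ]; exact le_max_left _ _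
  have hκ3 : κ ≤ 1 := hκ1.le.trans (pow_le_one₀ hθ.le hθ1)
  obtain ⟨e, he⟩ : ∃ e, e = min (ε / 6) 1 := ⟨_, rfl⟩
  have he0 : 0 < e := by rw [he]; exact lt_min (by linarith) (by norm_num)
  have he1 : e ≤ ε / 6 := by rw [he]; exact min_le_left _ _
  have he2 : e ≤ 1 := by rw [he]; exact min_le_right _ _
  have hcc : 0 < c0 * κ := by positivity
  have hsmall : ∀ᶠ k : ℕ in atTop, (4 + 4 / (c0 * κ)) * (k : ℝ) ^ (-((1 : ℝ) / 2)) ≤ e := by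
    have h1 := ((tendsto_rpow_neg_atTop (show (0 : ℝ) < 1 / 2 by norm_num)).comp hcast).const_mul (4 + 4 / (c0 * κ))
    rw [mul_zero] at h1
    exact h1.eventually_le_const he0
  filter_upwards [fin hA hz (r + 1) B hcc] with ω hω
  obtain ⟨K, hK⟩ := eventually_atTop.1 ((hω.and (low_ratio r B hθ hθ1 hκ1 hlow)).and
    ((upp_ratio (r + 1) he0 he2 (z_top hθ hlow)).and (hsmall.and (eventually_ge_atTop 3))))
  refine ⟨2 ^ K, fun x hx D hD hDr hS => ?_⟩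
  obtain ⟨k, hk, hx1, hx2⟩ := exists_block hx
  obtain ⟨⟨h1, h2⟩, h3, h4, h5⟩ := hK k hk
  have hsub := sub_range h5 hx1 hx2 hD
  have hSc := hc D hDr hS
  have hS0 : 0 < SS D := lt_of_lt_of_le hc0 hSc
  obtain ⟨hb1, hb2, _⟩ := block_x hx1 hx2
  have hl2 := Real.log_two_gt_d9
  have hk0 : (0 : ℝ) < k := by
    have : 0 < k := by omega
    exact_mod_cast this
  have hlx : 0 < Real.log x := lt_of_lt_of_le (by positivity) hb2
  have hx0 : 0 < x := lt_of_lt_of_le (by positivity) hb1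
  obtain ⟨R, hR⟩ : ∃ R, R = x / Real.log x ^ (r + 1) := ⟨_, rfl⟩
  have hR0 : 0 < R := by rw [hR]; positivity
  constructor
  · have e1 := (h1 x hx1 hx2 D hsub hDr (κ * SS D) e (by nlinarith) h4 he2).2 (fun j hj _ => by
      have f1 := h2 D hsub hDr j hj
      have f2 : 0 ≤ κ * SS D := by positivity
      nlinarith)
    refine le_trans ?_ e1
    rw [← hR]
    have f1 : θ ^ r - ε ≤ (1 - 3 * e) * κ := by nlinarith
    calc (θ ^ r - ε) * (SS D * R) ≤ ((1 - 3 * e) * κ) * (SS D * R) := mul_le_mul_of_nonneg_right f1 (by positivity)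
      _ = (1 - 3 * e) * (κ * SS D * R) := by ring
  · have e1 := (h1 x hx1 hx2 D hsub hDr (SS D) e (by nlinarith) h4 he2).1 (fun j hj _ => h3 D hDr j hj)
    refine e1.trans ?_
    rw [← hR]
    refine mul_le_mul_of_nonneg_right ?_ (by positivity)
    linarith

theorem floor_pow (k : ℕ) : ⌊(2 : ℝ) ^ k - 1⌋₊ = 2 ^ k - 1 := by
  have h1 : (2 : ℝ) ^ k - 1 = ((2 ^ k - 1 : ℕ) : ℝ) := by
    rw [Nat.cast_sub Nat.one_le_two_pow]
    push_cast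
    ring
  rw [h1, Nat.floor_natCast]

theorem log_pow_ge {k : ℕ} (hk : 2 ≤ k) : ((k : ℝ) - 1) * (1 / 2) ≤ Real.log (2 ^ k - 1) := by
  have hk2 : (2 : ℝ) ≤ k := by exact_mod_cast hk
  have h4 : (4 : ℝ) ≤ 2 ^ k := by
    calc (4 : ℝ) = 2 ^ 2 := by norm_num
      _ ≤ 2 ^ k := pow_le_pow_right₀ (by norm_num) hk
  have h1 : Real.log (2 ^ k / 2) ≤ Real.log (2 ^ k - 1) := Real.log_le_log (by positivity) (by linarith)
  rw [Real.log_div (by positivity) (by norm_num), Real.log_pow] at h1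
  have h2 := Real.log_two_gt_d9
  nlinarith

/-- One count is as expected. -/
def Fits (S : Set ℕ) (D : Finset ℕ) (ε x : ℝ) : Prop :=
  (1 - ε) * (SS D * (x / Real.log x ^ D.card)) ≤ tup S D ⌊x⌋₊ ∧ (tup S D ⌊x⌋₊ : ℝ) ≤ (1 + ε) * (SS D * (x / Real.log x ^ D.card))

theorem y_near : ∀ᶠ k : ℕ in atTop, Real.log k ^ (1 : ℝ) / 2 ≤ (⌊Real.log (k : ℝ)⌋₊ : ℕ) ∧
    ((⌊Real.log (k : ℝ)⌋₊ : ℕ) : ℝ) ≤ 2 * Real.log k ^ (1 : ℝ) := by
  have h := floor_near (show (0 : ℝ) < 1 by norm_num)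
  simp only [Real.rpow_one] at h ⊢
  exact h

theorem y_top : Tendsto (fun k : ℕ => ⌊Real.log (k : ℝ)⌋₊) atTop atTop := near_top one_pos y_near

theorem y_err (r : ℕ) : Tendsto (fun k : ℕ => 2 * ((r : ℝ) + 1) ^ 2 / (⌊Real.log (k : ℝ)⌋₊ : ℕ)) atTop (𝓝 0) :=
  tendsto_const_nhds.div_atTop (hcast.comp y_top)

/-- **Failure.** -/
theorem fail_ae (hA : IsModel μ (pr z) A) (hz : ∀ᶠ k : ℕ in atTop, 8 * z k ≤ k) {r : ℕ} (hr : 1 ≤ r) {δ : ℝ} (hδ : 0 < δ) (hδ1 : δ < 1)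
    (hfreq : ∃ᶠ k : ℕ in atTop, (z k : ℝ) < Real.log k ^ (1 - δ)) : ∃ ε : ℝ, 0 < ε ∧ ∀ᵐ ω ∂μ, ∃ᶠ k : ℕ in atTop,
      ¬ (Fits (A ω) (Dy r ⌊Real.log (k : ℝ)⌋₊) ε (2 ^ k - 1) ∧ Fits (A ω) (Dy r ⌊Real.log (k : ℝ)⌋₊) ε (2 ^ (k + 1) - 1)) := by
  obtain ⟨q, hq⟩ : ∃ q : ℝ, q = (1 / (1 - δ)) ^ r := ⟨_, rfl⟩
  have hq1 : 1 < q := by
    rw [hq]
    refine one_lt_pow₀ ?_ (by omega)
    rw [lt_div_iff₀ (by linarith)]
    linarith
  obtain ⟨ε, hε⟩ : ∃ ε : ℝ, ε = (q - 1) / (4 * q) := ⟨_, rfl⟩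
  have hε0 : 0 < ε := by
    rw [hε]
    have : 0 < q - 1 := by linarith
    positivity
  have hε1 : 4 * q * ε = q - 1 := by
    rw [hε]
    field_simp
  have hε2 : ε ≤ 1 := by nlinarith
  have hεq : 1 < (1 - 3 * ε) * q := by nlinarith
  refine ⟨ε, hε0, ?_⟩
  have hd1 : 0 < 1 - δ := by linarith
  have hV := (Vratio hd1 one_pos (ceil_near hd1) y_near).pow r
  rw [← hq] at hV
  have hw0 : Tendsto (fun k : ℕ => (k : ℝ) ^ (-((1 : ℝ) / 2))) atTop (𝓝 0) :=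
    (tendsto_rpow_neg_atTop (show (0 : ℝ) < 1 / 2 by norm_num)).comp hcast
  have hL : Tendsto (fun k : ℕ => (1 - 2 * ((r : ℝ) + 1) ^ 2 / (⌊Real.log (k : ℝ)⌋₊ : ℕ)) * (1 - 3 * ε - 8 * (k : ℝ) ^ (-((1 : ℝ) / 2))) *
      (Vf ⌈Real.log (k : ℝ) ^ (1 - δ)⌉₊ / Vf ⌊Real.log (k : ℝ)⌋₊) ^ r - (k : ℝ) ^ (-((1 : ℝ) / 2))) atTop
      (𝓝 ((1 - 0) * (1 - 3 * ε - 8 * 0) * q - 0)) :=
    (((tendsto_const_nhds.sub (y_err r)).mul (tendsto_const_nhds.sub (hw0.const_mul 8))).mul hV).sub hw0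
  rw [sub_zero, mul_zero, sub_zero, one_mul, sub_zero] at hL
  have hpos : Tendsto (fun k : ℕ => 1 - 3 * ε - 8 * (k : ℝ) ^ (-((1 : ℝ) / 2))) atTop (𝓝 (1 - 3 * ε - 8 * 0)) :=
    tendsto_const_nhds.sub (hw0.const_mul 8)
  have hpos' : 0 < 1 - 3 * ε - 8 * 0 := by
    rw [mul_zero, sub_zero]
    by_contra hcon
    push Not at hcon
    nlinarith
  filter_upwards [neg hA hz (r + 1) 2] with ω hω
  refine (hfreq.and_eventually ((hω.and (hL.eventually (lt_mem_nhds hεq))).and ((Dy_small r).and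
    ((y_top.eventually_ge_atTop (2 * (r + 1))).and (((y_err r).eventually (gt_mem_nhds one_pos)).and
    ((hpos.eventually (lt_mem_nhds hpos')).and (eventually_ge_atTop 3))))))).mono ?_
  rintro k ⟨h1, ⟨h2, h3⟩, h4, h5, h6, h7, h8⟩ ⟨hg1, hg2⟩
  obtain ⟨y, hy⟩ : ∃ y, y = ⌊Real.log (k : ℝ)⌋₊ := ⟨_, rfl⟩
  rw [← hy] at h3 h4 h5 h6 hg1 hg2
  unfold Fits at hg1 hg2
  rw [Dy_card, floor_pow] at hg1 hg2
  have hk3 : (3 : ℝ) ≤ k := by exact_mod_cast h8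
  have hsub : Dy r y ⊆ range ((k - 1) ^ 2 + 1) := by
    intro d hd
    rw [mem_range]
    have e1 := h4 d hd
    have e2 : (d : ℝ) ≤ (((k - 1) ^ 2 : ℕ) : ℝ) := by
      push_cast
      rw [Nat.cast_sub (by omega)]
      push_cast
      nlinarith
    have e3 : d ≤ (k - 1) ^ 2 := by exact_mod_cast e2
    omega
  have h9 := h2 (Dy r y) hsub (Dy_card r y) (SS (Dy r y)) ε (SS_nonneg _) hε0.le hε2 hg2.1 hg1.2
  obtain ⟨w, hw⟩ : ∃ w, w = (k : ℝ) ^ (-((1 : ℝ) / 2)) := ⟨_, rfl⟩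
  rw [← hw] at h3 h7 h9
  have hw0' : 0 ≤ w := by rw [hw]; positivity
  obtain ⟨u, hu⟩ : ∃ u, u = ⌈Real.log (k : ℝ) ^ (1 - δ)⌉₊ := ⟨_, rfl⟩
  rw [← hu] at h3
  have hzu : z k ≤ u := by
    have : (z k : ℝ) ≤ u := by rw [hu]; exact h1.le.trans (Nat.le_ceil _)
    exact_mod_cast this
  have hL1 : 1 ≤ Real.log (k : ℝ) := by
    rw [← Real.log_exp 1]
    refine Real.log_le_log (Real.exp_pos 1) ?_
    have := Real.exp_one_lt_d9
    linarith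
  have hzy : z k ≤ y := by
    rw [hy]
    refine Nat.le_floor (h1.le.trans ?_)
    calc Real.log (k : ℝ) ^ (1 - δ) ≤ Real.log (k : ℝ) ^ (1 : ℝ) := Real.rpow_le_rpow_of_exponent_le hL1 (by linarith)
      _ = Real.log k := Real.rpow_one _
  rw [Sz_Dy r hzy] at h9
  have hVu := Vf_pos u
  have hVy := Vf_pos y
  have hVz := Vf_pos (z k)
  have h10 : (1 / Vf (z k)) ^ r ≤ (1 / Vf u) ^ r :=
    pow_le_pow_left₀ (by positivity) (one_div_le_one_div_of_le hVu (Vf_anti hzu)) r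
  have h11 := SS_Dy (r := r) (y := y) h5
  have h12 : (1 - 2 * ((r : ℝ) + 1) ^ 2 / y) * (1 / Vf y) ^ r * (1 - 3 * ε - 8 * w) ≤ (1 / Vf u) ^ r + w :=
    (mul_le_mul_of_nonneg_right h11 h7.le).trans (h9.trans (by linarith))
  have h13 : Vf u ^ r ≤ 1 := pow_le_one₀ hVu.le (Vf_le_one u)
  have h14 := mul_le_mul_of_nonneg_right h12 (pow_nonneg hVu.le r)
  have h15 : (1 - 2 * ((r : ℝ) + 1) ^ 2 / y) * (1 / Vf y) ^ r * (1 - 3 * ε - 8 * w) * Vf u ^ r =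
      (1 - 2 * ((r : ℝ) + 1) ^ 2 / y) * (1 - 3 * ε - 8 * w) * (Vf u / Vf y) ^ r := by
    rw [one_div_pow, div_pow]
    ring
  have h16 : ((1 / Vf u) ^ r + w) * Vf u ^ r = 1 + w * Vf u ^ r := by
    rw [add_mul, ← mul_pow, one_div_mul_cancel hVu.ne', one_pow]
  rw [h15, h16] at h14
  have h17 : w * Vf u ^ r ≤ w := mul_le_of_le_one_right hw0' h13
  linarith

/-- **The exact constant** for nondecreasing levels. -/
theorem exact_ae (hA : IsModel μ (pr z) A) (hz : ∀ᶠ k : ℕ in atTop, 8 * z k ≤ k) (hmono : Monotone z) (r : ℕ) {θ : ℝ} (hθ : 0 ≤ θ)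
    (hθ1 : θ < 1) (hfreq : ∀ η : ℝ, 0 < η → ∃ᶠ k : ℕ in atTop, (z k : ℝ) ≤ Real.log k ^ (θ + η)) {ε : ℝ} (hε : 0 < ε) :
    ∀ᵐ ω ∂μ, ∃ᶠ k : ℕ in atTop, (tup (A ω) (Dy r ⌊Real.log (k : ℝ)⌋₊) ⌊(2 : ℝ) ^ k⌋₊ : ℝ) ≤
      (θ ^ r + ε) * (SS (Dy r ⌊Real.log (k : ℝ)⌋₊) * (2 ^ k / Real.log (2 ^ k) ^ (r + 1))) := by
  obtain ⟨c0, hc0, hc⟩ := cr_pos (r + 1)
  obtain ⟨κ, hκ⟩ : ∃ κ : ℝ, κ = θ ^ r + ε / 2 := ⟨_, rfl⟩
  have hκ0 : 0 < κ := by rw [hκ]; positivity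
  obtain ⟨η, ⟨hη1, hη2⟩, hη0⟩ : ∃ η : ℝ, ((θ + η) ^ r < κ ∧ η < 1 - θ) ∧ 0 < η := by
    have h1 : Tendsto (fun η : ℝ => (θ + η) ^ r) (𝓝 0) (𝓝 ((θ + 0) ^ r)) := (tendsto_const_nhds.add tendsto_id).pow r
    rw [add_zero] at h1
    have h2 := (h1.eventually (gt_mem_nhds (show θ ^ r < κ by rw [hκ]; linarith))).and (gt_mem_nhds (show (0 : ℝ) < 1 - θ by linarith))
    have h3 : ∀ᶠ η : ℝ in 𝓝[>] 0, ((θ + η) ^ r < κ ∧ η < 1 - θ) ∧ 0 < η := by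
      filter_upwards [h2.filter_mono nhdsWithin_le_nhds, self_mem_nhdsWithin] with δ h4 h5
      exact ⟨h4, h5⟩
    exact h3.exists
  obtain ⟨e, he⟩ : ∃ e, e = min (ε / (6 * κ)) 1 := ⟨_, rfl⟩
  have he0 : 0 < e := by rw [he]; exact lt_min (by positivity) (by norm_num)
  have he1 : e ≤ ε / (6 * κ) := by rw [he]; exact min_le_left _ _
  have he2 : e ≤ 1 := by rw [he]; exact min_le_right _ _
  rw [le_div_iff₀ (by positivity)] at he1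
  have hcc : 0 < c0 * κ := by positivity
  have hsmall : ∀ᶠ k : ℕ in atTop, (4 + 4 / (c0 * κ)) * (k : ℝ) ^ (-((1 : ℝ) / 2)) ≤ e := by
    have h1 := ((tendsto_rpow_neg_atTop (show (0 : ℝ) < 1 / 2 by norm_num)).comp hcast).const_mul (4 + 4 / (c0 * κ))
    rw [mul_zero] at h1
    exact h1.eventually_le_const he0
  have ha : 0 < θ + η := by linarith
  have hV := (Vratio one_pos ha y_near (floor_near ha)).pow r
  rw [div_one] at hV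
  have hL : Tendsto (fun k : ℕ => κ * (1 - 2 * ((r : ℝ) + 1) ^ 2 / (⌊Real.log (k : ℝ)⌋₊ : ℕ)) -
      (Vf ⌊Real.log (k : ℝ)⌋₊ / Vf ⌊Real.log (k : ℝ) ^ (θ + η)⌋₊) ^ r) atTop (𝓝 (κ * (1 - 0) - (θ + η) ^ r)) :=
    ((tendsto_const_nhds.sub (y_err r)).const_mul κ).sub hV
  rw [sub_zero, mul_one] at hL
  filter_upwards [fin hA hz (r + 1) 2 hcc] with ω hω
  refine ((hfreq η hη0).and_eventually ((hω.and (hL.eventually (lt_mem_nhds (show 0 < κ - (θ + η) ^ r by linarith)))).and ((Dy_small r).and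
    ((y_top.eventually_ge_atTop (2 * (r + 1))).and (((y_err r).eventually (gt_mem_nhds one_pos)).and
    (hsmall.and (eventually_ge_atTop 3))))))).mono ?_
  rintro k ⟨h1, ⟨h2, h3⟩, h4, h5, h6, h7, h8⟩
  obtain ⟨y, hy⟩ : ∃ y, y = ⌊Real.log (k : ℝ)⌋₊ := ⟨_, rfl⟩
  rw [← hy] at h3 h4 h5 h6 ⊢
  have hk3 : (3 : ℝ) ≤ k := by exact_mod_cast h8
  have hfl : ⌊(2 : ℝ) ^ k⌋₊ = 2 ^ k := by
    have : (2 : ℝ) ^ k = ((2 ^ k : ℕ) : ℝ) := by push_cast; ring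
    rw [this, Nat.floor_natCast]
  have hsub : Dy r y ⊆ range (k ^ 2 + 1) := by
    intro d hd
    rw [mem_range]
    have e1 := h4 d hd
    have e2 : (d : ℝ) ≤ ((k ^ 2 : ℕ) : ℝ) := by
      push_cast
      nlinarith
    have e3 : d ≤ k ^ 2 := by exact_mod_cast e2
    omega
  obtain ⟨u, hu⟩ : ∃ u, u = ⌊Real.log (k : ℝ) ^ (θ + η)⌋₊ := ⟨_, rfl⟩
  rw [← hu] at h3
  have hL1 : 1 ≤ Real.log (k : ℝ) := by
    rw [← Real.log_exp 1]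
    refine Real.log_le_log (Real.exp_pos 1) ?_
    have := Real.exp_one_lt_d9
    linarith
  have hzu : z k ≤ u := by rw [hu]; exact Nat.le_floor h1
  have huy : u ≤ y := by
    rw [hu, hy]
    refine Nat.floor_le_floor ?_
    calc Real.log (k : ℝ) ^ (θ + η) ≤ Real.log (k : ℝ) ^ (1 : ℝ) := Real.rpow_le_rpow_of_exponent_le hL1 (by linarith)
      _ = Real.log k := Real.rpow_one _
  have hVu := Vf_pos u
  have hVy := Vf_pos y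
  have hS := SS_Dy (r := r) (y := y) h5
  have hS0 := SS_Dy_pos (r := r) (y := y) h5 h6
  have hSc := hc (Dy r y) (Dy_card r y) hS0.ne'
  have hmain : (1 / Vf u) ^ r ≤ κ * SS (Dy r y) := by
    have e1 : (1 / Vf u) ^ r = (Vf y / Vf u) ^ r * (1 / Vf y) ^ r := by
      rw [← mul_pow]
      congr 1
      field_simp
    rw [e1]
    have e2 : (Vf y / Vf u) ^ r ≤ κ * (1 - 2 * ((r : ℝ) + 1) ^ 2 / y) := by linarith
    calc (Vf y / Vf u) ^ r * (1 / Vf y) ^ r ≤ κ * (1 - 2 * ((r : ℝ) + 1) ^ 2 / y) * (1 / Vf y) ^ r :=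
          mul_le_mul_of_nonneg_right e2 (by positivity)
      _ = κ * ((1 - 2 * ((r : ℝ) + 1) ^ 2 / y) * (1 / Vf y) ^ r) := by ring
      _ ≤ κ * SS (Dy r y) := mul_le_mul_of_nonneg_left hS hκ0.le
  have e1 := (h2 (2 ^ k) (by rw [hfl]) (by rw [hfl]; exact Nat.pow_lt_pow_right (by norm_num) (by omega)) (Dy r y) hsub (Dy_card r y)
    (κ * SS (Dy r y)) e (by nlinarith) h7 he2).1 (fun j _ hj => by
      have f1 : z j ≤ u := (hmono hj).trans hzu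
      rw [Sz_Dy r (f1.trans huy)]
      have f2 := Vf_pos (z j)
      have f3 : (1 / Vf (z j)) ^ r ≤ (1 / Vf u) ^ r :=
        pow_le_pow_left₀ (by positivity) (one_div_le_one_div_of_le hVu (Vf_anti f1)) r
      have f4 : 0 ≤ κ * SS (Dy r y) := by positivity
      nlinarith)
  refine e1.trans ?_
  have hlk : 0 < Real.log ((2 : ℝ) ^ k) := by
    rw [Real.log_pow]
    have := Real.log_two_gt_d9
    positivity
  obtain ⟨R, hR⟩ : ∃ R, R = (2 : ℝ) ^ k / Real.log (2 ^ k) ^ (r + 1) := ⟨_, rfl⟩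
  have hR0 : 0 < R := by rw [hR]; positivity
  rw [← hR]
  calc (1 + 3 * e) * (κ * SS (Dy r y) * R) = ((1 + 3 * e) * κ) * (SS (Dy r y) * R) := by ring
    _ ≤ (θ ^ r + ε) * (SS (Dy r y) * R) := by
      refine mul_le_mul_of_nonneg_right ?_ (by positivity)
      nlinarith

end Pool.Agent.Q120.HL
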